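import Mathlib

set_option autoImplicit false

/-! # Exterior maps: elementary properness -/

namespace Pool.Agent.T6.H93.MLC

open Set Metric Filter Topology Complex Bornology

/-- `ψ` is a conformal isomorphism from the exterior of the closed unit disc onto the complement
of `K`, normalised by `ψ z / z → 1` at infinity. -/
structure Ext (K : Set ℂ) (ψ : ℂ → ℂ) : Prop where
  diff : DifferentiableOn ℂ ψ {z | 1 < ‖z‖}
  inj : InjOn ψ {z | 1 < ‖z‖}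
  image : ψ '' {z | 1 < ‖z‖} = Kᶜ
  infinity : Tendsto (fun z => ψ z / z) (cobounded ℂ) (𝓝 1)

theorem isOpen_ex : IsOpen {z : ℂ | 1 < ‖z‖} := isOpen_lt continuous_const continuous_norm

variable {K : Set ℂ} {ψ : ℂ → ℂ}

theorem Ext.notMem (h : Ext K ψ) {w : ℂ} (hw : 1 < ‖w‖) : ψ w ∉ K := by
  have : ψ w ∈ Kᶜ := h.image ▸ ⟨w, hw, rfl⟩
  exact this

theorem Ext.surj (h : Ext K ψ) {z : ℂ} (hz : z ∉ K) : ∃ w, 1 < ‖w‖ ∧ ψ w = z := by
  have : z ∈ ψ '' {z | 1 < ‖z‖} := h.image ▸ hz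
  exact this

theorem Ext.diffAt (h : Ext K ψ) {w : ℂ} (hw : 1 < ‖w‖) : DifferentiableAt ℂ ψ w :=
  h.diff.differentiableAt (isOpen_ex.mem_nhds hw)

theorem Ext.contAt (h : Ext K ψ) {w : ℂ} (hw : 1 < ‖w‖) : ContinuousAt ψ w :=
  (h.diffAt hw).continuousAt

theorem Ext.cont (h : Ext K ψ) : ContinuousOn ψ {z | 1 < ‖z‖} := h.diff.continuousOn

theorem Ext.analAt (h : Ext K ψ) {w : ℂ} (hw : 1 < ‖w‖) : AnalyticAt ℂ ψ w :=
  h.diff.analyticAt (isOpen_ex.mem_nhds hw)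

/-- openness at each point -/
theorem Ext.nhds_le (h : Ext K ψ) {w : ℂ} (hw : 1 < ‖w‖) : 𝓝 (ψ w) ≤ map ψ (𝓝 w) := by
  rcases (h.analAt hw).eventually_constant_or_nhds_le_map_nhds with h1 | h1
  · exfalso
    have h2 : ∀ᶠ z in 𝓝[≠] w, ψ z = ψ w := h1.filter_mono nhdsWithin_le_nhds
    have h3' : ∀ᶠ z in 𝓝 w, 1 < ‖z‖ := isOpen_ex.mem_nhds hw
    have h3 : ∀ᶠ z in 𝓝[≠] w, 1 < ‖z‖ := h3'.filter_mono nhdsWithin_le_nhds
    obtain ⟨z, hz1, hz2, hz3⟩ := (h2.and (h3.and eventually_mem_nhdsWithin)).exists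
    exact hz3 (h.inj hz2 hw hz1)
  · exact h1

theorem Ext.image_open (h : Ext K ψ) {U : Set ℂ} (hU : IsOpen U) (hU1 : U ⊆ {z | 1 < ‖z‖}) :
    IsOpen (ψ '' U) := by
  rw [isOpen_iff_mem_nhds]
  rintro _ ⟨w, hw, rfl⟩
  have := h.nhds_le (hU1 hw)
  exact this (image_mem_map (hU.mem_nhds hw))

/-- the inverse is continuous -/
theorem Ext.tendsto_inv (h : Ext K ψ) {ι : Type*} {l : Filter ι} {w : ι → ℂ} {w0 : ℂ}
    (hw0 : 1 < ‖w0‖) (hw : ∀ᶠ i in l, 1 < ‖w i‖) (ht : Tendsto (fun i => ψ (w i)) l (𝓝 (ψ w0))) :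
    Tendsto w l (𝓝 w0) := by
  rw [tendsto_def]
  intro U hU
  have h1 : ψ '' (U ∩ {z | 1 < ‖z‖}) ∈ 𝓝 (ψ w0) :=
    h.nhds_le hw0 (image_mem_map (inter_mem hU (isOpen_ex.mem_nhds hw0)))
  filter_upwards [ht h1, hw] with i hi hi2
  obtain ⟨v, ⟨hv1, hv2⟩, hv3⟩ := hi
  have := h.inj hv2 hi2 hv3
  rw [mem_preimage, ← this]
  exact hv1

/-- `ψ w` is close to `K` when `|w|` is close to `1` -/
theorem Ext.close (h : Ext K ψ) {B : ℝ}
    (hB : ∀ w, 1 < ‖w‖ → ‖w‖ < 2 → ‖ψ w‖ ≤ B) {δ : ℝ} (hδ : 0 < δ) :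
    ∃ κ : ℝ, 0 < κ ∧ ∀ w, 1 < ‖w‖ → ‖w‖ < 1 + κ → infDist (ψ w) K < δ := by
  by_contra hcon
  push Not at hcon
  have h1 : ∀ n : ℕ, ∃ w, 1 < ‖w‖ ∧ ‖w‖ < 1 + 1 / ((n : ℝ) + 1) ∧ δ ≤ infDist (ψ w) K :=
    fun n => hcon _ (by positivity)
  choose w hw1 hw2 hw3 using h1
  have hw4 : ∀ n, ψ (w n) ∈ closedBall (0 : ℂ) B := by
    intro n
    rw [mem_closedBall_zero_iff]
    refine hB _ (hw1 n) (lt_of_lt_of_le (hw2 n) ?_)
    have : 1 / ((n : ℝ) + 1) ≤ 1 := by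
      rw [div_le_one (by positivity)]
      have := n.cast_nonneg (α := ℝ)
      linarith
    linarith
  obtain ⟨x, -, φ, hφ, hx⟩ := (isCompact_closedBall (0 : ℂ) B).tendsto_subseq hw4
  have hx1 : δ ≤ infDist x K :=
    ge_of_tendsto ((continuous_infDist_pt K).continuousAt.tendsto.comp hx)
      (Eventually.of_forall fun n => hw3 (φ n))
  have hx2 : x ∉ K := by
    intro hx2
    rw [infDist_zero_of_mem hx2] at hx1
    linarith
  obtain ⟨w0, hw0, rfl⟩ := h.surj hx2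
  have h2 : Tendsto (fun n => w (φ n)) atTop (𝓝 w0) :=
    h.tendsto_inv hw0 (Eventually.of_forall fun n => hw1 (φ n)) hx
  have h3 : Tendsto (fun n => ‖w (φ n)‖) atTop (𝓝 ‖w0‖) := h2.norm
  have h4 : Tendsto (fun n : ℕ => 1 + 1 / ((φ n : ℝ) + 1)) atTop (𝓝 (1 + 0)) :=
    tendsto_const_nhds.add (tendsto_one_div_add_atTop_nhds_zero_nat.comp hφ.tendsto_atTop)
  have h5 : ‖w0‖ ≤ 1 + 0 := le_of_tendsto_of_tendsto h3 h4
    (Eventually.of_forall fun n => (hw2 (φ n)).le)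
  linarith

/-- `|w|` is close to `1` when `ψ w` is close to a point of `K` -/
theorem Ext.far (h : Ext K ψ) {x : ℂ} (hx : x ∈ K) {κ : ℝ} (hκ : 0 < κ) :
    ∃ δ : ℝ, 0 < δ ∧ ∀ w, 1 < ‖w‖ → dist (ψ w) x < δ → ‖w‖ < 1 + κ := by
  by_contra hcon
  push Not at hcon
  have h1 : ∀ n : ℕ, ∃ w, 1 < ‖w‖ ∧ dist (ψ w) x < 1 / ((n : ℝ) + 1) ∧ 1 + κ ≤ ‖w‖ :=
    fun n => hcon _ (by positivity)
  choose w hw1 hw2 hw3 using h1
  have hlim : Tendsto (fun n => ψ (w n)) atTop (𝓝 x) := by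
    rw [tendsto_iff_dist_tendsto_zero]
    exact squeeze_zero (fun _ => dist_nonneg) (fun n => (hw2 n).le)
      tendsto_one_div_add_atTop_nhds_zero_nat
  -- the sequence is bounded
  have hb : ∃ R : ℝ, ∀ z : ℂ, R < ‖z‖ → ‖x‖ + 1 < ‖ψ z‖ := by
    have h2 : ∀ᶠ z in cobounded ℂ, ‖ψ z / z - 1‖ < 1 / 2 := by
      have := (h.infinity.sub_const 1).norm
      rw [sub_self, norm_zero] at this
      exact this.eventually_lt_const (by norm_num)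
    have h3 : ∀ᶠ z in cobounded ℂ, ‖x‖ * 2 + 2 < ‖z‖ :=
      tendsto_norm_cobounded_atTop.eventually_gt_atTop _
    have h4 := h2.and h3
    rw [(Filter.hasBasis_cobounded_norm (E := ℂ)).eventually_iff] at h4
    obtain ⟨R, -, hR⟩ := h4
    refine ⟨R, fun z hz => ?_⟩
    obtain ⟨h5, h6⟩ := hR hz.le
    have hz0 : z ≠ 0 := by
      rintro rfl
      rw [norm_zero] at h6
      have := norm_nonneg x
      linarith
    have h7 : 1 / 2 < ‖ψ z / z‖ := by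
      have h8 := norm_sub_norm_le (1 : ℂ) (1 - ψ z / z)
      rw [sub_sub_cancel, norm_one, ← norm_neg (1 - ψ z / z), neg_sub] at h8
      linarith
    rw [norm_div, lt_div_iff₀ (norm_pos_iff.2 hz0)] at h7
    linarith
  obtain ⟨R, hR⟩ := hb
  have hbd : ∀ᶠ n in atTop, w n ∈ closedBall (0 : ℂ) R := by
    have h2 : ∀ᶠ n in atTop, ‖ψ (w n)‖ < ‖x‖ + 1 :=
      hlim.norm.eventually_lt_const (by linarith)
    filter_upwards [h2] with n hn
    rw [mem_closedBall_zero_iff]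
    by_contra hc
    push Not at hc
    have := hR _ hc
    linarith
  obtain ⟨w0, -, φ, hφ, hw0⟩ := (isCompact_closedBall (0 : ℂ) R).tendsto_subseq' hbd.frequently
  have h3 : 1 + κ ≤ ‖w0‖ := ge_of_tendsto hw0.norm (Eventually.of_forall fun n => hw3 (φ n))
  have h4 : Tendsto (fun n => ψ (w (φ n))) atTop (𝓝 (ψ w0)) :=
    (h.contAt (by linarith)).tendsto.comp hw0
  have h5 : x = ψ w0 := tendsto_nhds_unique (hlim.comp hφ.tendsto_atTop) h4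
  exact h.notMem (w := w0) (by linarith) (h5 ▸ hx)

end Pool.Agent.T6.H93.MLC
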