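import Mathlib
import Pool.Agent.Y736.HG1
import Pool.Agent.H637R4.PO.QT
import Pool.Agent.H637R4.PO.RAY
import Pool.Agent.H637R4.PO.KB
import Pool.Agent.T6.H93.MLC.Base

set_option autoImplicit false

/-! # The rays of the Mandelbrot set between consecutive levels -/

namespace Pool.Agent.T6.H93.MLC

open Set Metric Filter Topology Complex Bornology
open Pool.Agent.H713R2 (IsExteriorMap)
open Pool.Agent.H712R2 (P)
open N62a1eb23

variable {ψ : ℂ → ℂ}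

theorem ext_of (hψ : IsExteriorMap (multibrotSet 2) ψ) : Ext (multibrotSet 2) ψ :=
  ⟨hψ.diff, hψ.inj, hψ.image, hψ.infinity⟩

theorem bound_of (hψ : IsExteriorMap (multibrotSet 2) ψ) :
    ∀ w, 1 < ‖w‖ → ‖w‖ < 2 → ‖ψ w‖ ≤ 4 := by
  intro w h1 h2
  have h3 := Pool.Agent.W677.MC.P_le_two le_rfl hψ h1 0
  rw [Pool.Agent.H712R2.P_one le_rfl, pow_zero, pow_one] at h3
  linarith

theorem compact_M : IsCompact (multibrotSet 2) := Pool.Agent.H712R2.isCompact_multibrot le_rfl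

theorem norm_le_M {c : ℂ} (hc : c ∈ multibrotSet 2) : ‖c‖ ≤ 2 := by
  have h := (Pool.Agent.H712R2.mem_multibrot_iff le_rfl c).1 hc 1
  rwa [Pool.Agent.H712R2.P_one le_rfl] at h

theorem nonempty_M : (multibrotSet 2).Nonempty :=
  (Pool.Agent.H712R2.isConnected_multibrot le_rfl).nonempty

/-- Koebe's quarter theorem for the exterior map -/
theorem quarter {K : Set ℂ} (h : Ext K ψ) (hK : IsCompact K) (hKn : K.Nonempty) {w : ℂ}
    (hw : 1 < ‖w‖) : (‖w‖ - 1) * ‖deriv ψ w‖ ≤ 4 * infDist (ψ w) K := by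
  obtain ⟨v, hv, hvd⟩ := hK.exists_infDist_eq_dist hKn (ψ w)
  have hsub : ball w (‖w‖ - 1) ⊆ {z | 1 < ‖z‖} := by
    intro z hz
    rw [mem_ball, dist_eq_norm] at hz
    have := norm_sub_norm_le w z
    rw [← norm_neg, neg_sub] at hz
    rw [mem_ofPred_eq]
    linarith
  have h1 := Pool.Agent.H637R4.PO.t_QT Pool.Agent.H637R4.PO.t_KB ψ w v (‖w‖ - 1) (by linarith)
    (h.diff.mono hsub) (h.inj.mono hsub) (by
      rintro ⟨z, hz, rfl⟩
      exact h.notMem (hsub hz) hv)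
  rw [hvd, dist_comm, dist_eq_norm]
  exact h1

theorem ray_dist {K : Set ℂ} (h : Ext K ψ) (ζ : ℂ) (x y : ℝ) (hζ : ‖ζ‖ = 1) (hx : 0 < x)
    (hxy : x ≤ y) : ‖ψ ((1 + y : ℝ) * ζ) - ψ ((1 + x : ℝ) * ζ)‖ ≤
      x * ‖deriv ψ ((1 + x : ℝ) * ζ)‖ * (y / x) ^ 5 / 5 :=
  Pool.Agent.H637R4.PO.t_RAY Pool.Agent.H637R4.PO.t_KB ψ ζ x y h.diff h.inj hζ hx hxy

theorem norm_ray {ζ : ℂ} (hζ : ‖ζ‖ = 1) {x : ℝ} (hx : 0 < x) : ‖((1 + x : ℝ) : ℂ) * ζ‖ = 1 + x := by
  rw [norm_mul, hζ, mul_one, Complex.norm_real, Real.norm_eq_abs, abs_of_pos (by linarith)]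

theorem pow_le_exp' {y : ℝ} (hy : 0 ≤ y) {N : ℕ} {a : ℝ} (ha : y ≤ a * (1 / 2) ^ N) :
    (1 + y) ^ (2 ^ N) ≤ Real.exp a := by
  have h4 : 1 + y ≤ Real.exp y := by
    have := Real.add_one_le_exp y
    linarith
  calc (1 + y) ^ (2 ^ N) ≤ (Real.exp y) ^ (2 ^ N) := pow_le_pow_left₀ (by linarith) h4 _
    _ = Real.exp (y * 2 ^ N) := by
        rw [← Real.exp_nat_mul]
        congr 1
        push_cast
        ring
    _ ≤ Real.exp a := by
        rw [Real.exp_le_exp]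
        have h5 : y * 2 ^ N ≤ a * (1 / 2) ^ N * 2 ^ N :=
          mul_le_mul_of_nonneg_right ha (by positivity)
        have h6 : a * (1 / 2) ^ N * 2 ^ N = a := by
          rw [mul_assoc, ← mul_pow]
          norm_num
        linarith

/-- every ray crosses the level `|P_n| = 3` at the right place -/
theorem crossing (hψ : IsExteriorMap (multibrotSet 2) ψ) : ∃ N0 : ℕ, ∀ N : ℕ, N0 ≤ N → ∀ ζ : ℂ,
    ‖ζ‖ = 1 → ∃ y : ℝ, 2 / 5 * (1 / 2) ^ N ≤ y ∧ y ≤ 4 * (1 / 2) ^ N ∧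
      ‖P 2 (N + 1) (ψ ((1 + y : ℝ) * ζ))‖ = 3 := by
  have hE := ext_of hψ
  obtain ⟨κ, hκ, hk⟩ := hE.close (bound_of hψ) one_pos
  have hlim : Tendsto (fun N : ℕ => 4 * (1 / 2 : ℝ) ^ N) atTop (𝓝 0) := by
    have := (tendsto_pow_atTop_nhds_zero_of_lt_one (r := (1 / 2 : ℝ)) (by norm_num)
      (by norm_num)).const_mul 4
    rwa [mul_zero] at this
  obtain ⟨N0, hN0⟩ := eventually_atTop.1 (hlim.eventually_lt_const hκ)
  refine ⟨N0, fun N hN ζ hζ => ?_⟩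
  have hs : 4 * (1 / 2 : ℝ) ^ N < κ := hN0 N hN
  have hp : (0 : ℝ) < (1 / 2) ^ N := by positivity
  have hcont : ContinuousOn (fun y : ℝ => ‖P 2 (N + 1) (ψ ((1 + y : ℝ) * ζ))‖)
      (Icc (2 / 5 * (1 / 2) ^ N) (4 * (1 / 2) ^ N)) := by
    refine ContinuousOn.norm ?_
    refine (Pool.Agent.H713R2.differentiable_P 2 (N + 1)).continuous.comp_continuousOn ?_
    refine hE.cont.comp (by fun_prop) ?_
    intro y hy
    rw [mem_ofPred_eq, norm_ray hζ (by linarith [hy.1])]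
    linarith [hy.1]
  have h1 : ‖P 2 (N + 1) (ψ ((1 + 2 / 5 * (1 / 2) ^ N : ℝ) * ζ))‖ ≤ 3 := by
    have h2 := Pool.Agent.W677.MC.P_le_two (le_refl 2) hψ
      (z := ((1 + 2 / 5 * (1 / 2) ^ N : ℝ) : ℂ) * ζ)
      (by rw [norm_ray hζ (by positivity)]; linarith) N
    rw [norm_ray hζ (by positivity)] at h2
    have h3 := pow_le_exp' (y := 2 / 5 * (1 / 2) ^ N) (by positivity) (N := N) (a := 2 / 5) le_rfl
    have h4 : Real.exp (2 / 5) ≤ 3 / 2 := by
      have h5 : Real.exp (2 / 5) ^ 5 ≤ (3 / 2) ^ 5 := by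
        rw [← Real.exp_nat_mul]
        have h6 : ((5 : ℕ) : ℝ) * (2 / 5) = 1 + 1 := by norm_num
        rw [h6, Real.exp_add]
        have h7 := Real.exp_one_lt_d9
        have h8 := Real.exp_pos 1
        nlinarith
      exact le_of_pow_le_pow_left₀ (by norm_num) (by norm_num) h5
    linarith
  have h2 : 3 ≤ ‖P 2 (N + 1) (ψ ((1 + 4 * (1 / 2) ^ N : ℝ) * ζ))‖ := by
    by_contra hcon
    push Not at hcon
    have hz : 1 < ‖((1 + 4 * (1 / 2) ^ N : ℝ) : ℂ) * ζ‖ := by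
      rw [norm_ray hζ (by positivity)]
      linarith
    have h3 : ‖ψ (((1 + 4 * (1 / 2) ^ N : ℝ) : ℂ) * ζ)‖ ≤ 3 := by
      have h4 := hk _ hz (by rw [norm_ray hζ (by positivity)]; linarith)
      obtain ⟨v, hv, hvd⟩ := compact_M.exists_infDist_eq_dist nonempty_M
        (ψ (((1 + 4 * (1 / 2) ^ N : ℝ) : ℂ) * ζ))
      rw [hvd, dist_eq_norm] at h4
      have h5 := norm_le_M hv
      have h6 := norm_le_norm_add_norm_sub' (ψ (((1 + 4 * (1 / 2) ^ N : ℝ) : ℂ) * ζ)) v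
      linarith
    have h4 := Pool.Agent.Y736.HG.green_lower (le_refl 2) hψ hz h3 hcon.le
    rw [norm_ray hζ (by positivity)] at h4
    have h5 := one_add_mul_le_pow (a := 4 * (1 / 2 : ℝ) ^ N) (by linarith) (2 ^ N)
    have h6 : ((2 ^ N : ℕ) : ℝ) * (4 * (1 / 2) ^ N) = 4 := by
      push_cast
      have h7 : (2 : ℝ) ^ N * (1 / 2) ^ N = 1 := by
        rw [← mul_pow]
        norm_num
      linear_combination 4 * h7
    rw [h6] at h5
    linarith
  obtain ⟨y, hy, hy3⟩ := intermediate_value_Icc (by linarith : 2 / 5 * (1 / 2 : ℝ) ^ N ≤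
    4 * (1 / 2) ^ N) hcont ⟨h1, h2⟩
  exact ⟨y, hy.1, hy.2, hy3⟩

theorem deriv_mul_le (hψ : IsExteriorMap (multibrotSet 2) ψ) {N : ℕ} {ζ : ℂ} (hζ : ‖ζ‖ = 1)
    {y : ℝ} (hy0 : 0 < y) (hy : y ≤ 4 * (1 / 2) ^ N) :
    y * ‖deriv ψ ((1 + y : ℝ) * ζ)‖ * ‖deriv (P 2 (N + 1)) (ψ ((1 + y : ℝ) * ζ))‖ ≤ 1616 := by
  have hE := ext_of hψ
  obtain ⟨w, hw⟩ : ∃ w, w = ((1 + y : ℝ) : ℂ) * ζ := ⟨_, rfl⟩
  have hwn : ‖w‖ = 1 + y := by rw [hw]; exact norm_ray hζ hy0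
  have hball : ∀ v ∈ closedBall w (y / 2), 1 < ‖v‖ ∧ ‖v‖ ≤ 1 + 3 / 2 * y := by
    intro v hv
    rw [mem_closedBall, dist_eq_norm] at hv
    have h1 := norm_le_norm_add_norm_sub' w v
    have h2 := norm_le_norm_add_norm_sub' v w
    rw [norm_sub_rev w v] at h1
    constructor <;> linarith
  have hd : DifferentiableOn ℂ (fun v => P 2 (N + 1) (ψ v)) (closedBall w (y / 2)) := by
    intro v hv
    exact ((Pool.Agent.H713R2.differentiable_P 2 (N + 1)).differentiableAt.comp v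
      (hE.diffAt (hball v hv).1)).differentiableWithinAt
  have h1 : ‖deriv (fun v => P 2 (N + 1) (ψ v)) w‖ ≤ 808 / (y / 2) := by
    apply Complex.norm_deriv_le_of_forall_mem_sphere_norm_le (by linarith)
    · exact hd.diffContOnCl_ball subset_rfl
    · intro v hv
      have hv' := hball v (sphere_subset_closedBall hv)
      have h2 := Pool.Agent.W677.MC.P_le_two (le_refl 2) hψ hv'.1 N
      have h3 : ‖v‖ ^ (2 ^ N) ≤ (1 + 3 / 2 * y) ^ (2 ^ N) :=
        pow_le_pow_left₀ (norm_nonneg _) hv'.2 _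
      have h4 := pow_le_exp' (y := 3 / 2 * y) (by positivity) (N := N) (a := 6) (by linarith)
      have h5 : Real.exp 6 ≤ 404 := by
        have h6 : Real.exp 6 = Real.exp 1 ^ 6 := by
          rw [← Real.exp_nat_mul]
          norm_num
        rw [h6]
        have h7 : Real.exp 1 ^ 6 ≤ 2.7182818286 ^ 6 :=
          pow_le_pow_left₀ (Real.exp_pos 1).le Real.exp_one_lt_d9.le 6
        refine h7.trans ?_
        norm_num
      linarith
  have h2 : deriv (fun v => P 2 (N + 1) (ψ v)) w = deriv (P 2 (N + 1)) (ψ w) * deriv ψ w := by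
    have h3 : HasDerivAt (P 2 (N + 1)) (deriv (P 2 (N + 1)) (ψ w)) (ψ w) :=
      (Pool.Agent.H713R2.differentiable_P 2 (N + 1)).differentiableAt.hasDerivAt
    have h4 : HasDerivAt ψ (deriv ψ w) w := (hE.diffAt (by rw [hwn]; linarith)).hasDerivAt
    exact (h3.comp w h4).deriv
  rw [h2, norm_mul, le_div_iff₀ (by linarith)] at h1
  rw [← hw]
  nlinarith

/-- displacement along a ray at one level -/
theorem disp (hψ : IsExteriorMap (multibrotSet 2) ψ) {N : ℕ} {ζ : ℂ} (hζ : ‖ζ‖ = 1)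
    {y y' : ℝ} (hy : 2 / 5 * (1 / 2) ^ N ≤ y) (hyy : y ≤ y')
    (hy' : y' ≤ 8 * (1 / 2) ^ N) :
    dist (ψ ((1 + y' : ℝ) * ζ)) (ψ ((1 + y : ℝ) * ζ)) ≤
      640000 * (y * ‖deriv ψ ((1 + y : ℝ) * ζ)‖) := by
  have hp : (0 : ℝ) < (1 / 2) ^ N := by positivity
  have hy0 : 0 < y := by linarith
  have h1 := ray_dist (ext_of hψ) ζ y y' hζ hy0 hyy
  have h2 : (y' / y) ^ 5 ≤ 20 ^ 5 := by
    refine pow_le_pow_left₀ (div_nonneg (by linarith) hy0.le) ?_ 5
    rw [div_le_iff₀ hy0]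
    linarith
  have h3 : y * ‖deriv ψ ((1 + y : ℝ) * ζ)‖ * (y' / y) ^ 5 ≤
      y * ‖deriv ψ ((1 + y : ℝ) * ζ)‖ * 20 ^ 5 :=
    mul_le_mul_of_nonneg_left h2 (by positivity)
  have h4 : y * ‖deriv ψ ((1 + y : ℝ) * ζ)‖ * 20 ^ 5 / 5 =
      640000 * (y * ‖deriv ψ ((1 + y : ℝ) * ζ)‖) := by ring
  rw [dist_eq_norm]
  linarith

/-- chaining -/
theorem chain {f : ℝ → ℂ} {Z : ℕ → ℂ} {b u : ℕ → ℝ} (hu : Antitone u) (m : ℕ) :
    ∀ N r r', r ∈ Icc (u (N + 1)) (u N) → r' ∈ Icc (u (N + m + 1)) (u (N + m)) → r' ≤ r →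
    (∀ k, N ≤ k → k ≤ N + m → ∀ t ∈ Icc (u (k + 1)) (u k), r' ≤ t → t ≤ r →
      dist (f t) (Z k) ≤ b k) →
    dist (f r) (f r') ≤ ∑ k ∈ Finset.range (m + 1), 2 * b (N + k) := by
  induction m with
  | zero =>
    intro N r r' hr hr' hle h
    have h1 := h N le_rfl le_rfl r hr hle le_rfl
    have h2 := h N le_rfl le_rfl r' hr' le_rfl hle
    simp only [zero_add, Finset.range_one, Finset.sum_singleton, add_zero]
    calc dist (f r) (f r') ≤ dist (f r) (Z N) + dist (f r') (Z N) := dist_triangle_right _ _ _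
      _ ≤ 2 * b N := by linarith
  | succ m ih =>
    intro N r r' hr hr' hle h
    have h1 : u (N + m + 1) ≤ u (N + 1) := hu (by omega)
    have h2 : u (N + m + 1) ≤ u (N + m) := hu (by omega)
    have hr2 : r' ≤ u (N + m + 1) := hr'.2
    have h3 := ih N r (u (N + m + 1)) hr ⟨le_rfl, h2⟩ (h1.trans hr.1) (by
      intro k hk1 hk2 t ht h4 h5
      exact h k hk1 (by omega) t ht (hr2.trans h4) h5)
    have h4 := h (N + (m + 1)) (by omega) le_rfl (u (N + m + 1)) ⟨hu (by omega), le_rfl⟩ hr2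
      (h1.trans hr.1)
    have h5 := h (N + (m + 1)) (by omega) le_rfl r' hr' le_rfl hle
    rw [Finset.sum_range_succ]
    calc dist (f r) (f r') ≤ dist (f r) (f (u (N + m + 1))) + dist (f (u (N + m + 1))) (f r') :=
          dist_triangle _ _ _
      _ ≤ dist (f r) (f (u (N + m + 1))) + (dist (f (u (N + m + 1))) (Z (N + (m + 1))) +
          dist (f r') (Z (N + (m + 1)))) := by
          gcongr
          exact dist_triangle_right _ _ _
      _ ≤ _ := by linarith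

end Pool.Agent.T6.H93.MLC
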