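import Mathlib
import Pool.Agent.T6.H93.MLC.Level

set_option autoImplicit false

/-! # Solutions of `P_n = 3` close to the points with `|P_n| = 3` -/

namespace Pool.Agent.T6.H93.MLC

open Set Metric Filter Topology Complex Bornology
open Pool.Agent.H713R2 (IsGm exists_gm rad rad_pow rad_pos rad_lt_one differentiable_P)
open Pool.Agent.H712R2 (P)
open N62a1eb23

/-- distortion of a univalent function along an arc of a circle -/
theorem arc_dist {χ : ℂ → ℂ} {ρ r : ℝ} (hd : DifferentiableOn ℂ χ {v | ρ < ‖v‖})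
    (hi : InjOn χ {v | ρ < ‖v‖}) (hr : ρ < r) {v0 : ℂ} (hv : ‖v0‖ = r) {σ : ℝ}
    (hσ : |σ| = 1) {L : ℝ} (hL : 0 ≤ L) :
    ‖deriv χ (v0 * Complex.exp ((σ * L : ℝ) * I))‖ ≤
      ‖deriv χ v0‖ * Real.exp (4 * r / (r - ρ) * L) := by
  have hopen : IsOpen {v : ℂ | ρ < ‖v‖} := isOpen_lt continuous_const continuous_norm
  have hn : ∀ θ : ℝ, ‖v0 * Complex.exp ((σ * θ : ℝ) * I)‖ = r := by
    intro θ
    rw [norm_mul, Complex.norm_exp_ofReal_mul_I, mul_one, hv]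
  have hr0 : 0 ≤ r := by rw [← hv]; exact norm_nonneg _
  have hd2 : DifferentiableOn ℂ (deriv χ) {v | ρ < ‖v‖} := hd.deriv hopen
  have hpath : ∀ θ : ℝ, HasDerivAt (fun θ : ℝ => v0 * Complex.exp ((σ * θ : ℝ) * I))
      (v0 * (Complex.exp ((σ * θ : ℝ) * I) * (σ * I))) θ := by
    intro θ
    have h1 : HasDerivAt (fun θ : ℝ => ((σ * θ : ℝ) : ℂ) * I) (σ * I) θ := by
      have h2 : HasDerivAt (fun θ : ℝ => ((σ * θ : ℝ) : ℂ)) ((σ : ℝ) : ℂ) θ := by
        have h3 := ((hasDerivAt_id θ).const_mul σ).ofReal_comp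
        simpa using h3
      exact h2.mul_const I
    exact h1.cexp.const_mul v0
  have hf : ∀ θ : ℝ, HasDerivAt (fun θ : ℝ => deriv χ (v0 * Complex.exp ((σ * θ : ℝ) * I)))
      (deriv (deriv χ) (v0 * Complex.exp ((σ * θ : ℝ) * I)) *
        (v0 * (Complex.exp ((σ * θ : ℝ) * I) * (σ * I)))) θ := by
    intro θ
    have h1 : HasDerivAt (deriv χ) (deriv (deriv χ) (v0 * Complex.exp ((σ * θ : ℝ) * I)))
        (v0 * Complex.exp ((σ * θ : ℝ) * I)) :=
      (hd2.differentiableAt (hopen.mem_nhds (by rw [mem_ofPred_eq, hn]; exact hr))).hasDerivAt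
    exact HasDerivAt.comp (h := fun θ : ℝ => v0 * Complex.exp ((σ * θ : ℝ) * I)) θ h1 (hpath θ)
  have hbound : ∀ θ : ℝ, ‖deriv (deriv χ) (v0 * Complex.exp ((σ * θ : ℝ) * I)) *
        (v0 * (Complex.exp ((σ * θ : ℝ) * I) * (σ * I)))‖ ≤
      4 * r / (r - ρ) * ‖deriv χ (v0 * Complex.exp ((σ * θ : ℝ) * I))‖ + 0 := by
    intro θ
    obtain ⟨v, hvd⟩ : ∃ v, v = v0 * Complex.exp ((σ * θ : ℝ) * I) := ⟨_, rfl⟩
    have hvn : ‖v‖ = r := by rw [hvd]; exact hn θ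
    have hsub : ball v (r - ρ) ⊆ {v | ρ < ‖v‖} := by
      intro w hw
      rw [mem_ball, dist_eq_norm] at hw
      have h1 := norm_le_norm_add_norm_sub' v w
      rw [norm_sub_rev] at h1
      rw [mem_ofPred_eq]
      linarith
    have hKB := (Pool.Agent.H637R4.PO.t_KB χ v (r - ρ) (by linarith) (hd.mono hsub)
      (hi.mono hsub)).2
    have h1 : ‖v0 * (Complex.exp ((σ * θ : ℝ) * I) * (σ * I))‖ = r := by
      rw [norm_mul, norm_mul, norm_mul, Complex.norm_exp_ofReal_mul_I, Complex.norm_real,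
        Real.norm_eq_abs, hσ, Complex.norm_I, hv]
      ring
    rw [norm_mul, h1, ← hvd, add_zero]
    have h2 : ‖deriv (deriv χ) v‖ ≤ 4 * ‖deriv χ v‖ / (r - ρ) := by
      rw [le_div_iff₀ (by linarith)]
      linarith
    calc ‖deriv (deriv χ) v‖ * r ≤ 4 * ‖deriv χ v‖ / (r - ρ) * r :=
          mul_le_mul_of_nonneg_right h2 hr0
      _ = 4 * r / (r - ρ) * ‖deriv χ v‖ := by ring
  have h0 : v0 * Complex.exp ((σ * (0 : ℝ) : ℝ) * I) = v0 := by simp
  have h1 := norm_le_gronwallBound_of_norm_deriv_right_le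
    (f := fun θ : ℝ => deriv χ (v0 * Complex.exp ((σ * θ : ℝ) * I)))
    (δ := ‖deriv χ v0‖) (K := 4 * r / (r - ρ)) (ε := 0) (a := 0) (b := L)
    (fun θ _ => (hf θ).continuousAt.continuousWithinAt)
    (fun θ _ => (hf θ).hasDerivWithinAt) (by simp only [h0]; exact le_rfl)
    (fun θ _ => hbound θ) L ⟨hL, le_rfl⟩
  rw [gronwallBound_ε0, sub_zero] at h1
  exact h1

theorem exp_lt : Real.exp (2 / 5) < 3 / 2 := by
  have h5 : Real.exp (2 / 5) ^ 5 < (3 / 2) ^ 5 := by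
    rw [← Real.exp_nat_mul]
    have h6 : ((5 : ℕ) : ℝ) * (2 / 5) = 1 + 1 := by norm_num
    rw [h6, Real.exp_add]
    have h7 := Real.exp_one_lt_d9
    have h8 := Real.exp_pos 1
    nlinarith
  exact lt_of_pow_lt_pow_left₀ 5 (by norm_num) h5

/-- a solution of `P_n = 3` close to a point with `|P_n| = 3` -/
theorem root_near (m : ℕ) {z : ℂ} (hz : ‖P 2 (m + 1) z‖ = 3) :
    ∃ a : ℂ, P 2 (m + 1) a = 3 ∧
      ‖deriv (P 2 (m + 1)) a‖ ≤ Real.exp 120 * ‖deriv (P 2 (m + 1)) z‖ ∧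
      dist z a ≤ 120 * Real.exp 120 * infDist z (multibrotSet 2) := by
  obtain ⟨g, hg⟩ := exists_gm (d := 2) le_rfl m
  obtain ⟨χ, hχ⟩ : ∃ χ : ℂ → ℂ, χ = fun v => v * g v⁻¹ := ⟨_, rfl⟩
  obtain ⟨ρ, hρ⟩ : ∃ ρ, ρ = (rad 2 m)⁻¹ := ⟨_, rfl⟩
  have hrad := rad_pos 2 m
  have hρ1 : 1 < ρ := by rw [hρ]; exact (one_lt_inv₀ hrad).2 (rad_lt_one le_rfl m)
  have hρN : ρ ^ (2 ^ m) = 2 := by
    rw [hρ, inv_pow, rad_pow le_rfl]
    norm_num
  have hopen : IsOpen {v : ℂ | ρ < ‖v‖} := isOpen_lt continuous_const continuous_norm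
  have hne : ∀ v : ℂ, ρ < ‖v‖ → v ≠ 0 := by
    intro v hv h
    rw [h, norm_zero] at hv
    linarith
  have hmem : ∀ v : ℂ, ρ < ‖v‖ → v⁻¹ ∈ ball (0 : ℂ) (rad 2 m) := by
    intro v hv
    rw [mem_ball_zero_iff, norm_inv]
    rw [hρ] at hv
    exact inv_lt_of_inv_lt₀ hrad hv
  have hχd : DifferentiableOn ℂ χ {v | ρ < ‖v‖} := by
    intro v hv
    have h1 : DifferentiableAt ℂ g v⁻¹ := hg.diff.differentiableAt (isOpen_ball.mem_nhds (hmem v hv))
    have h2 : DifferentiableAt ℂ (fun v : ℂ => g v⁻¹) v :=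
      h1.comp v (differentiableAt_inv_iff.mpr (hne v hv))
    rw [hχ]
    exact (differentiableAt_id.mul h2).differentiableWithinAt
  have hχi : InjOn χ {v | ρ < ‖v‖} := by
    intro v hv w hw hvw
    have h1 := hg.inj v⁻¹ (hmem v hv) w⁻¹ (hmem w hw) (inv_ne_zero (hne v hv))
      (inv_ne_zero (hne w hw)) (by
        rw [inv_inv, inv_inv]
        rw [hχ] at hvw
        exact hvw)
    exact inv_injective h1
  have hχP : ∀ v : ℂ, ρ < ‖v‖ → P 2 (m + 1) (χ v) = v ^ (2 ^ m) := by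
    intro v hv
    have h1 := hg.eq v⁻¹ (hmem v hv) (inv_ne_zero (hne v hv))
    rw [inv_inv] at h1
    rw [hχ]
    exact h1
  -- the point
  obtain ⟨v0, hv0ρ, hv0z⟩ : ∃ v0 : ℂ, ρ < ‖v0‖ ∧ χ v0 = z := by
    obtain ⟨x, hx, hx0, hxz⟩ := hg.surj z (by
      change 2 < ‖P 2 (m + 1) z‖
      rw [hz]
      norm_num)
    refine ⟨x⁻¹, ?_, ?_⟩
    · rw [norm_inv, hρ]
      rw [mem_ball_zero_iff] at hx
      exact (inv_lt_inv₀ hrad (norm_pos_iff.2 hx0)).2 hx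
    · rw [hχ]
      simp only [inv_inv]
      exact hxz
  obtain ⟨r, hr⟩ : ∃ r, r = ‖v0‖ := ⟨_, rfl⟩
  have hrρ : ρ < r := by rw [hr]; exact hv0ρ
  have hpv : v0 ^ (2 ^ m) = P 2 (m + 1) z := by rw [← hv0z, hχP v0 hv0ρ]
  have hrN : r ^ (2 ^ m) = 3 := by rw [hr, ← norm_pow, hpv, hz]
  have hr3 : r ≤ 3 := by
    have h1 : r ≤ r ^ (2 ^ m) := le_self_pow₀ (by linarith) (by positivity)
    linarith
  have hp : (0 : ℝ) < (1 / 2) ^ m := by positivity
  have hp2 : (2 : ℝ) ^ m * (1 / 2) ^ m = 1 := by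
    rw [← mul_pow]
    norm_num
  have hgap : 2 / 5 * (1 / 2) ^ m ≤ r - ρ := by
    by_contra hcon
    push Not at hcon
    have h1 := pow_le_exp' (y := r - ρ) (by linarith) (N := m) (a := 2 / 5) hcon.le
    have h2 : r ≤ ρ * (1 + (r - ρ)) := by nlinarith
    have h3 : r ^ (2 ^ m) ≤ (ρ * (1 + (r - ρ))) ^ (2 ^ m) := pow_le_pow_left₀ (by linarith) h2 _
    rw [mul_pow, hρN, hrN] at h3
    have h4 := exp_lt
    linarith
  -- the other point
  obtain ⟨α, hα⟩ : ∃ α, α = arg (P 2 (m + 1) z) := ⟨_, rfl⟩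
  have hPz : P 2 (m + 1) z = 3 * Complex.exp (α * I) := by
    have := Complex.norm_mul_exp_arg_mul_I (P 2 (m + 1) z)
    rw [hz, ← hα] at this
    rw [← this]
    norm_num
  obtain ⟨σ, hσ1, hσα⟩ : ∃ σ : ℝ, |σ| = 1 ∧ σ * |α| = -α := by
    rcases le_total 0 α with h | h
    · exact ⟨-1, by norm_num, by rw [abs_of_nonneg h]; ring⟩
    · exact ⟨1, by norm_num, by rw [abs_of_nonpos h]; ring⟩
  obtain ⟨L, hL⟩ : ∃ L, L = |α| * (1 / 2) ^ m := ⟨_, rfl⟩
  have hL0 : 0 ≤ L := by rw [hL]; positivity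
  have hL4 : L ≤ 4 * (1 / 2) ^ m := by
    rw [hL]
    have h1 : |α| ≤ 4 := by
      rw [hα]
      exact (Complex.abs_arg_le_pi _).trans Real.pi_le_four
    exact mul_le_mul_of_nonneg_right h1 hp.le
  obtain ⟨v1, hv1⟩ : ∃ v1 : ℂ, v1 = v0 * Complex.exp ((σ * L : ℝ) * I) := ⟨_, rfl⟩
  have hv1n : ‖v1‖ = r := by
    rw [hv1, norm_mul, Complex.norm_exp_ofReal_mul_I, mul_one, hr]
  have hv1ρ : ρ < ‖v1‖ := by rw [hv1n]; exact hrρ
  have hv1p : v1 ^ (2 ^ m) = 3 := by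
    rw [hv1, mul_pow, hpv, hPz, ← Complex.exp_nat_mul, mul_assoc, ← Complex.exp_add]
    have h1 : (α : ℂ) * I + ((2 ^ m : ℕ) : ℂ) * (((σ * L : ℝ) : ℂ) * I) = 0 := by
      have h2 : α + (2 : ℝ) ^ m * (σ * L) = 0 := by
        rw [hL]
        have : (2 : ℝ) ^ m * (σ * (|α| * (1 / 2) ^ m)) = σ * |α| * ((2 : ℝ) ^ m * (1 / 2) ^ m) := by
          ring
        rw [this, hp2, hσα]
        ring
      have h3 : ((α + (2 : ℝ) ^ m * (σ * L) : ℝ) : ℂ) = 0 := by rw [h2]; simp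
      push_cast at h3 ⊢
      linear_combination I * h3
    rw [h1, Complex.exp_zero, mul_one]
  have hv0e : v0 = v1 * Complex.exp (((-σ) * L : ℝ) * I) := by
    rw [hv1, mul_assoc, ← Complex.exp_add]
    have : ((σ * L : ℝ) : ℂ) * I + (((-σ) * L : ℝ) : ℂ) * I = 0 := by push_cast; ring
    rw [this, Complex.exp_zero, mul_one]
  -- the exponent
  have hexp : ∀ L' : ℝ, 0 ≤ L' → L' ≤ L → Real.exp (4 * r / (r - ρ) * L') ≤ Real.exp 120 := by
    intro L' h0 h1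
    rw [Real.exp_le_exp]
    have h2 : 0 < r - ρ := by linarith
    rw [div_mul_eq_mul_div, div_le_iff₀ h2]
    have h3 : r * L' ≤ 3 * (4 * (1 / 2) ^ m) := mul_le_mul hr3 (h1.trans hL4) h0 (by norm_num)
    linarith
  have hD01 : ‖deriv χ v1‖ ≤ ‖deriv χ v0‖ * Real.exp 120 := by
    have h1 := arc_dist hχd hχi hrρ hr.symm hσ1 hL0
    rw [← hv1] at h1
    exact h1.trans (mul_le_mul_of_nonneg_left (hexp L hL0 le_rfl) (norm_nonneg _))
  have hD10 : ‖deriv χ v0‖ ≤ ‖deriv χ v1‖ * Real.exp 120 := by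
    have h1 := arc_dist hχd hχi hrρ hv1n (σ := -σ) (by rw [abs_neg]; exact hσ1) hL0
    rw [← hv0e] at h1
    exact h1.trans (mul_le_mul_of_nonneg_left (hexp L hL0 le_rfl) (norm_nonneg _))
  -- derivatives
  have hder : ∀ v : ℂ, ρ < ‖v‖ → ‖v‖ = r →
      ‖deriv (P 2 (m + 1)) (χ v)‖ * ‖deriv χ v‖ * r = 3 * 2 ^ m := by
    intro v hv hvr
    have h1 : HasDerivAt (P 2 (m + 1)) (deriv (P 2 (m + 1)) (χ v)) (χ v) :=
      (differentiable_P 2 (m + 1)).differentiableAt.hasDerivAt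
    have h2 : HasDerivAt χ (deriv χ v) v := (hχd.differentiableAt (hopen.mem_nhds hv)).hasDerivAt
    have h3 := (h1.comp v h2).deriv
    have h4 : (P 2 (m + 1) ∘ χ) =ᶠ[𝓝 v] fun v => v ^ (2 ^ m) := by
      filter_upwards [hopen.mem_nhds hv] with w hw
      exact hχP w hw
    rw [h4.deriv_eq, (hasDerivAt_pow (2 ^ m) v).deriv] at h3
    have h5 := congrArg norm h3
    rw [norm_mul, norm_mul, norm_pow, hvr, Complex.norm_natCast] at h5
    rw [← h5]
    have h6 : r ^ (2 ^ m - 1) * r = 3 := by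
      rw [← pow_succ, Nat.sub_add_cancel (Nat.one_le_two_pow), hrN]
    push_cast
    linear_combination (2 : ℝ) ^ m * h6
  have hd0 := hder v0 hv0ρ hr.symm
  have hd1 := hder v1 hv1ρ hv1n
  rw [hv0z] at hd0
  have hr0 : 0 < r := by linarith
  refine ⟨χ v1, by rw [hχP v1 hv1ρ, hv1p], ?_, ?_⟩
  · have hc1 : 0 < ‖deriv χ v1‖ := by
      rcases (norm_nonneg (deriv χ v1)).eq_or_lt with h | h
      · rw [← h, mul_zero, zero_mul] at hd1
        have : (0 : ℝ) < 3 * 2 ^ m := by positivity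
        linarith
      · exact h
    have h1 : ‖deriv (P 2 (m + 1)) (χ v1)‖ * ‖deriv χ v1‖ =
        ‖deriv (P 2 (m + 1)) z‖ * ‖deriv χ v0‖ := by
      have : ‖deriv (P 2 (m + 1)) (χ v1)‖ * ‖deriv χ v1‖ * r =
        ‖deriv (P 2 (m + 1)) z‖ * ‖deriv χ v0‖ * r := by rw [hd0, hd1]
      exact mul_right_cancel₀ hr0.ne' this
    have h2 : ‖deriv (P 2 (m + 1)) (χ v1)‖ * ‖deriv χ v1‖ ≤
        Real.exp 120 * ‖deriv (P 2 (m + 1)) z‖ * ‖deriv χ v1‖ := by
      rw [h1]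
      calc ‖deriv (P 2 (m + 1)) z‖ * ‖deriv χ v0‖
          ≤ ‖deriv (P 2 (m + 1)) z‖ * (‖deriv χ v1‖ * Real.exp 120) :=
            mul_le_mul_of_nonneg_left hD10 (norm_nonneg _)
        _ = _ := by ring
    exact le_of_mul_le_mul_right h2 hc1
  · -- distance
    have hpath : ∀ θ : ℝ, HasDerivAt (fun θ : ℝ => v0 * Complex.exp ((σ * θ : ℝ) * I))
        (v0 * (Complex.exp ((σ * θ : ℝ) * I) * (σ * I))) θ := by
      intro θ
      have h1 : HasDerivAt (fun θ : ℝ => ((σ * θ : ℝ) : ℂ) * I) (σ * I) θ := by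
        have h2 : HasDerivAt (fun θ : ℝ => ((σ * θ : ℝ) : ℂ)) ((σ : ℝ) : ℂ) θ := by
          have h3 := ((hasDerivAt_id θ).const_mul σ).ofReal_comp
          simpa using h3
        exact h2.mul_const I
      exact h1.cexp.const_mul v0
    have hn : ∀ θ : ℝ, ‖v0 * Complex.exp ((σ * θ : ℝ) * I)‖ = r := by
      intro θ
      rw [norm_mul, Complex.norm_exp_ofReal_mul_I, mul_one, hr]
    have hf : ∀ θ : ℝ, HasDerivAt (fun θ : ℝ => χ (v0 * Complex.exp ((σ * θ : ℝ) * I)))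
        (deriv χ (v0 * Complex.exp ((σ * θ : ℝ) * I)) *
          (v0 * (Complex.exp ((σ * θ : ℝ) * I) * (σ * I)))) θ := by
      intro θ
      have h1 : HasDerivAt χ (deriv χ (v0 * Complex.exp ((σ * θ : ℝ) * I)))
          (v0 * Complex.exp ((σ * θ : ℝ) * I)) :=
        (hχd.differentiableAt (hopen.mem_nhds (by rw [mem_ofPred_eq, hn]; exact hrρ))).hasDerivAt
      exact HasDerivAt.comp (h := fun θ : ℝ => v0 * Complex.exp ((σ * θ : ℝ) * I)) θ h1 (hpath θ)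
    have hb : ∀ θ ∈ Ico 0 L, ‖deriv χ (v0 * Complex.exp ((σ * θ : ℝ) * I)) *
          (v0 * (Complex.exp ((σ * θ : ℝ) * I) * (σ * I)))‖ ≤
        ‖deriv χ v0‖ * Real.exp 120 * 3 := by
      intro θ hθ
      have h1 : ‖v0 * (Complex.exp ((σ * θ : ℝ) * I) * (σ * I))‖ = r := by
        rw [norm_mul, norm_mul, norm_mul, Complex.norm_exp_ofReal_mul_I, Complex.norm_real,
          Real.norm_eq_abs, hσ1, Complex.norm_I, hr]
        ring
      rw [norm_mul, h1]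
      have h2 := arc_dist hχd hχi hrρ hr.symm hσ1 hθ.1
      have h3 := h2.trans (mul_le_mul_of_nonneg_left (hexp θ hθ.1 hθ.2.le) (norm_nonneg _))
      exact mul_le_mul h3 hr3 hr0.le (by positivity)
    have h1 := norm_image_sub_le_of_norm_deriv_le_segment' (a := 0) (b := L)
      (f := fun θ : ℝ => χ (v0 * Complex.exp ((σ * θ : ℝ) * I)))
      (fun θ _ => (hf θ).hasDerivWithinAt) hb L ⟨hL0, le_rfl⟩
    have h0 : v0 * Complex.exp ((σ * (0 : ℝ) : ℝ) * I) = v0 := by simp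
    simp only [h0] at h1
    rw [← hv1, hv0z, sub_zero] at h1
    obtain ⟨w, hw, hwd⟩ := compact_M.exists_infDist_eq_dist nonempty_M z
    have hsub : ball v0 (r - ρ) ⊆ {v | ρ < ‖v‖} := by
      intro v hv
      rw [mem_ball, dist_eq_norm] at hv
      have h1 := norm_le_norm_add_norm_sub' v0 v
      rw [norm_sub_rev, ← hr] at h1
      rw [mem_ofPred_eq]
      linarith
    have h2 := Pool.Agent.H637R4.PO.t_QT Pool.Agent.H637R4.PO.t_KB χ v0 w (r - ρ) (by linarith)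
      (hχd.mono hsub) (hχi.mono hsub) (by
        rintro ⟨v, hv, rfl⟩
        have h3 := (Pool.Agent.H712R2.mem_multibrot_iff le_rfl _).1 hw (m + 1)
        rw [hχP v (hsub hv), norm_pow] at h3
        have h4 : ρ ^ (2 ^ m) < ‖v‖ ^ (2 ^ m) :=
          pow_lt_pow_left₀ (hsub hv) (by linarith) (by positivity)
        rw [hρN] at h4
        linarith)
    rw [hv0z, ← dist_eq_norm, dist_comm, ← hwd] at h2
    have h3 : 2 / 5 * (1 / 2) ^ m * ‖deriv χ v0‖ ≤ 4 * infDist z (multibrotSet 2) :=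
      (mul_le_mul_of_nonneg_right hgap (norm_nonneg _)).trans h2
    rw [dist_comm, dist_eq_norm]
    have hE := Real.exp_pos 120
    calc ‖χ v1 - z‖ ≤ ‖deriv χ v0‖ * Real.exp 120 * 3 * L := h1
      _ ≤ ‖deriv χ v0‖ * Real.exp 120 * 3 * (4 * (1 / 2) ^ m) :=
          mul_le_mul_of_nonneg_left hL4 (by positivity)
      _ = 30 * Real.exp 120 * (2 / 5 * (1 / 2) ^ m * ‖deriv χ v0‖) := by ring
      _ ≤ 30 * Real.exp 120 * (4 * infDist z (multibrotSet 2)) :=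
          mul_le_mul_of_nonneg_left h3 (by positivity)
      _ = 120 * Real.exp 120 * infDist z (multibrotSet 2) := by ring

end Pool.Agent.T6.H93.MLC
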