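import Mathlib
import Pool.Agent.R240.Loc
import Pool.Agent.T6.H93.MLC.Base

set_option autoImplicit false

/-! # Uniform convergence of the rays gives local connectivity -/

namespace Pool.Agent.T6.H93.MLC

open Set Metric Filter Topology Complex Bornology
open Pool.Agent.R240.Loc (CIK)

variable {K : Set ℂ} {ψ : ℂ → ℂ}

theorem seg_exit (hK : IsClosed K) {p q : ℂ} (hp : p ∈ K) (hn : ¬ segment ℝ p q ⊆ K) :
    ∃ p' ∈ segment ℝ p q, p' ∈ frontier K ∧ segment ℝ p p' ⊆ K := by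
  obtain ⟨γ, hγ⟩ : ∃ γ : ℝ → ℂ, γ = fun t : ℝ => p + t • (q - p) := ⟨_, rfl⟩
  have hγc : Continuous γ := by rw [hγ]; fun_prop
  have hseg : ∀ x ∈ segment ℝ p q, ∃ t ∈ Icc (0 : ℝ) 1, γ t = x := by
    intro x hx
    rw [segment_eq_image'] at hx
    obtain ⟨t, ht, rfl⟩ := hx
    exact ⟨t, ht, by rw [hγ]⟩
  have hseg' : ∀ t ∈ Icc (0 : ℝ) 1, γ t ∈ segment ℝ p q := by
    intro t ht
    rw [segment_eq_image']
    exact ⟨t, ht, by rw [hγ]⟩
  obtain ⟨S, hS⟩ : ∃ S : Set ℝ, S = {t | t ∈ Icc (0 : ℝ) 1 ∧ γ t ∉ K} := ⟨_, rfl⟩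
  have hSne : S.Nonempty := by
    rw [not_subset] at hn
    obtain ⟨x, hx, hxK⟩ := hn
    obtain ⟨t, ht, rfl⟩ := hseg x hx
    exact ⟨t, by rw [hS]; exact ⟨ht, hxK⟩⟩
  have hSb : BddBelow S := ⟨0, fun t ht => by rw [hS] at ht; exact ht.1.1⟩
  obtain ⟨a, ha⟩ : ∃ a, a = sInf S := ⟨_, rfl⟩
  have ha0 : 0 ≤ a := by
    rw [ha]
    exact le_csInf hSne fun t ht => by rw [hS] at ht; exact ht.1.1
  have ha1 : a ≤ 1 := by
    obtain ⟨t, ht⟩ := hSne
    have h1 : a ≤ t := by rw [ha]; exact csInf_le hSb ht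
    rw [hS] at ht
    exact h1.trans ht.1.2
  have hlt : ∀ t, 0 ≤ t → t < a → γ t ∈ K := by
    intro t h0 h1
    by_contra h2
    have : t ∈ S := by rw [hS]; exact ⟨⟨h0, by linarith⟩, h2⟩
    have := csInf_le hSb this
    rw [← ha] at this
    linarith
  have hγ0 : γ 0 = p := by rw [hγ]; simp
  have haK : γ a ∈ K := by
    rcases ha0.eq_or_lt with h0 | h0
    · rw [← h0, hγ0]; exact hp
    · have h1 : a ∈ closure (Ico 0 a) := by
        rw [closure_Ico h0.ne]
        exact ⟨h0.le, le_rfl⟩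
      have h2 : γ a ∈ closure (γ '' Ico 0 a) := image_closure_subset_closure_image hγc ⟨a, h1, rfl⟩
      have h3 : γ '' Ico 0 a ⊆ K := by
        rintro _ ⟨t, ht, rfl⟩
        exact hlt t ht.1 ht.2
      exact (closure_minimal h3 hK) h2
  have haf : γ a ∈ closure Kᶜ := by
    have h1 : a ∈ closure S := by rw [ha]; exact csInf_mem_closure hSne hSb
    have h2 : γ a ∈ closure (γ '' S) := image_closure_subset_closure_image hγc ⟨a, h1, rfl⟩
    refine closure_mono ?_ h2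
    rintro _ ⟨t, ht, rfl⟩
    rw [hS] at ht
    exact ht.2
  refine ⟨γ a, hseg' a ⟨ha0, ha1⟩, ?_, ?_⟩
  · rw [frontier_eq_closure_inter_closure]
    exact ⟨subset_closure haK, haf⟩
  · intro x hx
    rw [segment_eq_image'] at hx
    obtain ⟨t, ht, rfl⟩ := hx
    have h1 : p + t • (γ a - p) = γ (t * a) := by
      rw [hγ]
      simp only [add_sub_cancel_left]
      rw [smul_smul]
    simp only
    rw [h1]
    have h2 : t * a ≤ a := by nlinarith [ht.2]
    rcases h2.eq_or_lt with h3 | h3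
    · rw [h3]; exact haK
    · exact hlt _ (mul_nonneg ht.1 ha0) h3

theorem unif_lc {G : ℝ → ℂ} (hG : Continuous G) {ε : ℝ} (hε : 0 < ε) :
    ∃ δ : ℝ, 0 < δ ∧ ∀ x ∈ G '' Icc 0 (2 * Real.pi), ∀ y ∈ G '' Icc 0 (2 * Real.pi),
      dist x y < δ → ∃ C ⊆ G '' Icc 0 (2 * Real.pi), IsPreconnected C ∧ x ∈ C ∧ y ∈ C ∧
        C ⊆ ball x ε := by
  by_contra hcon
  push Not at hcon
  have h1 : ∀ n : ℕ, ∃ a ∈ Icc 0 (2 * Real.pi), ∃ b ∈ Icc 0 (2 * Real.pi),
      dist (G a) (G b) < 1 / ((n : ℝ) + 1) ∧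
      ∀ C ⊆ G '' Icc 0 (2 * Real.pi), IsPreconnected C → G a ∈ C → G b ∈ C → ¬ C ⊆ ball (G a) ε := by
    intro n
    obtain ⟨_, ⟨a, ha, rfl⟩, _, ⟨b, hb, rfl⟩, h2, h3⟩ := hcon (1 / ((n : ℝ) + 1)) (by positivity)
    exact ⟨a, ha, b, hb, h2, h3⟩
  choose a ha b hb hab hC using h1
  obtain ⟨a0, ha0, φ, hφ, hφa⟩ := isCompact_Icc.tendsto_subseq ha
  obtain ⟨b0, hb0, χ, hχ, hχb⟩ := isCompact_Icc.tendsto_subseq (fun n => hb (φ n))
  have hA : Tendsto (fun n => a (φ (χ n))) atTop (𝓝 a0) := hφa.comp hχ.tendsto_atTop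
  have hB : Tendsto (fun n => b (φ (χ n))) atTop (𝓝 b0) := hχb
  have hGA : Tendsto (fun n => G (a (φ (χ n)))) atTop (𝓝 (G a0)) := (hG.tendsto a0).comp hA
  have hGB : Tendsto (fun n => G (b (φ (χ n)))) atTop (𝓝 (G b0)) := (hG.tendsto b0).comp hB
  have hGab : G a0 = G b0 := by
    have h2 : Tendsto (fun n => dist (G (a (φ (χ n)))) (G (b (φ (χ n))))) atTop
        (𝓝 (dist (G a0) (G b0))) := hGA.dist hGB
    have h3 : Tendsto (fun n => dist (G (a (φ (χ n)))) (G (b (φ (χ n))))) atTop (𝓝 0) := by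
      refine squeeze_zero (fun _ => dist_nonneg) (fun n => (hab _).le) ?_
      exact (tendsto_one_div_add_atTop_nhds_zero_nat (𝕜 := ℝ)).comp
        (hφ.tendsto_atTop.comp hχ.tendsto_atTop)
    exact dist_eq_zero.1 (tendsto_nhds_unique h2 h3)
  obtain ⟨δ1, hδ1, hd1⟩ := Metric.continuous_iff.1 hG a0 (ε / 2) (by linarith)
  obtain ⟨δ2, hδ2, hd2⟩ := Metric.continuous_iff.1 hG b0 (ε / 2) (by linarith)
  have hA' := hA.eventually (ball_mem_nhds a0 hδ1)
  have hB' := hB.eventually (ball_mem_nhds b0 hδ2)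
  obtain ⟨n, hn1, hn2⟩ := (hA'.and hB').exists
  obtain ⟨m, hm⟩ : ∃ m, m = φ (χ n) := ⟨_, rfl⟩
  rw [← hm] at hn1 hn2
  refine hC m (G '' uIcc (a m) a0 ∪ G '' uIcc b0 (b m)) ?_ ?_ ?_ ?_ ?_
  · refine union_subset (image_mono ?_) (image_mono ?_)
    · exact uIcc_subset_Icc (ha m) ha0
    · exact uIcc_subset_Icc hb0 (hb m)
  · refine IsPreconnected.union (G a0) ⟨a0, right_mem_uIcc, rfl⟩ ⟨b0, left_mem_uIcc, hGab.symm⟩ ?_ ?_
    · exact isPreconnected_uIcc.image _ hG.continuousOn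
    · exact isPreconnected_uIcc.image _ hG.continuousOn
  · exact Or.inl ⟨a m, left_mem_uIcc, rfl⟩
  · exact Or.inr ⟨b m, right_mem_uIcc, rfl⟩
  · have h3 : dist (G (a m)) (G a0) < ε / 2 := hd1 _ (mem_ball.1 hn1)
    rintro _ (⟨t, ht, rfl⟩ | ⟨t, ht, rfl⟩)
    · have h4 : dist t a0 < δ1 := by
        refine lt_of_le_of_lt ?_ (mem_ball.1 hn1)
        rw [Real.dist_eq, Real.dist_eq]
        rw [uIcc_comm] at ht
        exact abs_sub_left_of_mem_uIcc ht
      have h5 := hd1 t h4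
      rw [mem_ball]
      calc dist (G t) (G (a m)) ≤ dist (G t) (G a0) + dist (G a0) (G (a m)) := dist_triangle _ _ _
        _ < ε := by rw [dist_comm (G a0)]; linarith
    · have h4 : dist t b0 < δ2 := by
        refine lt_of_le_of_lt ?_ (mem_ball.1 hn2)
        rw [Real.dist_eq, Real.dist_eq]
        exact abs_sub_left_of_mem_uIcc ht
      have h5 := hd2 t h4
      rw [mem_ball]
      calc dist (G t) (G (a m)) ≤ dist (G t) (G b0) + dist (G a0) (G (a m)) := by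
            rw [← hGab]; exact dist_triangle _ _ _
        _ < ε := by rw [dist_comm (G a0)]; linarith

theorem cik_of_curve (hK : IsClosed K) {G : ℝ → ℂ} (hG : Continuous G)
    (h1 : G '' Icc 0 (2 * Real.pi) ⊆ K) (h2 : frontier K ⊆ G '' Icc 0 (2 * Real.pi)) {p : ℂ}
    (hp : p ∈ K) : CIK K p := by
  intro ε hε
  obtain ⟨δ, hδ, hd⟩ := unif_lc hG (ε := ε / 2) (by linarith)
  refine ⟨min δ (ε / 2), by positivity, fun q hq hqp => ?_⟩
  have hq1 : dist q p < δ := hqp.trans_le (min_le_left _ _)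
  have hq2 : dist q p < ε / 2 := hqp.trans_le (min_le_right _ _)
  have hsb : ∀ x ∈ segment ℝ p q, dist x p ≤ dist q p := by
    intro x hx
    rw [segment_eq_image'] at hx
    obtain ⟨t, ht, rfl⟩ := hx
    simp only [dist_eq_norm]
    rw [add_sub_cancel_left, norm_smul, Real.norm_eq_abs, abs_of_nonneg ht.1]
    exact mul_le_of_le_one_left (norm_nonneg _) ht.2
  by_cases hs : segment ℝ p q ⊆ K
  · refine ⟨segment ℝ p q, fun x hx => ⟨hs hx, ?_⟩, (convex_segment p q).isPreconnected,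
      left_mem_segment _ _ _, right_mem_segment _ _ _⟩
    rw [mem_ball]
    linarith [hsb x hx]
  · obtain ⟨p', hp's, hp'f, hp'K⟩ := seg_exit hK hp hs
    rw [segment_symm] at hs
    obtain ⟨q', hq's, hq'f, hq'K⟩ := seg_exit hK hq hs
    rw [segment_symm] at hq's
    have hpq : dist p' q' < δ := by
      refine lt_of_le_of_lt ?_ hq1
      rw [segment_eq_image'] at hp's hq's
      obtain ⟨t, ht, rfl⟩ := hp's
      obtain ⟨s, hs, rfl⟩ := hq's
      simp only [dist_eq_norm]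
      have : p + t • (q - p) - (p + s • (q - p)) = (t - s) • (q - p) := by
        rw [sub_smul]; ring
      rw [this, norm_smul, Real.norm_eq_abs]
      refine mul_le_of_le_one_left (norm_nonneg _) ?_
      rw [abs_le]
      constructor <;> linarith [ht.1, ht.2, hs.1, hs.2]
    obtain ⟨C, hCL, hCp, hpC, hqC, hCb⟩ := hd p' (h2 hp'f) q' (h2 hq'f) hpq
    refine ⟨segment ℝ p p' ∪ C ∪ segment ℝ q' q, ?_, ?_, ?_, ?_⟩
    · have hsp : ∀ x ∈ segment ℝ p p', dist x p < ε := by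
        intro x hx
        have : x ∈ segment ℝ p q :=
          (convex_segment p q).segment_subset (left_mem_segment _ _ _) hp's hx
        linarith [hsb x this]
      have hsq : ∀ x ∈ segment ℝ q' q, dist x p < ε := by
        intro x hx
        have : x ∈ segment ℝ p q :=
          (convex_segment p q).segment_subset hq's (right_mem_segment _ _ _) hx
        linarith [hsb x this]
      rintro x ((hx | hx) | hx)
      · exact ⟨hp'K hx, hsp x hx⟩
      · refine ⟨h1 (hCL hx), ?_⟩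
        have h3 := mem_ball.1 (hCb hx)
        have h4 := hsb p' hp's
        rw [mem_ball]
        calc dist x p ≤ dist x p' + dist p' p := dist_triangle _ _ _
          _ < ε := by linarith
      · rw [segment_symm] at hx
        refine ⟨hq'K hx, ?_⟩
        rw [segment_symm] at hx
        exact hsq x hx
    · refine IsPreconnected.union q' (Or.inr hqC) (left_mem_segment _ _ _) ?_
        (convex_segment _ _).isPreconnected
      exact IsPreconnected.union p' (right_mem_segment _ _ _) hpC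
        (convex_segment _ _).isPreconnected hCp
    · exact Or.inl (Or.inl (left_mem_segment _ _ _))
    · exact Or.inr (right_mem_segment _ _ _)

/-- uniform convergence of the rays -/
def UT (ψ : ℂ → ℂ) : Prop :=
  ∀ ε : ℝ, 0 < ε → ∃ κ : ℝ, 0 < κ ∧ ∀ ζ : ℂ, ‖ζ‖ = 1 → ∀ r' r : ℝ, 1 < r' → r' < r → r < 1 + κ →
    dist (ψ (r * ζ)) (ψ (r' * ζ)) ≤ ε

theorem cik_of_UT (h : Ext K ψ) (hK : IsCompact K) (hKn : K.Nonempty) {B : ℝ}
    (hB : ∀ w, 1 < ‖w‖ → ‖w‖ < 2 → ‖ψ w‖ ≤ B) (hU : UT ψ) {p : ℂ} (hp : p ∈ K) : CIK K p := by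
  obtain ⟨f, hf⟩ : ∃ f : ℕ → ℂ → ℂ, f = fun (n : ℕ) (ζ : ℂ) => ψ (((1 + 1 / ((n : ℝ) + 1) : ℝ) : ℂ) * ζ) :=
    ⟨_, rfl⟩
  have hr : ∀ n : ℕ, 1 < 1 + 1 / ((n : ℝ) + 1) := fun n => by
    have : 0 < 1 / ((n : ℝ) + 1) := by positivity
    linarith
  have hlim1 : Tendsto (fun n : ℕ => 1 + 1 / ((n : ℝ) + 1)) atTop (𝓝 (1 + 0)) :=
    tendsto_const_nhds.add tendsto_one_div_add_atTop_nhds_zero_nat
  -- the boundary map
  have hcs : ∀ ζ : ℂ, ‖ζ‖ = 1 → ∃ z, Tendsto (fun n => f n ζ) atTop (𝓝 z) := by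
    intro ζ hζ
    apply cauchySeq_tendsto_of_complete
    rw [Metric.cauchySeq_iff']
    intro ε hε
    obtain ⟨κ, hκ, hk⟩ := hU (ε / 2) (by linarith)
    obtain ⟨N, hN⟩ := (hlim1.eventually_lt_const (show (1 : ℝ) + 0 < 1 + κ by linarith)).exists
    refine ⟨N, fun n hn => ?_⟩
    rw [hf]
    simp only
    rcases hn.eq_or_lt with h1 | h1
    · rw [h1, dist_self]; exact hε
    · rw [dist_comm]
      refine lt_of_le_of_lt (hk ζ hζ _ _ (hr n) ?_ hN) (by linarith)
      have h2 : (N : ℝ) < n := by exact_mod_cast h1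
      have : 1 / ((n : ℝ) + 1) < 1 / ((N : ℝ) + 1) :=
        one_div_lt_one_div_of_lt (by positivity) (by linarith)
      linarith
  choose! F hF using hcs
  have hunif : ∀ ε : ℝ, 0 < ε → ∃ κ : ℝ, 0 < κ ∧ ∀ ζ : ℂ, ‖ζ‖ = 1 → ∀ r : ℝ, 1 < r → r < 1 + κ →
      dist (ψ (r * ζ)) (F ζ) ≤ ε := by
    intro ε hε
    obtain ⟨κ, hκ, hk⟩ := hU ε hε
    refine ⟨κ, hκ, fun ζ hζ r hr1 hr2 => ?_⟩
    have h1 : Tendsto (fun n => dist (ψ (r * ζ)) (f n ζ)) atTop (𝓝 (dist (ψ (r * ζ)) (F ζ))) :=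
      tendsto_const_nhds.dist (hF ζ hζ)
    refine le_of_tendsto h1 ?_
    filter_upwards [hlim1.eventually_lt_const (show (1 : ℝ) + 0 < r by linarith)] with n hn
    rw [hf]
    exact hk ζ hζ _ _ (hr n) hn hr2
  have hFc : ContinuousOn F (sphere 0 1) := by
    have h1 : TendstoUniformlyOn f F atTop (sphere 0 1) := by
      rw [Metric.tendstoUniformlyOn_iff]
      intro ε hε
      obtain ⟨κ, hκ, hk⟩ := hunif (ε / 2) (by linarith)
      filter_upwards [hlim1.eventually_lt_const (show (1 : ℝ) + 0 < 1 + κ by linarith)] with n hn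
      intro ζ hζ
      rw [mem_sphere_zero_iff_norm] at hζ
      rw [dist_comm, hf]
      exact lt_of_le_of_lt (hk ζ hζ _ (hr n) hn) (by linarith)
    refine h1.continuousOn (Frequently.of_forall fun n => ?_)
    rw [hf]
    simp only
    refine h.cont.comp (by fun_prop) ?_
    intro ζ hζ
    rw [mem_sphere_zero_iff_norm] at hζ
    rw [mem_ofPred_eq, norm_mul, hζ, mul_one, Complex.norm_real, Real.norm_eq_abs]
    exact (hr n).trans_le (le_abs_self _)
  have hFK : ∀ ζ ∈ sphere (0 : ℂ) 1, F ζ ∈ K := by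
    intro ζ hζ
    rw [mem_sphere_zero_iff_norm] at hζ
    rw [hK.isClosed.mem_iff_infDist_zero hKn]
    have h1 : Tendsto (fun n => infDist (f n ζ) K) atTop (𝓝 (infDist (F ζ) K)) :=
      ((continuous_infDist_pt K).tendsto _).comp (hF ζ hζ)
    have h2 : Tendsto (fun n => infDist (f n ζ) K) atTop (𝓝 0) := by
      rw [Metric.tendsto_nhds]
      intro ε hε
      obtain ⟨κ, hκ, hk⟩ := h.close hB hε
      filter_upwards [hlim1.eventually_lt_const (show (1 : ℝ) + 0 < 1 + κ by linarith)] with n hn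
      rw [Real.dist_eq, sub_zero, abs_of_nonneg infDist_nonneg, hf]
      simp only
      have h3 : ‖((1 + 1 / ((n : ℝ) + 1) : ℝ) : ℂ) * ζ‖ = 1 + 1 / ((n : ℝ) + 1) := by
        rw [norm_mul, hζ, mul_one, Complex.norm_real, Real.norm_eq_abs, abs_of_pos]
        linarith [hr n]
      exact hk _ (by rw [h3]; exact hr n) (by rw [h3]; exact hn)
    exact tendsto_nhds_unique h1 h2
  have hfr : frontier K ⊆ F '' sphere 0 1 := by
    intro x hx
    have hxK : x ∈ K := hK.isClosed.frontier_subset hx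
    have hcl : IsClosed (F '' sphere 0 1) := ((isCompact_sphere 0 1).image_of_continuousOn hFc).isClosed
    rw [← hcl.closure_eq, Metric.mem_closure_iff]
    intro ε hε
    obtain ⟨κ, hκ, hk⟩ := hunif (ε / 3) (by linarith)
    obtain ⟨δ, hδ, hd⟩ := h.far hxK hκ
    have hx2 : x ∈ closure Kᶜ := by
      rw [frontier_eq_closure_inter_closure] at hx
      exact hx.2
    obtain ⟨z, hz, hzx⟩ := Metric.mem_closure_iff.1 hx2 (min δ (ε / 3)) (by positivity)
    obtain ⟨w, hw, rfl⟩ := h.surj hz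
    have hw0 : w ≠ 0 := by
      rintro rfl
      rw [norm_zero] at hw
      linarith
    have hzx1 : dist (ψ w) x < δ := by rw [dist_comm]; exact hzx.trans_le (min_le_left _ _)
    have hzx2 : dist x (ψ w) < ε / 3 := hzx.trans_le (min_le_right _ _)
    have hζ : ‖w / ‖w‖‖ = 1 := by
      rw [norm_div, Complex.norm_real, norm_norm, div_self (norm_ne_zero_iff.2 hw0)]
    have h3 := hk (w / ‖w‖) hζ ‖w‖ hw (hd w hw hzx1)
    have h4 : (‖w‖ : ℂ) * (w / ‖w‖) = w := by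
      rw [mul_div_cancel₀]
      exact_mod_cast norm_ne_zero_iff.2 hw0
    rw [h4] at h3
    refine ⟨F (w / ‖w‖), ⟨_, mem_sphere_zero_iff_norm.2 hζ, rfl⟩, ?_⟩
    calc dist x (F (w / ‖w‖)) ≤ dist x (ψ w) + dist (ψ w) (F (w / ‖w‖)) := dist_triangle _ _ _
      _ < ε := by linarith
  -- the curve
  have hGc : Continuous (fun θ : ℝ => F (Complex.exp (θ * I))) := by
    refine hFc.comp_continuous (by fun_prop) ?_
    intro θ
    rw [mem_sphere_zero_iff_norm, Complex.norm_exp_ofReal_mul_I]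
  refine cik_of_curve hK.isClosed hGc ?_ ?_ hp
  · rintro _ ⟨θ, -, rfl⟩
    refine hFK _ ?_
    rw [mem_sphere_zero_iff_norm, Complex.norm_exp_ofReal_mul_I]
  · refine hfr.trans ?_
    rintro _ ⟨ζ, hζ, rfl⟩
    rw [mem_sphere_zero_iff_norm] at hζ
    have hπ := Real.pi_pos
    -- angle in [0, 2π]
    have h5 : Complex.exp (arg ζ * I) = ζ := by
      have := Complex.norm_mul_exp_arg_mul_I ζ
      rw [hζ, Complex.ofReal_one, one_mul] at this
      exact this
    rcases le_or_gt 0 (arg ζ) with h6 | h6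
    · exact ⟨arg ζ, ⟨h6, by linarith [Complex.arg_le_pi ζ]⟩, by simp only [h5]⟩
    · refine ⟨arg ζ + 2 * Real.pi, ⟨by linarith [Complex.neg_pi_lt_arg ζ], by linarith⟩, ?_⟩
      have h7 : Complex.exp (((arg ζ + 2 * Real.pi : ℝ) : ℂ) * I) = ζ := by
        rw [Complex.ofReal_add, add_mul, Complex.exp_add, h5]
        have : Complex.exp (((2 * Real.pi : ℝ) : ℂ) * I) = 1 := by
          rw [Complex.ofReal_mul, Complex.ofReal_ofNat]
          exact Complex.exp_two_pi_mul_I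
        rw [this, mul_one]
      simp only [h7]

end Pool.Agent.T6.H93.MLC
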