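import Mathlib
import Pool.Agent.R240.Loc
import Pool.Agent.T6.H93.MLC.Base
import Pool.Agent.T6.H93.MLC.UT

set_option autoImplicit false

/-! # A set is connected im kleinen at the points which trap the rays -/

namespace Pool.Agent.T6.H93.MLC

open Set Metric Filter Topology Complex Bornology
open Pool.Agent.R240.Loc (CIK)

variable {K : Set ℂ} {ψ : ℂ → ℂ}

theorem nested_conn {F : ℕ → Set ℂ} (hc : ∀ n, IsCompact (F n)) (hp : ∀ n, IsPreconnected (F n))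
    (ha : Antitone F) : IsPreconnected (⋂ n, F n) := by
  rw [isPreconnected_closed_iff]
  intro t t' ht ht' hsub h1 h2
  by_contra hcon
  rw [not_nonempty_iff_eq_empty] at hcon
  have hIc : IsClosed (⋂ n, F n) := isClosed_iInter fun n => (hc n).isClosed
  obtain ⟨U, V, hU, hV, hAU, hBV, hUV⟩ := normal_separation (hIc.inter ht) (hIc.inter ht') (by
    rw [Set.disjoint_iff_inter_eq_empty, ← hcon]
    ext x
    simp only [mem_inter_iff]
    tauto)
  obtain ⟨n, hn⟩ := exists_subset_nhds_of_isCompact' (V := F) (U := U ∪ V)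
    (directed_of_isDirected_le fun i j hij => ha hij) hc (fun n => (hc n).isClosed) (by
      intro x hx
      refine (hU.union hV).mem_nhds ?_
      rcases hsub hx with h3 | h3
      · exact Or.inl (hAU ⟨hx, h3⟩)
      · exact Or.inr (hBV ⟨hx, h3⟩))
  obtain ⟨x, hx⟩ := h1
  obtain ⟨y, hy⟩ := h2
  obtain ⟨z, hz, hzU, hzV⟩ := hp n U V hU hV hn ⟨x, mem_iInter.1 hx.1 n, hAU hx⟩
    ⟨y, mem_iInter.1 hy.1 n, hBV hy⟩
  exact hUV.le_bot ⟨hzU, hzV⟩

/-- the point `t e^{iθ}` -/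
noncomputable def pt (t θ : ℝ) : ℂ := t * Complex.exp (θ * I)

theorem norm_pt {t : ℝ} (ht : 1 < t) (θ : ℝ) : ‖pt t θ‖ = t := by
  rw [pt, norm_mul, Complex.norm_exp_ofReal_mul_I, mul_one, Complex.norm_real, Real.norm_eq_abs,
    abs_of_pos (by linarith)]

theorem exists_pt (w : ℂ) : ∃ θ ∈ Icc 0 (2 * Real.pi), w = pt ‖w‖ θ := by
  have hπ := Real.pi_pos
  have h5 : pt ‖w‖ (arg w) = w := by
    rw [pt]
    exact Complex.norm_mul_exp_arg_mul_I w
  rcases le_or_gt 0 (arg w) with h6 | h6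
  · exact ⟨arg w, ⟨h6, by linarith [Complex.arg_le_pi w]⟩, h5.symm⟩
  · refine ⟨arg w + 2 * Real.pi, ⟨by linarith [Complex.neg_pi_lt_arg w], by linarith⟩, ?_⟩
    rw [pt, Complex.ofReal_add, add_mul, Complex.exp_add]
    have : Complex.exp (((2 * Real.pi : ℝ) : ℂ) * I) = 1 := by
      rw [Complex.ofReal_mul, Complex.ofReal_ofNat]
      exact Complex.exp_two_pi_mul_I
    rw [this, mul_one]
    exact h5.symm

/-- `x` is in the impression of the angle `θ` -/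
def Imp (ψ : ℂ → ℂ) (θ : ℝ) (x : ℂ) : Prop :=
  ∀ ρ : ℝ, 0 < ρ → ∃ t θ' : ℝ, 1 < t ∧ t < 1 + ρ ∧ |θ' - θ| < ρ ∧ dist (ψ (pt t θ')) x < ρ

theorem exists_imp (h : Ext K ψ) {x : ℂ} (hK : IsClosed K) (hx : x ∈ frontier K) :
    ∃ θ ∈ Icc 0 (2 * Real.pi), Imp ψ θ x := by
  have hxK : x ∈ K := hK.frontier_subset hx
  have hx2 : x ∈ closure Kᶜ := by
    rw [frontier_eq_closure_inter_closure] at hx
    exact hx.2
  have h1 : ∀ n : ℕ, ∃ w : ℂ, 1 < ‖w‖ ∧ ‖w‖ < 1 + 1 / ((n : ℝ) + 1) ∧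
      dist (ψ w) x < 1 / ((n : ℝ) + 1) := by
    intro n
    have hn : 0 < 1 / ((n : ℝ) + 1) := by positivity
    obtain ⟨δ, hδ, hd⟩ := h.far hxK hn
    obtain ⟨z, hz, hzx⟩ := Metric.mem_closure_iff.1 hx2 (min δ (1 / ((n : ℝ) + 1))) (by positivity)
    obtain ⟨w, hw, rfl⟩ := h.surj hz
    rw [dist_comm] at hzx
    exact ⟨w, hw, hd w hw (hzx.trans_le (min_le_left _ _)), hzx.trans_le (min_le_right _ _)⟩
  choose w hw1 hw2 hw3 using h1
  have h2 : ∀ n, ∃ θ ∈ Icc 0 (2 * Real.pi), w n = pt ‖w n‖ θ := fun n => exists_pt (w n)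
  choose θ hθ hwθ using h2
  obtain ⟨θ0, hθ0, φ, hφ, hlim⟩ := isCompact_Icc.tendsto_subseq hθ
  refine ⟨θ0, hθ0, fun ρ hρ => ?_⟩
  have h3 : Tendsto (fun n => 1 / ((φ n : ℝ) + 1)) atTop (𝓝 0) :=
    tendsto_one_div_add_atTop_nhds_zero_nat.comp hφ.tendsto_atTop
  have h4 : ∀ᶠ n in atTop, |θ (φ n) - θ0| < ρ := hlim.eventually (ball_mem_nhds θ0 hρ)
  obtain ⟨n, hn1, hn2⟩ := ((h3.eventually_lt_const hρ).and h4).exists
  refine ⟨‖w (φ n)‖, θ (φ n), hw1 _, (hw2 _).trans (by linarith), hn2, ?_⟩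
  rw [← hwθ]
  exact (hw3 _).trans hn1

/-- the points of the rays with angles close to `[a, b]` -/
def Arc (ψ : ℂ → ℂ) (a b : ℝ) (ρ : ℝ) : Set ℂ :=
  (fun q : ℝ × ℝ => ψ (pt q.1 q.2)) '' (Ioo 1 (1 + ρ) ×ˢ Ioo (a - ρ) (b + ρ))

theorem arc_conn (h : Ext K ψ) (a b ρ : ℝ) : IsPreconnected (Arc ψ a b ρ) := by
  refine (isPreconnected_Ioo.prod isPreconnected_Ioo).image _ ?_
  refine h.cont.comp ?_ ?_
  · unfold pt
    fun_prop
  · rintro ⟨t, θ⟩ ⟨ht, -⟩
    simp only [mem_ofPred_eq]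
    rw [norm_pt ht.1]
    exact ht.1

theorem arc_mono {a b ρ ρ' : ℝ} (hρ : ρ ≤ ρ') : Arc ψ a b ρ ⊆ Arc ψ a b ρ' := by
  refine image_mono (prod_mono ?_ ?_)
  · exact Ioo_subset_Ioo le_rfl (by linarith)
  · exact Ioo_subset_Ioo (by linarith) (by linarith)

/-- the impression of an interval of angles -/
theorem imp_conn (h : Ext K ψ) (hK : IsClosed K) (hKn : K.Nonempty) {B : ℝ}
    (hB : ∀ w, 1 < ‖w‖ → ‖w‖ < 2 → ‖ψ w‖ ≤ B) {a b : ℝ} {x y : ℂ} {θ θ' : ℝ} (hθ : θ ∈ Icc a b)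
    (hθ' : θ' ∈ Icc a b) (hx : Imp ψ θ x) (hy : Imp ψ θ' y) {c : ℂ} {r ρ : ℝ} (hρ : 0 < ρ)
    (hA : Arc ψ a b ρ ⊆ ball c r) :
    ∃ C ⊆ K ∩ closedBall c r, IsPreconnected C ∧ x ∈ C ∧ y ∈ C := by
  obtain ⟨F, hF⟩ : ∃ F : ℕ → Set ℂ, F = fun n : ℕ => closure (Arc ψ a b (ρ / ((n : ℝ) + 1))) :=
    ⟨_, rfl⟩
  have hρn : ∀ n : ℕ, ρ / ((n : ℝ) + 1) ≤ ρ := fun n => by
    apply div_le_self hρ.le
    have := n.cast_nonneg (α := ℝ)
    linarith
  have hρ0 : ∀ n : ℕ, 0 < ρ / ((n : ℝ) + 1) := fun n => by positivity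
  have hρlim : Tendsto (fun n : ℕ => ρ / ((n : ℝ) + 1)) atTop (𝓝 0) := by
    have := (tendsto_one_div_add_atTop_nhds_zero_nat (𝕜 := ℝ)).const_mul ρ
    rw [mul_zero] at this
    refine this.congr fun n => ?_
    rw [mul_one_div]
  have hFr : ∀ n, F n ⊆ closedBall c r := by
    intro n
    rw [hF]
    exact closure_minimal (((arc_mono (hρn n)).trans hA).trans ball_subset_closedBall)
      isClosed_closedBall
  have hFc : ∀ n, IsCompact (F n) := fun n =>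
    (isCompact_closedBall c r).of_isClosed_subset (by rw [hF]; exact isClosed_closure) (hFr n)
  have hFp : ∀ n, IsPreconnected (F n) := fun n => by
    rw [hF]
    exact (arc_conn h _ _ _).closure
  have hFa : Antitone F := by
    intro m n hmn
    rw [hF]
    refine closure_mono (arc_mono ?_)
    have : (m : ℝ) ≤ n := by exact_mod_cast hmn
    gcongr
  have hmem : ∀ z φ, φ ∈ Icc a b → Imp ψ φ z → z ∈ ⋂ n, F n := by
    intro z φ hφ hz
    rw [mem_iInter]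
    intro n
    rw [hF]
    simp only
    rw [Metric.mem_closure_iff]
    intro ε hε
    obtain ⟨t, φ', ht1, ht2, hφ', hd⟩ := hz (min ε (ρ / ((n : ℝ) + 1))) (lt_min hε (hρ0 n))
    have hle := min_le_right ε (ρ / ((n : ℝ) + 1))
    rw [abs_lt] at hφ'
    refine ⟨ψ (pt t φ'), ⟨(t, φ'), ⟨⟨ht1, by linarith⟩, ⟨?_, ?_⟩⟩, rfl⟩, ?_⟩
    · simp only
      linarith [hφ.1]
    · simp only
      linarith [hφ.2]
    · rw [dist_comm]
      exact hd.trans_le (min_le_left _ _)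
  refine ⟨⋂ n, F n, ?_, nested_conn hFc hFp hFa, hmem x θ hθ hx, hmem y θ' hθ' hy⟩
  intro z hz
  rw [mem_iInter] at hz
  refine ⟨?_, hFr 0 (hz 0)⟩
  rw [hK.mem_iff_infDist_zero hKn]
  by_contra hne
  have hpos : 0 < infDist z K := lt_of_le_of_ne infDist_nonneg (Ne.symm hne)
  obtain ⟨κ, hκ, hk⟩ := h.close hB (δ := infDist z K / 2) (by linarith)
  obtain ⟨n, hn⟩ := (hρlim.eventually_lt_const hκ).exists
  have h2 : F n ⊆ {y | infDist y K ≤ infDist z K / 2} := by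
    rw [hF]
    refine closure_minimal ?_ (isClosed_le (continuous_infDist_pt K) continuous_const)
    rintro _ ⟨⟨t, φ⟩, ⟨ht, -⟩, rfl⟩
    simp only at ht ⊢
    have h3 := hk (pt t φ) (by rw [norm_pt ht.1]; exact ht.1) (by
      rw [norm_pt ht.1]
      linarith [ht.2])
    exact h3.le
  have h3 : infDist z K ≤ infDist z K / 2 := h2 (hz n)
  linarith

theorem cik_of_trap (h : Ext K ψ) (hK : IsCompact K) {B : ℝ}
    (hB : ∀ w, 1 < ‖w‖ → ‖w‖ < 2 → ‖ψ w‖ ≤ B) {c : ℂ} (hc : c ∈ K)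
    (hT : ∀ η : ℝ, 0 < η → ∃ δ : ℝ, 0 < δ ∧ ∃ κ : ℝ, 0 < κ ∧ ∀ ζ : ℂ, ‖ζ‖ = 1 → ∀ s t : ℝ,
      1 < s → s < 1 + κ → 1 < t → t < 1 + κ → dist (ψ (s * ζ)) c < δ → dist (ψ (t * ζ)) c < η) :
    CIK K c := by
  have hKn : K.Nonempty := ⟨c, hc⟩
  intro ε hε
  have hT' : ∀ η : ℝ, 0 < η → ∃ δ : ℝ, 0 < δ ∧ ∃ κ : ℝ, 0 < κ ∧ ∀ θ : ℝ, ∀ s t : ℝ,
      1 < s → s < 1 + κ → 1 < t → t < 1 + κ → dist (ψ (pt s θ)) c < δ → dist (ψ (pt t θ)) c < η := by
    intro η hη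
    obtain ⟨δ, hδ, κ, hκ, hk⟩ := hT η hη
    exact ⟨δ, hδ, κ, hκ, fun θ s t h1 h2 h3 h4 h5 =>
      hk _ (Complex.norm_exp_ofReal_mul_I θ) s t h1 h2 h3 h4 h5⟩
  -- boundary points
  have hF : ∃ δ2 : ℝ, 0 < δ2 ∧ ∀ x ∈ frontier K, dist x c < δ2 →
      ∃ C ⊆ K ∩ ball c (ε / 2), IsPreconnected C ∧ c ∈ C ∧ x ∈ C := by
    by_contra hcon
    push Not at hcon
    have h1 : ∀ n : ℕ, ∃ x ∈ frontier K, dist x c < 1 / ((n : ℝ) + 1) ∧
        ∀ C ⊆ K ∩ ball c (ε / 2), IsPreconnected C → c ∈ C → x ∉ C :=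
      fun n => hcon _ (by positivity)
    choose x hx1 hx2 hx3 using h1
    have h2 : ∀ n, ∃ θ ∈ Icc 0 (2 * Real.pi), Imp ψ θ (x n) :=
      fun n => exists_imp h hK.isClosed (hx1 n)
    choose θ hθ hI using h2
    obtain ⟨θ0, hθ0, φ, hφ, hlim⟩ := isCompact_Icc.tendsto_subseq hθ
    have hlim' : ∀ ρ : ℝ, 0 < ρ → ∀ᶠ n in atTop, |θ (φ n) - θ0| < ρ := fun ρ hρ =>
      hlim.eventually (ball_mem_nhds θ0 hρ)
    have h3 : Tendsto (fun n => 1 / ((φ n : ℝ) + 1)) atTop (𝓝 0) :=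
      tendsto_one_div_add_atTop_nhds_zero_nat.comp hφ.tendsto_atTop
    -- the centre is in the impression of the limit angle
    have hIc : Imp ψ θ0 c := by
      intro ρ hρ
      obtain ⟨n, hn1, hn2⟩ := ((h3.eventually_lt_const (half_pos hρ)).and
        (hlim' _ (half_pos hρ))).exists
      obtain ⟨t, θ', ht1, ht2, hθ', hd⟩ := hI (φ n) (ρ / 2) (half_pos hρ)
      refine ⟨t, θ', ht1, by linarith, ?_, ?_⟩
      · calc |θ' - θ0| ≤ |θ' - θ (φ n)| + |θ (φ n) - θ0| := abs_sub_le _ _ _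
          _ < ρ := by linarith
      · calc dist (ψ (pt t θ')) c ≤ dist (ψ (pt t θ')) (x (φ n)) + dist (x (φ n)) c :=
              dist_triangle _ _ _
          _ < ρ := by linarith [hx2 (φ n)]
    obtain ⟨δa, hδa, κa, hκa, ha⟩ := hT' (ε / 4) (by linarith)
    obtain ⟨δb, hδb, κb, hκb, hb⟩ := hT' (δa / 2) (by linarith)
    obtain ⟨κ, hκ⟩ : ∃ κ, κ = min κa κb := ⟨_, rfl⟩
    have hκ0 : 0 < κ := by rw [hκ]; exact lt_min hκa hκb
    have hκ1 : κ ≤ κa := by rw [hκ]; exact min_le_left _ _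
    have hκ2 : κ ≤ κb := by rw [hκ]; exact min_le_right _ _
    -- the reference level
    have hcont : Continuous fun θ : ℝ => dist (ψ (pt (1 + κ / 2) θ)) c := by
      refine Continuous.dist (h.cont.comp_continuous ?_ ?_) continuous_const
      · unfold pt
        fun_prop
      · intro θ
        rw [mem_ofPred_eq, norm_pt (by linarith)]
        linarith
    have href : dist (ψ (pt (1 + κ / 2) θ0)) c ≤ δa / 2 := by
      have h4 : ∀ n : ℕ, ∃ θ' : ℝ, |θ' - θ0| < min (1 / ((n : ℝ) + 1)) (min κ δb) ∧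
          dist (ψ (pt (1 + κ / 2) θ')) c < δa / 2 := by
        intro n
        obtain ⟨t, θ', ht1, ht2, hθ', hd⟩ := hIc (min (1 / ((n : ℝ) + 1)) (min κ δb))
          (by positivity)
        refine ⟨θ', hθ', ?_⟩
        have h5 := min_le_right (1 / ((n : ℝ) + 1)) (min κ δb)
        have h6 := min_le_left κ δb
        have h7 := min_le_right κ δb
        exact hb θ' t (1 + κ / 2) ht1 (by linarith) (by linarith) (by linarith) (by linarith)
      choose θ' hθ'1 hθ'2 using h4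
      have h5 : Tendsto θ' atTop (𝓝 θ0) := by
        rw [tendsto_iff_dist_tendsto_zero]
        refine squeeze_zero (fun _ => dist_nonneg) (fun n => ?_)
          tendsto_one_div_add_atTop_nhds_zero_nat
        rw [Real.dist_eq]
        exact (hθ'1 n).le.trans (min_le_left _ _)
      exact le_of_tendsto ((hcont.tendsto θ0).comp h5) (Eventually.of_forall fun n => (hθ'2 n).le)
    obtain ⟨ν, hν, hnu⟩ : ∃ ν : ℝ, 0 < ν ∧ ∀ θ : ℝ, |θ - θ0| < ν →
        dist (ψ (pt (1 + κ / 2) θ)) c < δa := by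
      have h4 : ∀ᶠ θ in 𝓝 θ0, dist (ψ (pt (1 + κ / 2) θ)) c < δa :=
        (hcont.tendsto θ0).eventually_lt_const (by linarith)
      obtain ⟨ν, hν, h5⟩ := Metric.eventually_nhds_iff.1 h4
      exact ⟨ν, hν, fun θ hθ => h5 (by rwa [Real.dist_eq])⟩
    obtain ⟨n, hn⟩ := (hlim' (ν / 2) (half_pos hν)).exists
    obtain ⟨C, hC1, hC2, hC3, hC4⟩ := imp_conn h hK.isClosed hKn hB
      (a := min (θ (φ n)) θ0) (b := max (θ (φ n)) θ0)
      (θ := θ (φ n)) (θ' := θ0) ⟨min_le_left _ _, le_max_left _ _⟩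
      ⟨min_le_right _ _, le_max_right _ _⟩ (hI (φ n)) hIc (c := c) (r := ε / 4)
      (ρ := min κ (ν / 2)) (by positivity) (by
        rintro _ ⟨⟨t, θ'⟩, ⟨⟨ht1, ht2⟩, ⟨hθ1, hθ2⟩⟩, rfl⟩
        simp only at ht1 ht2 hθ1 hθ2 ⊢
        have h5 := min_le_left κ (ν / 2)
        have h6 := min_le_right κ (ν / 2)
        rw [abs_lt] at hn
        have h7 : |θ' - θ0| < ν := by
          rw [abs_lt]
          constructor
          · have : θ0 - ν / 2 ≤ min (θ (φ n)) θ0 := le_min (by linarith) (by linarith)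
            linarith
          · have : max (θ (φ n)) θ0 ≤ θ0 + ν / 2 := max_le (by linarith) (by linarith)
            linarith
        rw [mem_ball]
        exact ha θ' (1 + κ / 2) t (by linarith) (by linarith) ht1 (by linarith) (hnu θ' h7))
    refine hx3 (φ n) C (fun z hz => ⟨(hC1 hz).1, ?_⟩) hC2 hC4 hC3
    have := mem_closedBall.1 (hC1 hz).2
    rw [mem_ball]
    linarith
  obtain ⟨δ2, hδ2, hF⟩ := hF
  refine ⟨min δ2 (ε / 2), by positivity, fun q hq hqc => ?_⟩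
  have hq1 : dist q c < δ2 := hqc.trans_le (min_le_left _ _)
  have hq2 : dist q c < ε / 2 := hqc.trans_le (min_le_right _ _)
  have hsb : ∀ x ∈ segment ℝ q c, dist x c ≤ dist q c := by
    intro x hx
    rw [segment_symm, segment_eq_image'] at hx
    obtain ⟨t, ht, rfl⟩ := hx
    simp only [dist_eq_norm]
    rw [add_sub_cancel_left, norm_smul, Real.norm_eq_abs, abs_of_nonneg ht.1]
    exact mul_le_of_le_one_left (norm_nonneg _) ht.2
  by_cases hs : segment ℝ q c ⊆ K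
  · refine ⟨segment ℝ q c, fun x hx => ⟨hs hx, ?_⟩, (convex_segment q c).isPreconnected,
      right_mem_segment _ _ _, left_mem_segment _ _ _⟩
    rw [mem_ball]
    linarith [hsb x hx]
  · obtain ⟨q', hq's, hq'f, hq'K⟩ := seg_exit hK.isClosed hq hs
    obtain ⟨C, hC1, hC2, hC3, hC4⟩ := hF q' hq'f ((hsb q' hq's).trans_lt hq1)
    refine ⟨C ∪ segment ℝ q q', ?_, ?_, Or.inl hC3, Or.inr (left_mem_segment _ _ _)⟩
    · rintro x (hx | hx)
      · exact ⟨(hC1 hx).1, ball_subset_ball (by linarith) (hC1 hx).2⟩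
      · refine ⟨hq'K hx, ?_⟩
        have h1 : x ∈ segment ℝ q c :=
          (convex_segment q c).segment_subset (left_mem_segment _ _ _) hq's hx
        rw [mem_ball]
        linarith [hsb x h1]
    · exact IsPreconnected.union q' hC4 (right_mem_segment _ _ _) hC2
        (convex_segment _ _).isPreconnected

end Pool.Agent.T6.H93.MLC
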