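import Mathlib
import Pool.Agent.T6.H93.MLC.Level
import Pool.Agent.T6.H93.MLC.Trap

set_option autoImplicit false

/-! # Slow points on oscillating rays -/

namespace Pool.Agent.T6.H93.MLC

open Set Metric Filter Topology Complex Bornology
open Pool.Agent.H713R2 (IsExteriorMap)
open Pool.Agent.H712R2 (P)
open Pool.Agent.R240.Loc (CIK)
open N62a1eb23

variable {ψ : ℂ → ℂ}

theorem exit_le {f : ℝ → ℝ} {s t v : ℝ} (hst : s ≤ t) (hf : ContinuousOn f (Icc s t))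
    (h1 : f s < v) (h2 : v ≤ f t) : ∃ x ∈ Icc s t, f x = v ∧ ∀ y ∈ Icc s x, f y ≤ v := by
  have hc : IsCompact {x | x ∈ Icc s t ∧ v ≤ f x} := by
    have := hf.preimage_isClosed_of_isClosed isClosed_Icc (isClosed_Ici (a := v))
    exact isCompact_Icc.of_isClosed_subset this fun x hx => hx.1
  obtain ⟨x, hx, hmin⟩ := hc.exists_isLeast ⟨t, ⟨hst, le_rfl⟩, h2⟩
  have hfx : f x = v := by
    obtain ⟨y, hy, hyv⟩ := intermediate_value_Icc hx.1.1
      (hf.mono (Icc_subset_Icc_right hx.1.2)) ⟨h1.le, hx.2⟩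
    have h3 : x ≤ y := hmin ⟨⟨hy.1, hy.2.trans hx.1.2⟩, hyv.ge⟩
    rw [le_antisymm h3 hy.2]
    exact hyv
  refine ⟨x, hx.1, hfx, fun y hy => ?_⟩
  by_contra hcon
  push Not at hcon
  have h3 : x ≤ y := hmin ⟨⟨hy.1, hy.2.trans hx.1.2⟩, hcon.le⟩
  rw [le_antisymm hy.2 h3, hfx] at hcon
  exact lt_irrefl _ hcon

/-- first exit along an interval, in either direction -/
theorem exit {f : ℝ → ℝ} {s t v : ℝ} (hf : ContinuousOn f (uIcc s t))
    (h1 : f s < v) (h2 : v ≤ f t) : ∃ x ∈ uIcc s t, f x = v ∧ ∀ y ∈ uIcc s x, f y ≤ v := by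
  rcases le_total s t with h | h
  · rw [uIcc_of_le h] at hf ⊢
    obtain ⟨x, hx, hx2, hx3⟩ := exit_le h hf h1 h2
    refine ⟨x, hx, hx2, ?_⟩
    rw [uIcc_of_le hx.1]
    exact hx3
  · rw [uIcc_of_ge h] at hf ⊢
    obtain ⟨x, hx, hx2, hx3⟩ := exit_le (f := fun x => f (-x)) (s := -s) (t := -t) (v := v)
      (by linarith) (by
        refine hf.comp continuous_neg.continuousOn ?_
        intro y hy
        exact ⟨by linarith [hy.2], by linarith [hy.1]⟩) (by simpa using h1) (by simpa using h2)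
    refine ⟨-x, ⟨by linarith [hx.2], by linarith [hx.1]⟩, hx2, ?_⟩
    rw [uIcc_of_ge (by linarith [hx.1])]
    intro y hy
    have := hx3 (-y) ⟨by linarith [hy.2], by linarith [hy.1]⟩
    simpa using this

/-- the levels -/
noncomputable def uu (n : ℕ) : ℝ := 1 + 4 * (1 / 2) ^ n

theorem uu_anti : Antitone uu := by
  intro m n hmn
  unfold uu
  have : (1 / 2 : ℝ) ^ n ≤ (1 / 2) ^ m := pow_le_pow_of_le_one (by norm_num) (by norm_num) hmn
  linarith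

theorem uu_lim : Tendsto uu atTop (𝓝 1) := by
  have := (tendsto_pow_atTop_nhds_zero_of_lt_one (r := (1 / 2 : ℝ)) (by norm_num)
    (by norm_num)).const_mul 4
  have h2 := this.const_add 1
  rw [mul_zero, add_zero] at h2
  exact h2

theorem exists_level {N1 : ℕ} {x : ℝ} (hx1 : 1 < x) (hx2 : x ≤ uu N1) :
    ∃ N, N1 ≤ N ∧ x ∈ Icc (uu (N + 1)) (uu N) := by
  classical
  have hex : ∃ k, uu (N1 + k + 1) ≤ x := by
    obtain ⟨n, hn⟩ := eventually_atTop.1 (uu_lim.eventually_lt_const hx1)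
    exact ⟨n, (hn (N1 + n + 1) (by omega)).le⟩
  obtain ⟨k, hk⟩ : ∃ k, k = Nat.find hex := ⟨_, rfl⟩
  have hk1 : uu (N1 + k + 1) ≤ x := by rw [hk]; exact Nat.find_spec hex
  refine ⟨N1 + k, Nat.le_add_right _ _, hk1, ?_⟩
  rcases Nat.eq_zero_or_pos k with h0 | h0
  · rw [h0, add_zero]; exact hx2
  · have h1 : ¬ uu (N1 + (k - 1) + 1) ≤ x := by
      refine Nat.find_min hex ?_
      rw [← hk]
      omega
    rw [show N1 + (k - 1) + 1 = N1 + k by omega] at h1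
    exact (not_le.1 h1).le

theorem slow_of_osc (hψ : IsExteriorMap (multibrotSet 2) ψ) {c : ℂ} {τ : ℕ → ℝ} (hτ : Summable τ)
    (n0 : ℕ) {δ : ℝ} (hδ : 0 < δ) :
    ∃ κ : ℝ, 0 < κ ∧ ∀ ζ : ℂ, ‖ζ‖ = 1 → ∀ s t : ℝ, 1 < s → s < 1 + κ → 1 < t → t < 1 + κ →
      dist (ψ (s * ζ)) c < δ / 8 → δ / 2 ≤ dist (ψ (t * ζ)) c →
      ∃ (u : ℝ) (n : ℕ), n0 ≤ n ∧ 1 < u ∧ u < 1 + δ ∧ dist (ψ (u * ζ)) c < δ ∧
        ‖P 2 n (ψ (u * ζ))‖ = 3 ∧ τ n * ‖deriv (P 2 n) (ψ (u * ζ))‖ < 1 := by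
  have hE := ext_of hψ
  obtain ⟨N0', hN0'⟩ := crossing hψ
  obtain ⟨N0, hN0d⟩ : ∃ N0, N0 = max N0' n0 := ⟨_, rfl⟩
  have hN0n : n0 ≤ N0 := by rw [hN0d]; exact le_max_right _ _
  have hN0 : ∀ N : ℕ, N0 ≤ N → ∀ ζ : ℂ, ‖ζ‖ = 1 → ∃ y : ℝ, 2 / 5 * (1 / 2) ^ N ≤ y ∧
      y ≤ 4 * (1 / 2) ^ N ∧ ‖P 2 (N + 1) (ψ ((1 + y : ℝ) * ζ))‖ = 3 := by
    intro N hN
    exact hN0' N ((by rw [hN0d]; exact le_max_left _ _ : N0' ≤ N0).trans hN)
  obtain ⟨κ1, hκ1, hk1⟩ := hE.close (bound_of hψ) (δ := δ / 10240000) (by positivity)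
  obtain ⟨b, hb⟩ : ∃ b : ℕ → ℝ, b = fun k => 640000 * (1616 * |τ (k + 2)|) := ⟨_, rfl⟩
  have hbs : Summable fun k => 2 * b k := by
    rw [hb]
    have h1 : Summable fun k => |τ (k + 2)| := by
      have := (summable_nat_add_iff 2).2 hτ
      exact this.abs
    exact ((h1.mul_left 1616).mul_left 640000).mul_left 2
  have hb0 : ∀ k, 0 ≤ 2 * b k := fun k => by rw [hb]; positivity
  obtain ⟨N1, hN1, htail⟩ : ∃ N1, N0 ≤ N1 ∧ ∀ N, N1 ≤ N → ∀ m,
      ∑ k ∈ Finset.range m, 2 * b (N + k) ≤ δ / 4 := by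
    have h1 := tendsto_sum_nat_add (fun n => 2 * b n)
    obtain ⟨N1, h2⟩ := eventually_atTop.1 (h1.eventually_lt_const (show 0 < δ / 4 by linarith))
    refine ⟨max N0 N1, le_max_left _ _, fun N hN m => ?_⟩
    have h3 := h2 N ((le_max_right _ _).trans hN)
    have h4 : Summable fun k => 2 * b (k + N) := (summable_nat_add_iff N).2 hbs
    have h5 : ∑ k ∈ Finset.range m, 2 * b (N + k) = ∑ k ∈ Finset.range m, 2 * b (k + N) := by
      refine Finset.sum_congr rfl fun k _ => ?_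
      rw [add_comm]
    rw [h5]
    exact (h4.sum_le_tsum _ (fun k _ => hb0 _)).trans h3.le
  obtain ⟨κ, hκ⟩ : ∃ κ, κ = min (min κ1 δ) (4 * (1 / 2) ^ N1) := ⟨_, rfl⟩
  have hκ0 : 0 < κ := by rw [hκ]; positivity
  have hκa : κ ≤ κ1 := by rw [hκ]; exact (min_le_left _ _).trans (min_le_left _ _)
  have hκb : κ ≤ δ := by rw [hκ]; exact (min_le_left _ _).trans (min_le_right _ _)
  have hκc : κ ≤ 4 * (1 / 2) ^ N1 := by rw [hκ]; exact min_le_right _ _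
  refine ⟨κ, hκ0, ?_⟩
  intro ζ hζ s t hs1 hs2 ht1 ht2 hsd htd
  by_contra hcon
  push Not at hcon
  have hnorm : ∀ x : ℝ, 1 < x → ‖(x : ℂ) * ζ‖ = x := by
    intro x hx
    rw [norm_mul, hζ, mul_one, Complex.norm_real, Real.norm_eq_abs, abs_of_pos (by linarith)]
  -- the exit point
  have hfc : ContinuousOn (fun x : ℝ => dist (ψ (x * ζ)) c) (uIcc s t) := by
    have h0 : ContinuousOn (fun z : ℂ => dist z c) univ :=
      (continuous_id.dist continuous_const).continuousOn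
    refine h0.comp (hE.cont.comp (by fun_prop) ?_) (fun _ _ => mem_univ _)
    intro x hx
    have hx1 : 1 < x := by
      have := hx.1
      have h3 : 1 < min s t := lt_min hs1 ht1
      exact h3.trans_le this
    rw [mem_ofPred_eq, hnorm x hx1]
    exact hx1
  obtain ⟨x0, hx0, hfx0, hx0le⟩ := exit hfc (v := δ / 2) (by linarith) htd
  have hx01 : 1 < x0 := (lt_min hs1 ht1).trans_le hx0.1
  have hx02 : x0 < 1 + κ := hx0.2.trans_lt (max_lt hs2 ht2)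
  obtain ⟨a, ha⟩ : ∃ a, a = min s x0 := ⟨_, rfl⟩
  obtain ⟨e, he⟩ : ∃ e, e = max s x0 := ⟨_, rfl⟩
  have ha1 : 1 < a := by rw [ha]; exact lt_min hs1 hx01
  have he2 : e < 1 + κ := by rw [he]; exact max_lt hs2 hx02
  have hae : a ≤ e := by rw [ha, he]; exact min_le_max
  have hin : ∀ x, a ≤ x → x ≤ e → dist (ψ (x * ζ)) c ≤ δ / 2 := by
    intro x h1 h2
    refine hx0le x ?_
    rw [ha] at h1
    rw [he] at h2
    exact ⟨h1, h2⟩
  have hdisp : 3 * δ / 8 < dist (ψ (e * ζ)) (ψ (a * ζ)) := by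
    have h1 : 3 * δ / 8 < dist (ψ (x0 * ζ)) (ψ (s * ζ)) := by
      have h2 := dist_triangle (ψ (x0 * ζ)) (ψ (s * ζ)) c
      linarith
    rcases le_total s x0 with h3 | h3
    · rw [ha, he, min_eq_left h3, max_eq_right h3]
      exact h1
    · rw [ha, he, min_eq_right h3, max_eq_left h3, dist_comm]
      exact h1
  have huN : 1 + κ ≤ uu N1 := by
    unfold uu
    linarith
  obtain ⟨Na, hNa1, hNa⟩ := exists_level (N1 := N1) ha1 (by linarith)
  obtain ⟨Ne, hNe1, hNe⟩ := exists_level (N1 := N1) (ha1.trans_le hae) (by linarith)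
  have hle : Ne ≤ Na := by
    by_contra h1
    push Not at h1
    have h2 : uu Ne ≤ uu (Na + 1) := uu_anti h1
    have h3 : e = a := le_antisymm (hNe.2.trans (h2.trans hNa.1)) hae
    rw [h3, dist_self] at hdisp
    linarith
  obtain ⟨m, rfl⟩ := Nat.exists_eq_add_of_le hle
  -- the crossing points
  have hcross : ∀ k : ℕ, ∃ y : ℝ, N1 ≤ k → 2 / 5 * (1 / 2) ^ (k + 1) ≤ y ∧
      y ≤ 4 * (1 / 2) ^ (k + 1) ∧ ‖P 2 (k + 1 + 1) (ψ ((1 + y : ℝ) * ζ))‖ = 3 := by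
    intro k
    by_cases hk : N1 ≤ k
    · obtain ⟨y, hy⟩ := hN0 (k + 1) (by omega) ζ hζ
      exact ⟨y, fun _ => hy⟩
    · exact ⟨0, fun h => absurd h hk⟩
  choose y hy using hcross
  have hchain := chain (f := fun x : ℝ => ψ (x * ζ)) (Z := fun k => ψ ((1 + y k : ℝ) * ζ)) (b := b)
    uu_anti m Ne e a hNe hNa hae (by
      intro k hkN _ x hx hax hxe
      obtain ⟨hy1, hy2, hy3⟩ := hy k (hNe1.trans hkN)
      have hp : (0 : ℝ) < (1 / 2) ^ (k + 1) := by positivity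
      have hx1 : y k ≤ x - 1 := by
        have := hx.1
        unfold uu at this
        linarith
      have hx2 : x - 1 ≤ 8 * (1 / 2) ^ (k + 1) := by
        have := hx.2
        unfold uu at this
        rw [pow_succ]
        linarith
      have hyk : 0 < y k := by linarith
      have hd := disp hψ hζ hy1 hx1 hx2
      rw [show 1 + (x - 1) = x by ring] at hd
      have hw : ‖((1 + y k : ℝ) : ℂ) * ζ‖ = 1 + y k := norm_ray hζ hyk
      have hq := quarter hE compact_M nonempty_M (w := ((1 + y k : ℝ) : ℂ) * ζ)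
        (by rw [hw]; linarith)
      rw [hw, add_sub_cancel_left] at hq
      have hxe' : x < 1 + κ := lt_of_le_of_lt hxe he2
      have hcl := hk1 (((1 + y k : ℝ) : ℂ) * ζ) (by rw [hw]; linarith) (by rw [hw]; linarith)
      have h1 : dist (ψ (x * ζ)) (ψ ((1 + y k : ℝ) * ζ)) < δ / 4 := by linarith
      have h2 : dist (ψ ((1 + y k : ℝ) * ζ)) c < δ := by
        have h3 := hin x hax hxe
        have h4 := dist_triangle_left (ψ ((1 + y k : ℝ) * ζ)) c (ψ (x * ζ))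
        linarith
      have h3 := hcon (1 + y k) (k + 1 + 1) (by omega) (by linarith) (by linarith) h2 hy3
      have h4 := deriv_mul_le hψ hζ hyk hy2
      obtain ⟨A, hA⟩ : ∃ A, A = y k * ‖deriv ψ ((1 + y k : ℝ) * ζ)‖ := ⟨_, rfl⟩
      obtain ⟨D, hD⟩ : ∃ D, D = ‖deriv (P 2 (k + 1 + 1)) (ψ ((1 + y k : ℝ) * ζ))‖ := ⟨_, rfl⟩
      rw [← hA] at hd h4
      rw [← hD] at h3 h4
      have hA0 : 0 ≤ A := by rw [hA]; positivity
      have hD0 : 0 ≤ D := by rw [hD]; exact norm_nonneg _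
      have hτ0 : 0 < τ (k + 1 + 1) := by
        by_contra hneg
        push Not at hneg
        have := mul_nonpos_of_nonpos_of_nonneg hneg hD0
        linarith
      have h5 : A ≤ 1616 * τ (k + 1 + 1) := by
        have h6 : A * 1 ≤ A * (τ (k + 1 + 1) * D) := mul_le_mul_of_nonneg_left h3 hA0
        have h7 : A * (τ (k + 1 + 1) * D) = τ (k + 1 + 1) * (A * D) := by ring
        have h8 : τ (k + 1 + 1) * (A * D) ≤ τ (k + 1 + 1) * 1616 :=
          mul_le_mul_of_nonneg_left h4 hτ0.le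
        linarith
      rw [hb]
      simp only
      have h6 : τ (k + 1 + 1) ≤ |τ (k + 2)| := le_abs_self _
      linarith)
  have hfin := htail Ne hNe1 (m + 1)
  linarith

/-- **Slow points on oscillating rays.** -/
theorem slow_of_not_cik (hψ : IsExteriorMap (multibrotSet 2) ψ) {c : ℂ} (hc : c ∈ multibrotSet 2)
    (hn : ¬ CIK (multibrotSet 2) c) : ∃ ε : ℝ, 0 < ε ∧ ∀ τ : ℕ → ℝ, Summable τ → ∀ n0 : ℕ,
      ∀ δ : ℝ, 0 < δ →
      ∃ ζ : ℂ, ‖ζ‖ = 1 ∧ ∃ (s t u : ℝ) (n : ℕ), n0 ≤ n ∧ (1 < s ∧ s < 1 + δ) ∧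
        (1 < t ∧ t < 1 + δ) ∧
        (1 < u ∧ u < 1 + δ) ∧ dist (ψ (s * ζ)) c < δ ∧ ε ≤ dist (ψ (t * ζ)) c ∧
        dist (ψ (u * ζ)) c < δ ∧ ‖P 2 n (ψ (u * ζ))‖ = 3 ∧
        τ n * ‖deriv (P 2 n) (ψ (u * ζ))‖ < 1 := by
  have h1 : ¬ ∀ η : ℝ, 0 < η → ∃ δ : ℝ, 0 < δ ∧ ∃ κ : ℝ, 0 < κ ∧ ∀ ζ : ℂ, ‖ζ‖ = 1 → ∀ s t : ℝ,
      1 < s → s < 1 + κ → 1 < t → t < 1 + κ → dist (ψ (s * ζ)) c < δ → dist (ψ (t * ζ)) c < η :=
    fun h => hn (cik_of_trap (ext_of hψ) compact_M (bound_of hψ) hc h)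
  push Not at h1
  obtain ⟨η, hη, h1⟩ := h1
  refine ⟨η, hη, fun τ hτ n0 δ hδ => ?_⟩
  obtain ⟨δ', hδ'⟩ : ∃ δ', δ' = min δ η := ⟨_, rfl⟩
  have hδ'0 : 0 < δ' := by rw [hδ']; exact lt_min hδ hη
  have hδ'1 : δ' ≤ δ := by rw [hδ']; exact min_le_left _ _
  have hδ'2 : δ' ≤ η := by rw [hδ']; exact min_le_right _ _
  obtain ⟨κ, hκ, hk⟩ := slow_of_osc hψ (c := c) hτ n0 hδ'0
  obtain ⟨ζ, hζ, s, t, hs1, hs2, ht1, ht2, hsd, htd⟩ := h1 (δ' / 8) (by linarith) (min κ δ)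
    (by positivity)
  have h3 := min_le_left κ δ
  have h4 := min_le_right κ δ
  obtain ⟨u, n, hn0, hu1, hu2, hu3, hu4, hu5⟩ := hk ζ hζ s t hs1 (by linarith) ht1 (by linarith) hsd
    (by linarith)
  exact ⟨ζ, hζ, s, t, u, n, hn0, ⟨hs1, by linarith⟩, ⟨ht1, by linarith⟩, ⟨hu1, by linarith⟩,
    by linarith, htd, by linarith, hu4, hu5⟩

end Pool.Agent.T6.H93.MLC
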