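import Mathlib
import Pool.Agent.T6.H93.MLC.Slow
import Pool.Agent.T6.H93.MLC.Root

set_option autoImplicit false

/-! # Local connectivity at the fast parameters -/

namespace Pool.Agent.T6.H93.MLC

open Set Metric Filter Topology Complex Bornology
open Pool.Agent.H713R2 (IsExteriorMap)
open Pool.Agent.H712R2 (P)
open Pool.Agent.R240.Loc (CIK lcs_iff)
open N62a1eb23

/-- the solutions of `P_n = 3` close to `c` have large derivatives -/
def FastAt (c : ℂ) : Prop :=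
  ∃ δ : ℝ, 0 < δ ∧ ∃ τ : ℕ → ℝ, Summable τ ∧ ∀ᶠ n in atTop, ∀ a ∈ ball c δ, P 2 n a = 3 →
    1 ≤ τ n * ‖deriv (P 2 n) a‖

theorem cik_of_fast {c : ℂ} (hc : c ∈ multibrotSet 2) (hf : FastAt c) :
    CIK (multibrotSet 2) c := by
  obtain ⟨β, hβ⟩ := Pool.Agent.H713R2.exists_beta (d := 2) le_rfl
  obtain ⟨ψ, hψ⟩ : ∃ ψ, IsExteriorMap (multibrotSet 2) ψ :=
    ⟨_, Pool.Agent.H713R2.exteriorMap_of_beta hβ⟩
  by_contra hn
  obtain ⟨δ, hδ, τ, hτ, hev⟩ := hf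
  obtain ⟨n0, hn0⟩ := eventually_atTop.1 hev
  have hE := ext_of hψ
  have hexp := Real.exp_pos 120
  obtain ⟨κ1, hκ1, hk1⟩ := hE.close (bound_of hψ) (δ := δ / (240 * Real.exp 120)) (by positivity)
  obtain ⟨ε, hε, h⟩ := slow_of_not_cik hψ hc hn
  obtain ⟨ζ, hζ, s, t, u, n, hn1, -, -, hu, -, -, hud, hP, hslow⟩ :=
    h (fun n => Real.exp 120 * |τ n|) (hτ.abs.mul_left _) (max n0 1) (min (δ / 2) κ1)
      (by positivity)
  have hδ1 := min_le_left (δ / 2) κ1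
  have hδ2 := min_le_right (δ / 2) κ1
  obtain ⟨m, rfl⟩ : ∃ m, n = m + 1 :=
    ⟨n - 1, by have := (le_max_right n0 1).trans hn1; omega⟩
  have hun : ‖(u : ℂ) * ζ‖ = u := by
    rw [norm_mul, hζ, mul_one, Complex.norm_real, Real.norm_eq_abs, abs_of_pos (by linarith [hu.1])]
  obtain ⟨a, ha1, ha2, ha3⟩ := root_near m hP
  have h1 := hk1 (u * ζ) (by rw [hun]; exact hu.1) (by rw [hun]; linarith [hu.2])
  have h2 : 120 * Real.exp 120 * infDist (ψ (u * ζ)) (multibrotSet 2) < δ / 2 := by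
    rw [lt_div_iff₀ (by positivity)] at h1
    linarith
  have hac : a ∈ ball c δ := by
    rw [mem_ball]
    have := dist_triangle_left a c (ψ (u * ζ))
    linarith
  have h3 := hn0 (m + 1) ((le_max_left _ _).trans hn1) a hac ha1
  have h4 : τ (m + 1) * ‖deriv (P 2 (m + 1)) a‖ ≤
      |τ (m + 1)| * (Real.exp 120 * ‖deriv (P 2 (m + 1)) (ψ (u * ζ))‖) :=
    mul_le_mul (le_abs_self _) ha2 (norm_nonneg _) (abs_nonneg _)
  have h5 : |τ (m + 1)| * (Real.exp 120 * ‖deriv (P 2 (m + 1)) (ψ (u * ζ))‖) =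
      Real.exp 120 * |τ (m + 1)| * ‖deriv (P 2 (m + 1)) (ψ (u * ζ))‖ := by ring
  linarith

theorem lcs_ball {K : Set ℂ} {c : ℂ} {r : ℝ} (h : ∀ q ∈ K ∩ ball c r, CIK K q) :
    LocallyConnectedSpace ↥(K ∩ ball c r) := by
  rw [lcs_iff]
  intro q hq ε hε
  have hr : 0 < r - dist q c := by linarith [mem_ball.1 hq.2]
  obtain ⟨δ, hδ, hC⟩ := h q hq (min ε (r - dist q c)) (lt_min hε hr)
  refine ⟨δ, hδ, fun x hx hxq => ?_⟩
  obtain ⟨C, hC1, hC2, hC3, hC4⟩ := hC x hx.1 hxq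
  refine ⟨C, fun z hz => ?_, hC2, hC3, hC4⟩
  have hz1 := mem_ball.1 (hC1 hz).2
  refine ⟨⟨(hC1 hz).1, ?_⟩, ?_⟩
  · rw [mem_ball]
    have := dist_triangle z q c
    have := min_le_right ε (r - dist q c)
    linarith
  · rw [mem_ball]
    exact hz1.trans_le (min_le_left _ _)

theorem lcs_of_fast {c : ℂ} (hf : FastAt c) :
    ∃ r : ℝ, 0 < r ∧ LocallyConnectedSpace ↥(multibrotSet 2 ∩ ball c r) := by
  obtain ⟨δ, hδ, τ, hτ, hev⟩ := hf
  refine ⟨δ, hδ, lcs_ball fun q hq => cik_of_fast hq.1 ⟨δ - dist q c, ?_, τ, hτ, ?_⟩⟩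
  · linarith [mem_ball.1 hq.2]
  · filter_upwards [hev] with n hn a ha
    refine hn a ?_
    rw [mem_ball] at ha ⊢
    linarith [dist_triangle a q c]

theorem lcs_of_pow {C s : ℝ} (hC : 0 < C) (hs : 1 < s)
    (h : ∀ᶠ n : ℕ in atTop, ∀ a : ℂ, P 2 n a = 3 → C * (n : ℝ) ^ s ≤ ‖deriv (P 2 n) a‖) :
    LocallyConnectedSpace (multibrotSet 2) := by
  rw [lcs_iff]
  intro c hc
  refine cik_of_fast hc ⟨1, one_pos, fun n => C⁻¹ * (1 / (n : ℝ) ^ s), ?_, ?_⟩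
  · exact (Real.summable_one_div_nat_rpow.2 hs).mul_left _
  · filter_upwards [h, eventually_ge_atTop 1] with n hn hn1 a _ ha
    have h1 := hn a ha
    have h2 : (0 : ℝ) < (n : ℝ) ^ s := Real.rpow_pos_of_pos (by exact_mod_cast hn1) s
    have h3 : C⁻¹ * (1 / (n : ℝ) ^ s) * (C * (n : ℝ) ^ s) = 1 := by
      field_simp
    calc (1 : ℝ) = C⁻¹ * (1 / (n : ℝ) ^ s) * (C * (n : ℝ) ^ s) := h3.symm
      _ ≤ C⁻¹ * (1 / (n : ℝ) ^ s) * ‖deriv (P 2 n) a‖ :=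
          mul_le_mul_of_nonneg_left h1 (by positivity)

end Pool.Agent.T6.H93.MLC
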