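import Mathlib
import Pool.Agent.H712R2.LogLift

set_option autoImplicit false

/-! # A Janiszewski type lemma -/

namespace Pool.Agent.T6.H93.MLC

open Set Metric Filter Topology Complex Bornology

theorem exp_one_const {X : Type*} [TopologicalSpace X] {S : Set X} (hS : IsPreconnected S)
    {u : X → ℂ} (hu : ContinuousOn u S) (he : ∀ x ∈ S, Complex.exp (u x) = 1) {x y : X}
    (hx : x ∈ S) (hy : y ∈ S) : u x = u y := by
  have hd : DiscreteTopology (AddSubgroup.zmultiples (2 * (Real.pi : ℂ) * I)) :=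
    NormedSpace.discreteTopology_zmultiples _
  have hd' : IsDiscrete ((AddSubgroup.zmultiples (2 * (Real.pi : ℂ) * I) :
    AddSubgroup ℂ) : Set ℂ) := ⟨hd⟩
  refine hS.constant_of_mapsTo hd' hu ?_ hx hy
  intro z hz
  obtain ⟨n, hn⟩ := Complex.exp_eq_one_iff.1 (he z hz)
  rw [hn, SetLike.mem_coe, AddSubgroup.mem_zmultiples_iff]
  exact ⟨n, by simp⟩

/-- a nowhere vanishing continuous function on the plane has a logarithm -/
theorem exists_log_plane {f : ℂ → ℂ} (hf : Continuous f) (h0 : ∀ z, f z ≠ 0) :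
    ∃ g : ℂ → ℂ, Continuous g ∧ ∀ z, Complex.exp (g z) = f z := by
  let H : C(unitInterval × ℂ, {z : ℂ // z ≠ 0}) :=
    ⟨fun p => ⟨f (((p.1 : ℝ) : ℂ) * p.2) / f 0, div_ne_zero (h0 _) (h0 _)⟩, by
      refine Continuous.subtype_mk ?_ _
      fun_prop⟩
  obtain ⟨L, hL, -⟩ := Pool.Agent.H712R2.exists_log_homotopy H (by
    intro a
    simp [H, div_self (h0 0)])
  refine ⟨fun z => L (1, z) + Complex.log (f 0), by fun_prop, fun z => ?_⟩
  rw [Complex.exp_add, hL, Complex.exp_log (h0 0)]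
  simp [H, div_mul_cancel₀ _ (h0 0)]

theorem janis {A B V : Set ℂ} {z1 : ℂ} (hA : IsCompact A) (hB : IsCompact B)
    (hAB : IsPreconnected (A ∩ B)) {LA LB : ℂ → ℂ} (hLA : ContinuousOn LA A)
    (hLA' : ∀ z ∈ A, Complex.exp (LA z) = z - z1) (hLB : ContinuousOn LB B)
    (hLB' : ∀ z ∈ B, Complex.exp (LB z) = z - z1) (hV : IsOpen V) (hVb : IsBounded V)
    (hz1 : z1 ∈ V) (hfr : frontier V ⊆ A ∪ B) : False := by
  classical
  -- gluing
  obtain ⟨k, hk1, hk2⟩ : ∃ k : ℂ, Complex.exp k = 1 ∧ ∀ z ∈ A ∩ B, LA z = LB z + k := by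
    rcases (A ∩ B).eq_empty_or_nonempty with h | ⟨z0, hz0⟩
    · exact ⟨0, by simp, by simp [h]⟩
    · have he : ∀ z ∈ A ∩ B, Complex.exp (LA z - LB z) = 1 := by
        intro z hz
        rw [Complex.exp_sub, hLA' z hz.1, hLB' z hz.2]
        refine div_self ?_
        rw [← hLA' z hz.1]
        exact Complex.exp_ne_zero _
      refine ⟨LA z0 - LB z0, he z0 hz0, fun z hz => ?_⟩
      have := exp_one_const hAB (u := fun z => LA z - LB z)
        ((hLA.mono inter_subset_left).sub (hLB.mono inter_subset_right)) he hz hz0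
      rw [← this]
      ring
  obtain ⟨L, hL⟩ : ∃ L : ℂ → ℂ, L = fun z => if z ∈ A then LA z else LB z + k := ⟨_, rfl⟩
  have hL1 : EqOn L LA A := fun z hz => by rw [hL]; simp [hz]
  have hL2 : EqOn L (fun z => LB z + k) B := by
    intro z hz
    rw [hL]
    by_cases hzA : z ∈ A
    · simp only [hzA, if_true]
      exact hk2 z ⟨hzA, hz⟩
    · simp [hzA]
  have hLc : ContinuousOn L (A ∪ B) :=
    (hLA.congr hL1).union_of_isClosed ((hLB.add continuousOn_const).congr hL2)
      hA.isClosed hB.isClosed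
  have hLe : ∀ z ∈ A ∪ B, Complex.exp (L z) = z - z1 := by
    rintro z (hz | hz)
    · rw [hL1 hz, hLA' z hz]
    · rw [hL2 hz]
      simp only
      rw [Complex.exp_add, hLB' z hz, hk1, mul_one]
  -- extension
  have hcl : IsClosed (A ∪ B) := hA.isClosed.union hB.isClosed
  obtain ⟨G, hG⟩ := ContinuousMap.exists_restrict_eq hcl
    (⟨(A ∪ B).domRestrict L, continuousOn_iff_continuous_domRestrict.1 hLc⟩ : C(↥(A ∪ B), ℂ))
  have hGL : ∀ z ∈ A ∪ B, G z = L z := by
    intro z hz
    have := congrArg (fun F : C(↥(A ∪ B), ℂ) => F ⟨z, hz⟩) hG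
    simpa using this
  obtain ⟨f, hf⟩ : ∃ f : ℂ → ℂ, f = fun z => if z ∈ V then Complex.exp (G z) else z - z1 :=
    ⟨_, rfl⟩
  have hf1 : EqOn f (fun z => Complex.exp (G z)) (closure V) := by
    intro z hz
    rw [hf]
    by_cases hzV : z ∈ V
    · simp [hzV]
    · simp only [hzV, if_false]
      have hzf : z ∈ frontier V := ⟨hz, by rwa [hV.interior_eq]⟩
      rw [hGL z (hfr hzf), hLe z (hfr hzf)]
  have hf2 : EqOn f (fun z => z - z1) Vᶜ := by
    intro z hz
    rw [hf]
    have : z ∉ V := hz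
    simp [this]
  have hfc : Continuous f := by
    rw [← continuousOn_univ]
    have huniv : closure V ∪ Vᶜ = univ := by
      rw [eq_univ_iff_forall]
      intro z
      by_cases hz : z ∈ V
      · exact Or.inl (subset_closure hz)
      · exact Or.inr hz
    rw [← huniv]
    refine ContinuousOn.union_of_isClosed ?_ ?_ isClosed_closure hV.isClosed_compl
    · exact ContinuousOn.congr (by fun_prop) hf1
    · exact ContinuousOn.congr (by fun_prop) hf2
  have hf0 : ∀ z, f z ≠ 0 := by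
    intro z
    by_cases hz : z ∈ V
    · rw [hf1 (subset_closure hz)]
      exact Complex.exp_ne_zero _
    · rw [hf2 hz]
      simp only
      intro h
      rw [sub_eq_zero.1 h] at hz
      exact hz hz1
  obtain ⟨g, hg, hge⟩ := exists_log_plane hfc hf0
  obtain ⟨R, hR0, hR⟩ : ∃ R : ℝ, 0 < R ∧ V ⊆ ball z1 R := by
    obtain ⟨R, hR⟩ := hVb.subset_ball z1
    exact ⟨max R 1, by positivity, hR.trans (ball_subset_ball (le_max_left _ _))⟩
  obtain ⟨γ, hγ⟩ : ∃ γ : ℝ → ℂ, γ = fun θ : ℝ => z1 + R * Complex.exp (θ * I) := ⟨_, rfl⟩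
  have hγV : ∀ θ, γ θ ∉ V := by
    intro θ hθ
    have h1 := hR hθ
    rw [mem_ball, dist_eq_norm, hγ] at h1
    simp only [add_sub_cancel_left, norm_mul, Complex.norm_exp_ofReal_mul_I, mul_one,
      Complex.norm_real, Real.norm_eq_abs, abs_of_pos hR0] at h1
    exact lt_irrefl _ h1
  have hγc : Continuous γ := by
    rw [hγ]
    fun_prop
  have hkey : ∀ θ ∈ (univ : Set ℝ),
      Complex.exp (g (γ θ) - θ * I - Complex.log R) = 1 := by
    intro θ _
    have hRne : (R : ℂ) ≠ 0 := by exact_mod_cast hR0.ne'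
    rw [Complex.exp_sub, Complex.exp_sub, hge, hf2 (hγV θ), Complex.exp_log hRne]
    simp only
    rw [hγ]
    simp only [add_sub_cancel_left]
    rw [mul_div_assoc, div_self (Complex.exp_ne_zero _), mul_one, div_self hRne]
  have hcon := exp_one_const isPreconnected_univ (u := fun θ : ℝ => g (γ θ) - θ * I - Complex.log R)
    (by fun_prop) hkey (mem_univ (2 * Real.pi)) (mem_univ 0)
  have hγ2 : γ (2 * Real.pi) = γ 0 := by
    rw [hγ]
    simp only [Complex.ofReal_mul, Complex.ofReal_ofNat, Complex.exp_two_pi_mul_I,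
      Complex.ofReal_zero, zero_mul, Complex.exp_zero]
  simp only [hγ2] at hcon
  have h2 : ((2 * Real.pi : ℝ) : ℂ) * I = ((0 : ℝ) : ℂ) * I := by linear_combination -hcon
  rw [mul_left_inj' I_ne_zero] at h2
  have h3 : (2 * Real.pi : ℝ) = 0 := by exact_mod_cast h2
  have := Real.pi_pos
  linarith

/-- logarithm of `z - z1` on a small set far away from `z1` -/
theorem log_far {B : Set ℂ} {c z1 : ℂ} {η : ℝ} (hB : B ⊆ ball c η) (hz1 : η ≤ dist z1 c) :
    ∃ L : ℂ → ℂ, ContinuousOn L B ∧ ∀ z ∈ B, Complex.exp (L z) = z - z1 := by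
  rcases B.eq_empty_or_nonempty with rfl | ⟨b, hb⟩
  · exact ⟨0, continuousOn_empty _, by simp⟩
  have hη : 0 < η := dist_nonneg.trans_lt (mem_ball.1 (hB hb))
  have hne : c - z1 ≠ 0 := by
    intro h
    rw [dist_comm, dist_eq_norm, h, norm_zero] at hz1
    linarith
  have hsl : ∀ z ∈ B, (z - z1) / (c - z1) ∈ slitPlane := by
    intro z hz
    have h1 : (z - z1) / (c - z1) = 1 + (z - c) / (c - z1) := by
      field_simp
      ring
    rw [h1]
    refine Complex.mem_slitPlane_of_norm_lt_one ?_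
    rw [norm_div, div_lt_one (norm_pos_iff.2 hne), ← dist_eq_norm, ← dist_eq_norm, dist_comm c]
    exact (mem_ball.1 (hB hz)).trans_le hz1
  refine ⟨fun z => Complex.log ((z - z1) / (c - z1)) + Complex.log (c - z1), ?_, ?_⟩
  · refine ContinuousOn.add ?_ continuousOn_const
    exact ContinuousOn.clog (by fun_prop) hsl
  · intro z hz
    rw [Complex.exp_add, Complex.exp_log (slitPlane_ne_zero (hsl z hz)), Complex.exp_log hne,
      div_mul_cancel₀ _ hne]

end Pool.Agent.T6.H93.MLC
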