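import Mathlib
import Pool.Agent.T6.H93.MLC.Base

set_option autoImplicit false

/-! # Small crosscuts -/

namespace Pool.Agent.T6.H93.MLC

open Set Metric Filter Topology Complex Bornology MeasureTheory

variable {K : Set ℂ} {ψ : ℂ → ℂ}

theorem det_mul (a : ℂ) :
    ((ContinuousLinearMap.toSpanSingleton ℂ a).restrictScalars ℝ : ℂ →L[ℝ] ℂ).det = ‖a‖ ^ 2 := by
  rw [ContinuousLinearMap.det, ← LinearMap.det_toMatrix Complex.basisOneI, Matrix.det_fin_two]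
  simp [LinearMap.toMatrix_apply, Complex.basisOneI, Complex.sq_norm, Complex.normSq_apply]

/-- area formula -/
theorem area_eq {g : ℂ → ℂ} (hd : DifferentiableOn ℂ g {z | 1 < ‖z‖})
    (hi : InjOn g {z | 1 < ‖z‖}) {A : Set ℂ} (hA : MeasurableSet A) (hA1 : A ⊆ {z | 1 < ‖z‖}) :
    ∫⁻ z in A, ‖deriv g z‖ₑ ^ 2 = volume (g '' A) := by
  have h1 : ∀ x ∈ A, HasFDerivWithinAt g
      ((ContinuousLinearMap.toSpanSingleton ℂ (deriv g x)).restrictScalars ℝ) A x := by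
    intro x hx
    have h2 : DifferentiableAt ℂ g x := hd.differentiableAt (isOpen_ex.mem_nhds (hA1 hx))
    exact (h2.hasDerivAt.hasFDerivAt.restrictScalars ℝ).hasFDerivWithinAt
  rw [← lintegral_abs_det_fderiv_eq_addHaar_image volume hA h1 (hi.mono hA1)]
  refine lintegral_congr fun z => ?_
  rw [det_mul, abs_of_nonneg (by positivity), ENNReal.ofReal_pow (norm_nonneg _), ofReal_norm]

/-- Cauchy-Schwarz -/
theorem cs {A : Set ℂ} {f : ℂ → ENNReal} (hf : AEMeasurable f (volume.restrict A)) :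
    (∫⁻ z in A, f z) ^ 2 ≤ (∫⁻ z in A, f z ^ 2) * volume A := by
  have h1 := ENNReal.lintegral_mul_le_Lp_mul_Lq (volume.restrict A)
    (show (2 : ℝ).HolderConjugate 2 by constructor <;> norm_num) hf
    (aemeasurable_const (b := (1 : ENNReal)))
  simp only [Pi.mul_apply, mul_one, ENNReal.rpow_two, one_pow, lintegral_one,
    Measure.restrict_apply_univ] at h1
  calc (∫⁻ z in A, f z) ^ 2
      ≤ ((∫⁻ z in A, f z ^ 2) ^ (1 / 2 : ℝ) * volume A ^ (1 / 2 : ℝ)) ^ 2 := by gcongr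
    _ = (∫⁻ z in A, f z ^ 2) * volume A := by
      rw [mul_pow, ← ENNReal.rpow_natCast, ← ENNReal.rpow_natCast, ← ENNReal.rpow_mul,
        ← ENNReal.rpow_mul]
      norm_num

theorem norm_arc {ρ θ : ℝ} (hρ : 0 < ρ) :
    1 < ‖1 + (ρ : ℂ) * Complex.exp (θ * I)‖ ↔ -(ρ / 2) < Real.cos θ := by
  have h1 : ‖1 + (ρ : ℂ) * Complex.exp (θ * I)‖ ^ 2 = 1 + 2 * ρ * Real.cos θ + ρ ^ 2 := by
    rw [Complex.exp_mul_I, ← Complex.ofReal_cos, ← Complex.ofReal_sin, Complex.sq_norm,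
      Complex.normSq_apply]
    simp only [Complex.add_re, Complex.one_re, Complex.mul_re, Complex.ofReal_re, Complex.ofReal_im,
      Complex.add_im, Complex.mul_im, Complex.I_re, Complex.I_im, Complex.one_im]
    have := Real.sin_sq_add_cos_sq θ
    ring_nf
    nlinarith
  have h2 : 1 < ‖1 + (ρ : ℂ) * Complex.exp (θ * I)‖ ↔
      1 < ‖1 + (ρ : ℂ) * Complex.exp (θ * I)‖ ^ 2 := by
    rw [one_lt_sq_iff₀ (norm_nonneg _)]
  rw [h2, h1]
  constructor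
  · intro h
    nlinarith
  · intro h
    nlinarith

theorem arc_le {g : ℂ → ℂ} (hd : DifferentiableOn ℂ g {z | 1 < ‖z‖}) {ρ θ1 θ2 : ℝ} (hρ : 0 < ρ)
    (h12 : θ1 ≤ θ2) (hm : ∀ θ ∈ Icc θ1 θ2, 1 < ‖1 + (ρ : ℂ) * Complex.exp (θ * I)‖) :
    ‖g (1 + ρ * Complex.exp (θ2 * I)) - g (1 + ρ * Complex.exp (θ1 * I))‖ₑ ≤
      ∫⁻ θ in Ioc θ1 θ2, ENNReal.ofReal ρ * ‖deriv g (1 + ρ * Complex.exp (θ * I))‖ₑ := by
  have hdc : ContinuousOn (deriv g) {z | 1 < ‖z‖} := (hd.deriv isOpen_ex).continuousOn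
  have hc : Continuous (fun θ : ℝ => 1 + (ρ : ℂ) * Complex.exp (θ * I)) := by fun_prop
  have h1 : ∀ θ ∈ uIcc θ1 θ2, HasDerivAt (fun θ : ℝ => g (1 + ρ * Complex.exp (θ * I)))
      (deriv g (1 + ρ * Complex.exp (θ * I)) * (ρ * (Complex.exp (θ * I) * I))) θ := by
    intro θ hθ
    rw [uIcc_of_le h12] at hθ
    have h2 : HasDerivAt g (deriv g (1 + ρ * Complex.exp (θ * I)))
        (1 + ρ * Complex.exp (θ * I)) :=
      (hd.differentiableAt (isOpen_ex.mem_nhds (hm θ hθ))).hasDerivAt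
    have h3 : HasDerivAt (fun θ : ℝ => 1 + (ρ : ℂ) * Complex.exp (θ * I))
        (ρ * (Complex.exp (θ * I) * I)) θ := by
      have h4 : HasDerivAt (fun θ : ℝ => (θ : ℂ) * I) I θ := by
        have := (Complex.ofRealCLM.hasDerivAt (x := θ)).mul_const I
        simpa using this
      exact ((h4.cexp).const_mul (ρ : ℂ)).const_add 1
    exact HasDerivAt.comp (h := fun θ : ℝ => 1 + (ρ : ℂ) * Complex.exp (θ * I)) θ h2 h3
  have h2 : ContinuousOn (fun θ : ℝ => deriv g (1 + ρ * Complex.exp (θ * I)) *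
      (ρ * (Complex.exp (θ * I) * I))) (uIcc θ1 θ2) := by
    refine ContinuousOn.mul ?_ (by fun_prop)
    refine hdc.comp hc.continuousOn ?_
    intro θ hθ
    rw [uIcc_of_le h12] at hθ
    exact hm θ hθ
  have h3 := intervalIntegral.integral_eq_sub_of_hasDerivAt h1 h2.intervalIntegrable
  rw [← h3, intervalIntegral.integral_of_le h12]
  refine (enorm_integral_le_lintegral_enorm _).trans (le_of_eq ?_)
  refine lintegral_congr fun θ => ?_
  rw [enorm_mul, enorm_mul, enorm_mul, mul_comm]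
  have h5 : ‖Complex.exp (θ * I)‖ₑ = 1 := by
    rw [← ofReal_norm, Complex.norm_exp_ofReal_mul_I, ENNReal.ofReal_one]
  have h6 : ‖I‖ₑ = 1 := by
    rw [← ofReal_norm, Complex.norm_I, ENNReal.ofReal_one]
  have h7 : ‖(ρ : ℂ)‖ₑ = ENNReal.ofReal ρ := by
    rw [← ofReal_norm, Complex.norm_real, Real.norm_eq_abs, abs_of_pos hρ]
  rw [h5, h6, h7, mul_one, mul_one]

/-- angle of a point of a crosscut -/
theorem exists_angle {w : ℂ} {ρ : ℝ} (hρ : 0 < ρ) (hρ1 : ρ < 1) (hw : 1 < ‖w‖)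
    (hw1 : ‖w - 1‖ = ρ) :
    ∃ θ ∈ Ioo (-Real.pi) Real.pi, w = 1 + ρ * Complex.exp (θ * I) := by
  have h1 : w = 1 + ρ * Complex.exp (arg (w - 1) * I) := by
    have h2 := Complex.norm_mul_exp_arg_mul_I (w - 1)
    rw [hw1] at h2
    rw [h2]
    ring
  refine ⟨arg (w - 1), ⟨Complex.neg_pi_lt_arg _, ?_⟩, h1⟩
  refine lt_of_le_of_ne (Complex.arg_le_pi _) fun h => ?_
  rw [h, Complex.exp_pi_mul_I] at h1
  rw [h1] at hw
  have : (1 : ℂ) + ρ * (-1) = ((1 - ρ : ℝ) : ℂ) := by push_cast; ring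
  rw [this, Complex.norm_real, Real.norm_eq_abs, abs_of_pos (by linarith)] at hw
  linarith

theorem crosscut {g : ℂ → ℂ} (hd : DifferentiableOn ℂ g {z | 1 < ‖z‖})
    (hi : InjOn g {z | 1 < ‖z‖}) {s η : ℝ} (hs : 0 < s) (hs1 : s < 1) (hη : 0 < η)
    (hvol : volume (g '' {w | 1 < ‖w‖ ∧ ‖w‖ < 1 + s}) ≤ ENNReal.ofReal (η ^ 2 / 16)) :
    ∃ ρ ∈ Ioo (s / 4) (s / 2), ∀ w1 w2 : ℂ, 1 < ‖w1‖ → ‖w1 - 1‖ = ρ → 1 < ‖w2‖ → ‖w2 - 1‖ = ρ →
      ‖g w1 - g w2‖ ≤ η := by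
  by_contra hcon
  push Not at hcon
  obtain ⟨A, hA⟩ : ∃ A : Set ℂ, A = {w | 1 < ‖w‖ ∧ s / 4 < ‖w - 1‖ ∧ ‖w - 1‖ < s / 2} := ⟨_, rfl⟩
  have hcn : Continuous fun w : ℂ => ‖w - 1‖ := by fun_prop
  have hAo : IsOpen A := by
    rw [hA]
    exact (isOpen_lt continuous_const continuous_norm).inter
      ((isOpen_lt continuous_const hcn).inter (isOpen_lt hcn continuous_const))
  have hA1 : A ⊆ {z | 1 < ‖z‖} := by rw [hA]; exact fun w hw => hw.1
  have hA2 : A ⊆ {w | 1 < ‖w‖ ∧ ‖w‖ < 1 + s} := by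
    rw [hA]
    rintro w ⟨h1, -, h3⟩
    refine ⟨h1, ?_⟩
    have := norm_le_norm_add_norm_sub' w 1
    rw [norm_one] at this
    linarith
  have hA3 : volume A ≤ ENNReal.ofReal (Real.pi * (s / 2) ^ 2) := by
    have h1 : A ⊆ ball 1 (s / 2) := by
      rw [hA]
      rintro w ⟨-, -, h3⟩
      rwa [mem_ball, dist_eq_norm]
    refine (measure_mono h1).trans ?_
    rw [Complex.volume_ball, ENNReal.ofReal_mul (by positivity),
      ENNReal.ofReal_pow (by positivity), mul_comm]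
    rw [show ENNReal.ofReal Real.pi = (NNReal.pi : ENNReal) by
      rw [← NNReal.coe_real_pi, ENNReal.ofReal_coe_nnreal]]
  obtain ⟨F, hF⟩ : ∃ F : ℂ → ENNReal, F = fun z => A.indicator (fun w => ‖deriv g w‖ₑ) (1 + z) :=
    ⟨_, rfl⟩
  have hindm : Measurable (A.indicator (fun w => ‖deriv g w‖ₑ)) :=
    (measurable_deriv g).enorm.indicator hAo.measurableSet
  have hFm : Measurable F := by
    rw [hF]
    exact hindm.comp (measurable_const_add 1)
  have h1 : (∫⁻ z, F z) ^ 2 ≤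
      ENNReal.ofReal (η ^ 2 / 16) * ENNReal.ofReal (Real.pi * (s / 2) ^ 2) := by
    have h2 : ∫⁻ z, F z = ∫⁻ z in A, ‖deriv g z‖ₑ := by
      rw [hF, lintegral_add_left_eq_self (μ := (volume : Measure ℂ))
        (A.indicator (fun w => ‖deriv g w‖ₑ)) 1, lintegral_indicator hAo.measurableSet]
    rw [h2]
    refine (cs (measurable_deriv g).enorm.aemeasurable).trans (mul_le_mul' ?_ hA3)
    rw [area_eq hd hi hAo.measurableSet hA1]
    exact (measure_mono (image_mono hA2)).trans hvol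
  have hkey : ∀ ρ ∈ Ioo (s / 4) (s / 2), ENNReal.ofReal η ≤
      ∫⁻ θ in Ioo (-Real.pi) Real.pi, ENNReal.ofReal ρ * F (ρ * Complex.exp (θ * I)) := by
    intro ρ hρ
    have hρ0 : 0 < ρ := by linarith [hρ.1]
    have hmain : ∀ θ1 θ2 : ℝ, θ1 ∈ Ioo (-Real.pi) Real.pi → θ2 ∈ Ioo (-Real.pi) Real.pi → θ1 ≤ θ2 →
        1 < ‖1 + (ρ : ℂ) * Complex.exp (θ1 * I)‖ → 1 < ‖1 + (ρ : ℂ) * Complex.exp (θ2 * I)‖ →
        ‖g (1 + ρ * Complex.exp (θ2 * I)) - g (1 + ρ * Complex.exp (θ1 * I))‖ₑ ≤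
        ∫⁻ θ in Ioo (-Real.pi) Real.pi, ENNReal.ofReal ρ * F (ρ * Complex.exp (θ * I)) := by
      intro θ1 θ2 h1 h2 h12 hn1 hn2
      have hm : ∀ θ ∈ Icc θ1 θ2, 1 < ‖1 + (ρ : ℂ) * Complex.exp (θ * I)‖ := by
        intro θ hθ
        rw [norm_arc hρ0] at hn1 hn2 ⊢
        have h3 : |θ| ≤ max |θ1| |θ2| := abs_le_max_abs_abs hθ.1 hθ.2
        rcases le_max_iff.1 h3 with h4 | h4
        · have := Real.cos_le_cos_of_nonneg_of_le_pi (abs_nonneg θ)
            (abs_le.2 ⟨h1.1.le, h1.2.le⟩) h4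
          rw [Real.cos_abs, Real.cos_abs] at this
          linarith
        · have := Real.cos_le_cos_of_nonneg_of_le_pi (abs_nonneg θ)
            (abs_le.2 ⟨h2.1.le, h2.2.le⟩) h4
          rw [Real.cos_abs, Real.cos_abs] at this
          linarith
      refine (arc_le hd hρ0 h12 hm).trans ?_
      refine le_trans (le_of_eq ?_) (lintegral_mono_set (show Ioc θ1 θ2 ⊆ Ioo (-Real.pi) Real.pi
        from fun θ hθ => ⟨h1.1.trans hθ.1, hθ.2.trans_lt h2.2⟩))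
      refine setLIntegral_congr_fun measurableSet_Ioc fun θ hθ => ?_
      have hθA : 1 + (ρ : ℂ) * Complex.exp (θ * I) ∈ A := by
        rw [hA]
        refine ⟨hm θ (Ioc_subset_Icc_self hθ), ?_, ?_⟩ <;>
        · rw [add_sub_cancel_left, norm_mul, Complex.norm_exp_ofReal_mul_I, mul_one,
            Complex.norm_real, Real.norm_eq_abs, abs_of_pos hρ0]
          first | exact hρ.1 | exact hρ.2
      simp only [hF, indicator_of_mem hθA]
    obtain ⟨w1, w2, hw1, hw1', hw2, hw2', hη2⟩ := hcon ρ hρ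
    have hρ1 : ρ < 1 := by linarith [hρ.2]
    obtain ⟨θ1, hθ1, rfl⟩ := exists_angle hρ0 hρ1 hw1 hw1'
    obtain ⟨θ2, hθ2, rfl⟩ := exists_angle hρ0 hρ1 hw2 hw2'
    have hle : ENNReal.ofReal η ≤
        ‖g (1 + ρ * Complex.exp (θ1 * I)) - g (1 + ρ * Complex.exp (θ2 * I))‖ₑ := by
      rw [← ofReal_norm]
      exact ENNReal.ofReal_le_ofReal hη2.le
    refine hle.trans ?_
    rcases le_total θ1 θ2 with h12 | h12
    · rw [← enorm_neg, neg_sub]
      exact hmain θ1 θ2 hθ1 hθ2 h12 hw1 hw2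
    · exact hmain θ2 θ1 hθ2 hθ1 h12 hw2 hw1
  have h2 : ENNReal.ofReal η * ENNReal.ofReal (s / 4) ≤ ∫⁻ z, F z := by
    have ht : _root_.polarCoord.target = Ioi (0 : ℝ) ×ˢ Ioo (-Real.pi) Real.pi := rfl
    have hpm : Measurable fun p : ℝ × ℝ => Complex.polarCoord.symm p := by
      simp only [Complex.polarCoord_symm_apply]
      fun_prop
    rw [← Complex.lintegral_comp_polarCoord_symm, ht, Measure.volume_eq_prod,
      ← Measure.prod_restrict, lintegral_prod _ (by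
        refine Measurable.aemeasurable ?_
        exact Measurable.smul (ENNReal.measurable_ofReal.comp measurable_fst) (hFm.comp hpm))]
    calc ENNReal.ofReal η * ENNReal.ofReal (s / 4)
        = ∫⁻ ρ in Ioo (s / 4) (s / 2), ENNReal.ofReal η := by
          rw [setLIntegral_const, Real.volume_Ioo]
          congr 2
          ring
      _ ≤ ∫⁻ ρ in Ioo (s / 4) (s / 2), ∫⁻ θ in Ioo (-Real.pi) Real.pi,
          ENNReal.ofReal ρ * F (ρ * Complex.exp (θ * I)) :=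
          setLIntegral_mono' measurableSet_Ioo hkey
      _ ≤ ∫⁻ ρ in Ioi 0, ∫⁻ θ in Ioo (-Real.pi) Real.pi,
          ENNReal.ofReal ρ * F (ρ * Complex.exp (θ * I)) :=
          lintegral_mono_set fun ρ hρ => by
            have := hρ.1
            rw [mem_Ioi]
            linarith
      _ = _ := by
          refine lintegral_congr fun ρ => lintegral_congr fun θ => ?_
          rw [Complex.polarCoord_symm_apply, smul_eq_mul, Complex.exp_mul_I, Complex.ofReal_cos,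
            Complex.ofReal_sin]
  have h3 : (ENNReal.ofReal η * ENNReal.ofReal (s / 4)) ^ 2 ≤
      ENNReal.ofReal (η ^ 2 / 16) * ENNReal.ofReal (Real.pi * (s / 2) ^ 2) :=
    (pow_le_pow_left' h2 2).trans h1
  rw [← ENNReal.ofReal_mul hη.le, ← ENNReal.ofReal_pow (by positivity),
    ← ENNReal.ofReal_mul (by positivity), ENNReal.ofReal_le_ofReal_iff (by positivity)] at h3
  have h4 : 0 < η ^ 2 * s ^ 2 := by positivity
  have h5 := Real.pi_lt_four
  nlinarith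

/-- the image of a thin annulus has small area -/
theorem area_small (h : Ext K ψ) {B : ℝ} (hB : ∀ w, 1 < ‖w‖ → ‖w‖ < 2 → ‖ψ w‖ ≤ B) {ε : ℝ}
    (hε : 0 < ε) : ∃ κ : ℝ, 0 < κ ∧ κ < 1 ∧
      volume (ψ '' {w | 1 < ‖w‖ ∧ ‖w‖ < 1 + κ}) ≤ ENNReal.ofReal ε := by
  obtain ⟨A, hA⟩ : ∃ A : ℕ → Set ℂ, A = fun n : ℕ =>
    ψ '' {w | 1 < ‖w‖ ∧ ‖w‖ < 1 + 1 / ((n : ℝ) + 2)} := ⟨_, rfl⟩
  have hAm : ∀ n, MeasurableSet (A n) := by
    intro n
    rw [hA]
    exact (h.image_open (isOpen_ex.inter (isOpen_lt continuous_norm continuous_const))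
      (fun w hw => hw.1)).measurableSet
  have hAa : Antitone A := by
    intro m n hmn
    rw [hA]
    refine image_mono ?_
    rintro w ⟨h1, h2⟩
    refine ⟨h1, h2.trans_le ?_⟩
    have : (m : ℝ) ≤ n := by exact_mod_cast hmn
    gcongr
  have hA0 : volume (A 0) ≠ ⊤ := by
    have h1 : A 0 ⊆ closedBall 0 B := by
      rw [hA]
      rintro _ ⟨w, ⟨h1, h2⟩, rfl⟩
      rw [mem_closedBall_zero_iff]
      refine hB w h1 (h2.trans ?_)
      norm_num
    exact ((measure_mono h1).trans_lt measure_closedBall_lt_top).ne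
  have hAi : ⋂ n, A n = ∅ := by
    rw [eq_empty_iff_forall_notMem]
    intro z hz
    rw [mem_iInter] at hz
    rw [hA] at hz
    obtain ⟨w, ⟨hw1, -⟩, rfl⟩ := hz 0
    have h1 : ∀ n : ℕ, ‖w‖ < 1 + 1 / ((n : ℝ) + 1) := by
      intro n
      obtain ⟨v, ⟨hv1, hv2⟩, hv3⟩ := hz n
      have := h.inj hv1 hw1 hv3
      rw [← this]
      refine hv2.trans ?_
      gcongr
      norm_num
    have h2 : Tendsto (fun n : ℕ => 1 + 1 / ((n : ℝ) + 1)) atTop (𝓝 (1 + 0)) :=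
      tendsto_const_nhds.add tendsto_one_div_add_atTop_nhds_zero_nat
    have h3 : ‖w‖ ≤ 1 + 0 := ge_of_tendsto h2 (Eventually.of_forall fun n => (h1 n).le)
    linarith
  have hlim := tendsto_measure_iInter_atTop (μ := volume)
    (fun n => (hAm n).nullMeasurableSet) hAa ⟨0, hA0⟩
  rw [hAi, measure_empty] at hlim
  have h0 : (0 : ENNReal) < ENNReal.ofReal ε := ENNReal.ofReal_pos.2 hε
  obtain ⟨n, hn⟩ := (hlim.eventually_lt_const h0).exists
  refine ⟨1 / ((n : ℝ) + 2), by positivity, ?_, ?_⟩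
  · rw [div_lt_one (by positivity)]
    have := n.cast_nonneg (α := ℝ)
    linarith
  · rw [hA] at hn
    exact hn.le

/-- small crosscuts, general base point -/
theorem crosscut' (h : Ext K ψ) {s η : ℝ} (hs : 0 < s) (hs1 : s < 1) (hη : 0 < η)
    (hvol : volume (ψ '' {w | 1 < ‖w‖ ∧ ‖w‖ < 1 + s}) ≤ ENNReal.ofReal (η ^ 2 / 16)) {ζ : ℂ}
    (hζ : ‖ζ‖ = 1) :
    ∃ ρ ∈ Ioo (s / 4) (s / 2), ∀ w1 w2 : ℂ, 1 < ‖w1‖ → ‖w1 - ζ‖ = ρ → 1 < ‖w2‖ → ‖w2 - ζ‖ = ρ →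
      ‖ψ w1 - ψ w2‖ ≤ η := by
  have hζ0 : ζ ≠ 0 := by
    rintro rfl
    rw [norm_zero] at hζ
    exact zero_ne_one hζ
  have hmaps : MapsTo (fun w : ℂ => ζ * w) {z | 1 < ‖z‖} {z | 1 < ‖z‖} := by
    intro w hw
    rw [mem_ofPred_eq, norm_mul, hζ, one_mul]
    exact hw
  obtain ⟨ρ, hρ, hd⟩ := crosscut (g := fun w => ψ (ζ * w))
    (h.diff.comp (by fun_prop) hmaps) (by
      intro a ha b hb hab
      have := h.inj (hmaps ha) (hmaps hb) hab
      exact mul_left_cancel₀ hζ0 this) hs hs1 hη (by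
      refine le_trans (measure_mono ?_) hvol
      rintro _ ⟨w, ⟨h1, h2⟩, rfl⟩
      refine ⟨ζ * w, ⟨?_, ?_⟩, rfl⟩ <;> rw [norm_mul, hζ, one_mul] <;> assumption)
  refine ⟨ρ, hρ, fun w1 w2 h1 h1' h2 h2' => ?_⟩
  have hz : ∀ w : ℂ, ζ * (ζ⁻¹ * w) = w := fun w => mul_inv_cancel_left₀ hζ0 w
  have hn : ∀ w : ℂ, ‖ζ⁻¹ * w‖ = ‖w‖ := fun w => by rw [norm_mul, norm_inv, hζ, inv_one, one_mul]
  have hn' : ∀ w : ℂ, ‖ζ⁻¹ * w - 1‖ = ‖w - ζ‖ := fun w => by
    rw [← hn (w - ζ), mul_sub, inv_mul_cancel₀ hζ0]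
  have := hd (ζ⁻¹ * w1) (ζ⁻¹ * w2) (by rwa [hn]) (by rwa [hn']) (by rwa [hn]) (by rwa [hn'])
  simpa only [hz] using this

end Pool.Agent.T6.H93.MLC
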