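import Mathlib
import Pool.Agent.H712R2.LogLift
import Pool.Agent.T6.H93.MLC.Base

set_option autoImplicit false

/-! # Logarithms on the compact set -/

namespace Pool.Agent.T6.H93.MLC

open Set Metric Filter Topology Complex Bornology

variable {K : Set ℂ} {ψ : ℂ → ℂ}

theorem Ext.log_on (h : Ext K ψ) {w1 : ℂ} (hw1 : 1 < ‖w1‖) :
    ∃ L : ℂ → ℂ, ContinuousOn L K ∧ ∀ z ∈ K, Complex.exp (L z) = z - ψ w1 := by
  classical
  have hw0 : w1 ≠ 0 := by
    rintro rfl
    rw [norm_zero] at hw1
    linarith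
  obtain ⟨T, hT⟩ : ∃ T : ℝ → ℂ, T = fun s : ℝ => if s = 0 then 1 else ψ (w1 / s) / (w1 / s) :=
    ⟨_, rfl⟩
  have hbig : ∀ s : ℝ, 0 < s → s ≤ 1 → 1 < ‖w1 / (s : ℂ)‖ := by
    intro s hs hs1
    rw [norm_div, Complex.norm_real, Real.norm_eq_abs, abs_of_pos hs]
    exact hw1.trans_le (le_div_self (norm_nonneg _) hs hs1)
  have hTc : ContinuousOn T (Icc 0 1) := by
    intro s hs
    rcases hs.1.eq_or_lt with h0 | h0
    · -- at zero
      rw [← h0]
      have h1 : Tendsto (fun s : ℝ => ψ (w1 / s) / (w1 / s)) (𝓝[≠] 0) (𝓝 1) := by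
        refine h.infinity.comp ?_
        have h2 : Tendsto (fun s : ℝ => (s : ℂ) / w1) (𝓝[≠] (0 : ℝ)) (𝓝[≠] (0 : ℂ)) := by
          rw [tendsto_nhdsWithin_iff]
          constructor
          · have : Tendsto (fun s : ℝ => (s : ℂ) / w1) (𝓝 (0 : ℝ)) (𝓝 ((0 : ℝ) / w1)) := by
              have hc : Continuous (fun s : ℝ => (s : ℂ) / w1) := by fun_prop
              exact hc.tendsto 0
            rw [Complex.ofReal_zero, zero_div] at this
            exact this.mono_left nhdsWithin_le_nhds
          · filter_upwards [eventually_mem_nhdsWithin] with s hs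
            have hs' : s ≠ 0 := hs
            have : (s : ℂ) ≠ 0 := by exact_mod_cast hs'
            exact div_ne_zero this hw0
        have h3 := (tendsto_inv₀_nhdsNE_zero (α := ℂ)).comp h2
        refine h3.congr (fun s => ?_)
        simp [inv_div]
      have h4 : ContinuousAt T 0 := by
        rw [← continuousWithinAt_compl_self, ContinuousWithinAt]
        have h5 : T 0 = 1 := by rw [hT]; simp
        rw [h5]
        refine h1.congr' ?_
        filter_upwards [eventually_mem_nhdsWithin] with s hs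
        have hs' : s ≠ 0 := hs
        rw [hT]
        simp [hs']
      exact h4.continuousWithinAt
    · have hsne : (s : ℂ) ≠ 0 := by exact_mod_cast h0.ne'
      have h1 : ContinuousAt (fun s : ℝ => ψ (w1 / s) / (w1 / s)) s := by
        have h2 : ContinuousAt (fun s : ℝ => w1 / (s : ℂ)) s := by
          refine ContinuousAt.div (by fun_prop) (by fun_prop) hsne
        refine ContinuousAt.div ?_ h2 (div_ne_zero hw0 hsne)
        exact ContinuousAt.comp (f := fun s : ℝ => w1 / (s : ℂ)) (h.contAt (hbig s h0 hs.2)) h2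
      have h3 : T =ᶠ[𝓝 s] fun s : ℝ => ψ (w1 / s) / (w1 / s) := by
        filter_upwards [lt_mem_nhds h0] with t ht
        rw [hT]
        simp [ht.ne']
      exact (h1.congr h3.symm).continuousWithinAt
  have hne : ∀ p : unitInterval × K, T (p.1 : ℝ) - (p.2 : ℂ) * ((p.1 : ℝ) : ℂ) / w1 ≠ 0 := by
    rintro ⟨⟨s, hs⟩, ⟨z, hz⟩⟩
    simp only
    rcases hs.1.eq_or_lt with h0 | h0
    · rw [← h0, hT]
      simp
    · have hsne : (s : ℂ) ≠ 0 := by exact_mod_cast h0.ne'
      have h1 : T s - z * (s : ℂ) / w1 = (ψ (w1 / s) - z) * s / w1 := by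
        rw [hT]
        simp only [h0.ne', if_false]
        field_simp
      rw [h1]
      refine div_ne_zero (mul_ne_zero ?_ hsne) hw0
      rw [sub_ne_zero]
      intro h2
      exact h.notMem (hbig s h0 hs.2) (h2 ▸ hz)
  have hTc' : Continuous (fun p : unitInterval × K => T (p.1 : ℝ)) := by
    refine hTc.comp_continuous (by fun_prop) ?_
    intro p
    exact p.1.2
  let H : C(unitInterval × K, {z : ℂ // z ≠ 0}) :=
    ⟨fun p => ⟨T (p.1 : ℝ) - (p.2 : ℂ) * ((p.1 : ℝ) : ℂ) / w1, hne p⟩, by
      refine Continuous.subtype_mk ?_ _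
      refine hTc'.sub ?_
      fun_prop⟩
  obtain ⟨L, hL, -⟩ := Pool.Agent.H712R2.exists_log_homotopy H (by
    intro a
    simp [H, hT])
  refine ⟨fun z => if hz : z ∈ K then L (1, ⟨z, hz⟩) + Complex.log (-w1) else 0, ?_, ?_⟩
  · rw [continuousOn_iff_continuous_domRestrict]
    have : (K.domRestrict fun z => if hz : z ∈ K then L (1, ⟨z, hz⟩) + Complex.log (-w1) else 0)
        = fun q : K => L (1, q) + Complex.log (-w1) := by
      funext q
      simp [Set.domRestrict]
    rw [this]
    fun_prop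
  · intro z hz
    simp only [hz, dif_pos]
    rw [Complex.exp_add, hL, Complex.exp_log (neg_ne_zero.2 hw0)]
    simp only [H, hT]
    simp
    field_simp
    ring

end Pool.Agent.T6.H93.MLC
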