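import Mathlib
import Pool.Agent.R240.Loc
import Pool.Agent.T6.H93.MLC.LogK
import Pool.Agent.T6.H93.MLC.Jan
import Pool.Agent.T6.H93.MLC.LenArea

set_option autoImplicit false

/-! # Rays do not escape from points where the set is connected im kleinen -/

namespace Pool.Agent.T6.H93.MLC

open Set Metric Filter Topology Complex Bornology MeasureTheory
open Pool.Agent.R240.Loc (CIK)

variable {K : Set ℂ} {ψ : ℂ → ℂ}

theorem frontier_V (h : Ext K ψ) (ζ : ℂ) (ρ : ℝ) :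
    frontier (ψ '' {w | 1 < ‖w‖ ∧ ‖w - ζ‖ < ρ}) ⊆ K ∪ ψ '' {w | 1 < ‖w‖ ∧ ‖w - ζ‖ = ρ} := by
  have hcn : Continuous fun w : ℂ => ‖w - ζ‖ := by fun_prop
  have hV : IsOpen (ψ '' {w | 1 < ‖w‖ ∧ ‖w - ζ‖ < ρ}) :=
    h.image_open (isOpen_ex.inter (isOpen_lt hcn continuous_const)) fun w hw => hw.1
  intro x hx
  by_cases hxK : x ∈ K
  · exact Or.inl hxK
  right
  obtain ⟨w0, hw0, rfl⟩ := h.surj hxK
  have h1 : ψ w0 ∉ ψ '' {w | 1 < ‖w‖ ∧ ‖w - ζ‖ < ρ} := by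
    have := hx.2
    rwa [hV.interior_eq] at this
  have h2 : ¬ ‖w0 - ζ‖ < ρ := fun h3 => h1 ⟨w0, ⟨hw0, h3⟩, rfl⟩
  have h3 : ¬ ρ < ‖w0 - ζ‖ := by
    intro h4
    have hU : IsOpen (ψ '' {w | 1 < ‖w‖ ∧ ρ < ‖w - ζ‖}) :=
      h.image_open (isOpen_ex.inter (isOpen_lt continuous_const hcn)) fun w hw => hw.1
    have h5 : ψ w0 ∈ ψ '' {w | 1 < ‖w‖ ∧ ρ < ‖w - ζ‖} := ⟨w0, ⟨hw0, h4⟩, rfl⟩
    obtain ⟨z, ⟨a, ha, rfl⟩, ⟨b, hb, hab⟩⟩ := mem_closure_iff.1 hx.1 _ hU h5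
    have := h.inj hb.1 ha.1 hab
    rw [this] at hb
    exact absurd hb.2 (not_lt.2 ha.2.le)
  exact ⟨w0, ⟨hw0, le_antisymm (not_lt.1 h3) (not_lt.1 h2)⟩, rfl⟩

theorem lemmaL (h : Ext K ψ) (hK : IsCompact K) {B : ℝ}
    (hB : ∀ w, 1 < ‖w‖ → ‖w‖ < 2 → ‖ψ w‖ ≤ B)
    (hQ : ∀ w, 1 < ‖w‖ → (‖w‖ - 1) * ‖deriv ψ w‖ ≤ 4 * infDist (ψ w) K)
    (hR : ∀ (ζ : ℂ) (x y : ℝ), ‖ζ‖ = 1 → 0 < x → x ≤ y →
      ‖ψ ((1 + y : ℝ) * ζ) - ψ ((1 + x : ℝ) * ζ)‖ ≤
        x * ‖deriv ψ ((1 + x : ℝ) * ζ)‖ * (y / x) ^ 5 / 5)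
    {c : ℂ} (hc : c ∈ K) (hcik : CIK K c) {η : ℝ} (hη : 0 < η) :
    ∃ κ : ℝ, 0 < κ ∧ ∃ δ : ℝ, 0 < δ ∧ ∀ ζ : ℂ, ‖ζ‖ = 1 → ∀ r' r : ℝ, 1 < r' → r' < r →
      r < 1 + κ → dist (ψ (r * ζ)) c < δ → dist (ψ (r' * ζ)) c < η := by
  obtain ⟨δ1, hδ1, hC⟩ := hcik (η / 2) (by linarith)
  obtain ⟨m, hm⟩ : ∃ m, m = min δ1 η := ⟨_, rfl⟩
  have hm0 : 0 < m := by rw [hm]; exact lt_min hδ1 hη
  have hm1 : m ≤ δ1 := by rw [hm]; exact min_le_left _ _
  have hm2 : m ≤ η := by rw [hm]; exact min_le_right _ _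
  obtain ⟨κ1, hκ1, hk1⟩ := h.close hB (δ := m / 4096) (by positivity)
  obtain ⟨κ2, hκ2, hκ2', hk2⟩ := area_small h hB (ε := (m / 4) ^ 2 / 16) (by positivity)
  refine ⟨min κ1 κ2, by positivity, m / 4, by positivity, ?_⟩
  intro ζ hζ r' r hr' hr'r hr hdist
  have hnorm : ∀ t : ℝ, 1 < t → ‖(t : ℂ) * ζ‖ = t := by
    intro t ht
    rw [norm_mul, hζ, mul_one, Complex.norm_real, Real.norm_eq_abs, abs_of_pos]
    linarith
  obtain ⟨s, hs⟩ : ∃ s, s = r - 1 := ⟨_, rfl⟩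
  have hs0 : 0 < s := by linarith
  have hs1 : s < κ1 := by
    have := min_le_left κ1 κ2
    linarith
  have hs2 : s < κ2 := by
    have := min_le_right κ1 κ2
    linarith
  have hs3 : s < 1 := by linarith
  -- distortion
  have hdist' : ∀ x : ℝ, s / 4 ≤ x → x ≤ s → dist (ψ ((1 + x : ℝ) * ζ)) c ≤ m / 2 := by
    intro x hx1 hx2
    have hx0 : 0 < x := by linarith
    have h1 := hR ζ x s hζ hx0 hx2
    have h2 := hQ ((1 + x : ℝ) * ζ) (by rw [hnorm _ (by linarith)]; linarith)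
    rw [hnorm _ (by linarith), add_sub_cancel_left] at h2
    have h3 := hk1 ((1 + x : ℝ) * ζ) (by rw [hnorm _ (by linarith)]; linarith)
      (by rw [hnorm _ (by linarith)]; linarith)
    have h4 : (s / x) ^ 5 ≤ 4 ^ 5 := by
      have : s / x ≤ 4 := by
        rw [div_le_iff₀ hx0]
        linarith
      exact pow_le_pow_left₀ (by positivity) this 5
    have h5 : x * ‖deriv ψ ((1 + x : ℝ) * ζ)‖ ≤ m / 1024 := by linarith
    have h6 : x * ‖deriv ψ ((1 + x : ℝ) * ζ)‖ * (s / x) ^ 5 ≤ m / 1024 * 4 ^ 5 :=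
      mul_le_mul h5 h4 (by positivity) (by positivity)
    have h7 : dist (ψ ((1 + x : ℝ) * ζ)) (ψ (r * ζ)) ≤ m / 4 := by
      rw [dist_comm, dist_eq_norm]
      have h8 : r = 1 + s := by linarith
      rw [h8]
      refine h1.trans ?_
      have h9 : m / 1024 * 4 ^ 5 = m := by ring
      rw [h9] at h6
      linarith
    calc dist (ψ ((1 + x : ℝ) * ζ)) c
        ≤ dist (ψ ((1 + x : ℝ) * ζ)) (ψ (r * ζ)) + dist (ψ (r * ζ)) c := dist_triangle _ _ _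
      _ ≤ m / 2 := by linarith
  obtain ⟨ρ, hρ, hcross⟩ := crosscut' h hs0 hs3 (η := m / 4) (by positivity) (by
    refine le_trans (measure_mono (image_mono ?_)) hk2
    rintro w ⟨h1, h2⟩
    exact ⟨h1, by linarith⟩) hζ
  by_contra hcon
  push Not at hcon
  -- first case: close to the outer end
  rcases le_or_gt ρ (r' - 1) with hcase | hcase
  · have h1 := hdist' (r' - 1) (by linarith [hρ.1]) (by linarith)
    rw [show 1 + (r' - 1) = r' by ring] at h1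
    linarith
  have hcn : Continuous fun w : ℂ => ‖w - ζ‖ := by fun_prop
  obtain ⟨V, hV⟩ : ∃ V : Set ℂ, V = ψ '' {w | 1 < ‖w‖ ∧ ‖w - ζ‖ < ρ} := ⟨_, rfl⟩
  obtain ⟨Q, hQdef⟩ : ∃ Q : Set ℂ, Q = ψ '' {w | 1 < ‖w‖ ∧ ‖w - ζ‖ = ρ} := ⟨_, rfl⟩
  have hsub : ∀ t : ℝ, 1 < t → ‖(t : ℂ) * ζ - ζ‖ = t - 1 := by
    intro t ht
    have : (t : ℂ) * ζ - ζ = ((t - 1 : ℝ) : ℂ) * ζ := by push_cast; ring
    rw [this, norm_mul, hζ, mul_one, Complex.norm_real, Real.norm_eq_abs, abs_of_pos]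
    linarith
  have hQball : Q ⊆ closedBall c (3 * m / 4) := by
    rw [hQdef]
    rintro _ ⟨w, ⟨hw1, hw2⟩, rfl⟩
    rw [mem_closedBall]
    have hρ0 : 0 < ρ := by linarith [hρ.1]
    have h1 := hcross w ((1 + ρ : ℝ) * ζ) hw1 hw2 (by rw [hnorm _ (by linarith)]; linarith)
      (by rw [hsub _ (by linarith)]; ring)
    have h2 := hdist' ρ hρ.1.le (by linarith [hρ.2])
    rw [← dist_eq_norm] at h1
    calc dist (ψ w) c ≤ dist (ψ w) (ψ ((1 + ρ : ℝ) * ζ)) + dist (ψ ((1 + ρ : ℝ) * ζ)) c :=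
          dist_triangle _ _ _
      _ ≤ 3 * m / 4 := by linarith
  have hQcl : closure Q ⊆ closedBall c (3 * m / 4) := closure_minimal hQball isClosed_closedBall
  -- the connected sets
  have hCC : ∀ q ∈ closure Q ∩ K, ∃ C ⊆ K ∩ ball c (η / 2), IsPreconnected C ∧ c ∈ C ∧ q ∈ C := by
    intro q hq
    refine hC q hq.2 ?_
    have := mem_closedBall.1 (hQcl hq.1)
    linarith
  choose! C hC1 hC2 hC3 hC4 using hCC
  obtain ⟨Y0, hY0⟩ : ∃ Y0 : Set ℂ, Y0 = {c} ∪ ⋃ q ∈ closure Q ∩ K, C q := ⟨_, rfl⟩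
  have hY0c : IsPreconnected Y0 := by
    rw [hY0, biUnion_eq_iUnion, ← sUnion_range]
    have : ({c} : Set ℂ) ∪ ⋃₀ range (fun q : ↥(closure Q ∩ K) => C q) =
        ⋃₀ (insert {c} (range (fun q : ↥(closure Q ∩ K) => C q))) := by
      rw [sUnion_insert]
    rw [this]
    refine isPreconnected_sUnion c _ ?_ ?_
    · rintro s (rfl | ⟨q, rfl⟩)
      · exact mem_singleton c
      · exact hC3 q q.2
    · rintro s (rfl | ⟨q, rfl⟩)
      · exact isPreconnected_singleton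
      · exact hC2 q q.2
  have hY0K : Y0 ⊆ K ∩ closedBall c (η / 2) := by
    rw [hY0]
    rintro z (hz | hz)
    · rw [mem_singleton_iff.1 hz]
      exact ⟨hc, mem_closedBall_self (by linarith)⟩
    · rw [mem_iUnion₂] at hz
      obtain ⟨q, hq, hz⟩ := hz
      exact ⟨(hC1 q hq hz).1, ball_subset_closedBall (hC1 q hq hz).2⟩
  obtain ⟨Y, hY⟩ : ∃ Y : Set ℂ, Y = closure Y0 := ⟨_, rfl⟩
  have hYc : IsPreconnected Y := by rw [hY]; exact hY0c.closure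
  have hYK : Y ⊆ K ∩ closedBall c (η / 2) := by
    rw [hY]
    exact closure_minimal hY0K (hK.isClosed.inter isClosed_closedBall)
  have hEY : closure Q ∩ K ⊆ Y := by
    intro q hq
    rw [hY]
    refine subset_closure ?_
    rw [hY0]
    exact Or.inr (mem_iUnion₂.2 ⟨q, hq, hC4 q hq⟩)
  have hYcomp : IsCompact Y := hK.of_isClosed_subset (by rw [hY]; exact isClosed_closure)
    fun z hz => (hYK hz).1
  have hQcomp : IsCompact (closure Q) :=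
    (isCompact_closedBall c (3 * m / 4)).of_isClosed_subset isClosed_closure hQcl
  have hBc : IsCompact (closure Q ∪ Y) := hQcomp.union hYcomp
  have hBball : closure Q ∪ Y ⊆ ball c η := by
    rintro z (hz | hz)
    · have := mem_closedBall.1 (hQcl hz)
      rw [mem_ball]
      linarith
    · have := mem_closedBall.1 (hYK hz).2
      rw [mem_ball]
      linarith
  have hKB : K ∩ (closure Q ∪ Y) = Y := by
    rw [inter_union_distrib_left]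
    refine Subset.antisymm (union_subset ?_ inter_subset_right) ?_
    · rw [inter_comm]; exact hEY
    · intro z hz
      exact Or.inr ⟨(hYK hz).1, hz⟩
  obtain ⟨LA, hLA, hLA'⟩ := h.log_on (w1 := r' * ζ) (by rw [hnorm _ hr']; exact hr')
  obtain ⟨LB, hLB, hLB'⟩ := log_far hBball hcon
  have hVo : IsOpen V := by
    rw [hV]
    exact h.image_open (isOpen_ex.inter (isOpen_lt hcn continuous_const)) fun w hw => hw.1
  refine janis (V := V) hK hBc (by rw [hKB]; exact hYc) hLA hLA' hLB hLB' hVo ?_ ?_ ?_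
  · rw [isBounded_iff_forall_norm_le]
    refine ⟨B, ?_⟩
    rw [hV]
    rintro _ ⟨w, ⟨hw1, hw2⟩, rfl⟩
    refine hB w hw1 ?_
    have h1 := norm_le_norm_add_norm_sub' w ζ
    rw [hζ] at h1
    linarith [hρ.2]
  · rw [hV]
    refine ⟨r' * ζ, ⟨by rw [hnorm _ hr']; exact hr', ?_⟩, rfl⟩
    rw [hsub _ hr']
    exact hcase
  · rw [hV]
    refine (frontier_V h ζ ρ).trans (union_subset_union_right _ ?_)
    rw [← hQdef]
    exact subset_closure.trans subset_union_left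

end Pool.Agent.T6.H93.MLC
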