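import Mathlib
import Pool.Agent.T6.H93.MLC.LL
import Pool.Agent.T6.H93.MLC.Fast

set_option autoImplicit false

/-! # If the set is locally connected then its rays do not oscillate -/

namespace Pool.Agent.T6.H93.MLC

open Set Metric Filter Topology Complex Bornology
open Pool.Agent.H713R2 (IsExteriorMap)
open Pool.Agent.H712R2 (P)
open Pool.Agent.R240.Loc (CIK lcs_iff)
open N62a1eb23

variable {ψ : ℂ → ℂ}

theorem no_osc (hψ : IsExteriorMap (multibrotSet 2) ψ)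
    (hl : ∀ q ∈ multibrotSet 2, CIK (multibrotSet 2) q) {c : ℂ} (hc : c ∈ multibrotSet 2) {ε : ℝ}
    (hε : 0 < ε) : ∃ δ : ℝ, 0 < δ ∧ ∀ ζ : ℂ, ‖ζ‖ = 1 → ∀ s t : ℝ, 1 < s → s < 1 + δ → 1 < t →
      t < 1 + δ → dist (ψ (s * ζ)) c < δ → dist (ψ (t * ζ)) c < ε := by
  have hE := ext_of hψ
  have hQ : ∀ w, 1 < ‖w‖ → (‖w‖ - 1) * ‖deriv ψ w‖ ≤ 4 * infDist (ψ w) (multibrotSet 2) :=
    fun w hw => quarter hE compact_M nonempty_M hw
  by_contra hcon
  push Not at hcon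
  have hex : ∀ n : ℕ, ∃ ζ : ℂ, ‖ζ‖ = 1 ∧ ∃ s t : ℝ, 1 < s ∧ s < 1 + 1 / ((n : ℝ) + 1) ∧ 1 < t ∧
      t < 1 + 1 / ((n : ℝ) + 1) ∧ dist (ψ (s * ζ)) c < 1 / ((n : ℝ) + 1) ∧
      ε ≤ dist (ψ (t * ζ)) c := by
    intro n
    obtain ⟨ζ, hζ, s, t, h1, h2, h3, h4, h5, h6⟩ := hcon (1 / ((n : ℝ) + 1)) (by positivity)
    exact ⟨ζ, hζ, s, t, h1, h2, h3, h4, h5, h6⟩
  choose ζ hζ s t hs1 hs2 ht1 ht2 hsc htc using hex
  have hi1 : ∀ i : ℕ, 1 / ((i : ℝ) + 1) ≤ 1 := by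
    intro i
    rw [div_le_one (by positivity)]
    have := i.cast_nonneg (α := ℝ)
    linarith
  have hnorm : ∀ (i : ℕ) (t : ℝ), 1 < t → ‖(t : ℂ) * ζ i‖ = t := by
    intro i t ht
    rw [norm_mul, hζ, mul_one, Complex.norm_real, Real.norm_eq_abs, abs_of_pos]
    linarith
  have hball : ∀ i : ℕ, ψ (t i * ζ i) ∈ closedBall (0 : ℂ) 4 := by
    intro i
    rw [mem_closedBall_zero_iff]
    refine bound_of hψ _ (by rw [hnorm i _ (ht1 i)]; exact ht1 i) ?_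
    rw [hnorm i _ (ht1 i)]
    linarith [hi1 i, ht2 i]
  obtain ⟨p, -, φ, hφ, hp⟩ := (isCompact_closedBall (0 : ℂ) 4).tendsto_subseq hball
  have hlim : Tendsto (fun n => 1 / ((φ n : ℝ) + 1)) atTop (𝓝 0) :=
    tendsto_one_div_add_atTop_nhds_zero_nat.comp hφ.tendsto_atTop
  have hp' : Tendsto (fun i => ψ (t (φ i) * ζ (φ i))) atTop (𝓝 p) := hp
  have hpK : p ∈ multibrotSet 2 := by
    rw [compact_M.isClosed.mem_iff_infDist_zero nonempty_M]
    have h1 : Tendsto (fun i => infDist (ψ (t (φ i) * ζ (φ i))) (multibrotSet 2)) atTop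
        (𝓝 (infDist p (multibrotSet 2))) := ((continuous_infDist_pt _).tendsto _).comp hp'
    have h2 : Tendsto (fun i => infDist (ψ (t (φ i) * ζ (φ i))) (multibrotSet 2)) atTop (𝓝 0) := by
      rw [Metric.tendsto_nhds]
      intro δ hδ
      obtain ⟨κ, hκ, hk⟩ := hE.close (bound_of hψ) hδ
      filter_upwards [hlim.eventually_lt_const hκ] with i hi
      rw [Real.dist_eq, sub_zero, abs_of_nonneg infDist_nonneg]
      refine hk _ (by rw [hnorm _ _ (ht1 _)]; exact ht1 _) ?_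
      rw [hnorm _ _ (ht1 _)]
      linarith [ht2 (φ i)]
    exact tendsto_nhds_unique h1 h2
  have hpc : ε ≤ dist p c :=
    ge_of_tendsto (hp'.dist tendsto_const_nhds) (Eventually.of_forall fun i => htc (φ i))
  obtain ⟨κ1, hκ1, δ1, hδ1, hL1⟩ := lemmaL hE compact_M (bound_of hψ) hQ
    (fun ζ x y hζ hx hxy => ray_dist hE ζ x y hζ hx hxy) hc (hl c hc) (η := ε) hε
  obtain ⟨κ2, hκ2, δ2, hδ2, hL2⟩ := lemmaL hE compact_M (bound_of hψ) hQ
    (fun ζ x y hζ hx hxy => ray_dist hE ζ x y hζ hx hxy) hpK (hl p hpK) (η := ε / 2)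
    (by linarith)
  have hclose : ∀ᶠ i in atTop, dist (ψ (t (φ i) * ζ (φ i))) p < δ2 :=
    hp'.eventually (ball_mem_nhds p hδ2)
  obtain ⟨i, hi1, hi2, hi3, hi4, hi5⟩ := (hclose.and
    ((hlim.eventually_lt_const hκ1).and ((hlim.eventually_lt_const hκ2).and
    ((hlim.eventually_lt_const hδ1).and (hlim.eventually_lt_const (half_pos hε)))))).exists
  have hst : s (φ i) ≠ t (φ i) := by
    intro h
    have h1 := hsc (φ i)
    have h2 := htc (φ i)
    rw [h] at h1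
    linarith
  rcases lt_or_gt_of_ne hst with h1 | h1
  · -- the far point is the outer one
    have h2 := hL2 (ζ (φ i)) (hζ _) (s (φ i)) (t (φ i)) (hs1 _) h1 (by linarith [ht2 (φ i)]) hi1
    have h3 := dist_triangle_left p c (ψ (s (φ i) * ζ (φ i)))
    have h4 := hsc (φ i)
    linarith
  · have h2 := hL1 (ζ (φ i)) (hζ _) (t (φ i)) (s (φ i)) (ht1 _) h1 (by linarith [hs2 (φ i)])
      (by linarith [hsc (φ i)])
    linarith [htc (φ i)]

end Pool.Agent.T6.H93.MLC
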