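import Mathlib
import Pool.Agent.T6.H93.MLC.Base

set_option autoImplicit false

/-! # The bad part of a ray is short -/

namespace Pool.Agent.T6.H93.MLC

open Set Metric Filter Topology Complex Bornology MeasureTheory

variable {K : Set ℂ} {ψ : ℂ → ℂ}

/-- one dimensional area formula, as an inequality -/
theorem vol_image_le {h h' : ℝ → ℝ} {S : Set ℝ} {C : ℝ} (hS : MeasurableSet S)
    (hd : ∀ t ∈ S, HasDerivAt h (h' t) t) (hC : ∀ t ∈ S, |h' t| ≤ C) :
    volume (h '' S) ≤ ENNReal.ofReal C * volume S := by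
  refine (addHaar_image_le_lintegral_abs_det_fderiv volume hS
    (fun t ht => (hd t ht).hasFDerivAt.hasFDerivWithinAt)).trans ?_
  rw [← setLIntegral_const]
  refine setLIntegral_mono measurable_const fun t ht => ?_
  rw [ContinuousLinearMap.det_toSpanSingleton]
  exact ENNReal.ofReal_le_ofReal (hC t ht)

/-- the distance to a point along a curve -/
theorem deriv_norm_le {g : ℝ → ℂ} {g' p : ℂ} {t : ℝ} (hg : HasDerivAt g g' t) (hne : g t ≠ p) :
    ∃ d : ℝ, HasDerivAt (fun s => ‖g s - p‖) d t ∧ |d| ≤ ‖g'‖ := by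
  have h1 : HasDerivAt (fun s => g s - p) g' t := hg.sub_const p
  have h2 : DifferentiableAt ℝ (fun s => ‖g s - p‖) t :=
    h1.differentiableAt.norm ℝ (sub_ne_zero.2 hne)
  refine ⟨_, h2.hasDerivAt, ?_⟩
  have h3 := (hasDerivAt_iff_tendsto_slope.1 h2.hasDerivAt).abs
  have h4 := (hasDerivAt_iff_tendsto_slope.1 h1).norm
  refine le_of_tendsto_of_tendsto h3 h4 (Eventually.of_forall fun s => ?_)
  simp only [slope, vsub_eq_sub, smul_eq_mul, norm_smul, abs_mul, Real.norm_eq_abs]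
  refine mul_le_mul_of_nonneg_left ?_ (abs_nonneg _)
  exact abs_norm_sub_norm_le _ _

theorem Ext.deriv_ray (h : Ext K ψ) {ζ : ℂ} (hζ : ‖ζ‖ = 1) {t : ℝ} (ht : 1 < t) :
    HasDerivAt (fun s : ℝ => ψ (s * ζ)) (deriv ψ (t * ζ) * ζ) t := by
  have h1 : 1 < ‖(t : ℂ) * ζ‖ := by
    rw [norm_mul, hζ, mul_one, Complex.norm_real, Real.norm_eq_abs]
    exact ht.trans_le (le_abs_self _)
  have h2 : HasDerivAt ψ (deriv ψ (t * ζ)) (t * ζ) := (h.diffAt h1).hasDerivAt
  have h3 : HasDerivAt (fun s : ℝ => (s : ℂ) * ζ) ζ t := by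
    have := (Complex.ofRealCLM.hasDerivAt (x := t)).mul_const ζ
    simpa using this
  exact HasDerivAt.comp (h := fun s : ℝ => (s : ℂ) * ζ) t h2 h3

theorem vol_bad (h : Ext K ψ)
    (hQ : ∀ w, 1 < ‖w‖ → (‖w‖ - 1) * ‖deriv ψ w‖ ≤ 4 * infDist (ψ w) K) {τ : ℕ → ℝ}
    (hτ : ∀ n, 0 ≤ τ n) {ζ p : ℂ} (hζ : ‖ζ‖ = 1) (hp : p ∈ K) (N : ℕ) :
    volume ((fun t : ℝ => ‖ψ (t * ζ) - p‖) '' {t | 1 < t ∧ (N : ℝ) ≤ -Real.log (t - 1) ∧
      infDist (ψ (t * ζ)) K < τ ⌊-Real.log (t - 1)⌋₊}) ≤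
      ∑' n, ENNReal.ofReal (11 * τ (N + n)) := by
  obtain ⟨g, hg⟩ : ∃ g : ℝ → ℝ, g = fun t : ℝ => ‖ψ (t * ζ) - p‖ := ⟨_, rfl⟩
  obtain ⟨S, hS⟩ : ∃ S : ℕ → Set ℝ, S = fun m => (Ioi 1 ∩ (fun t : ℝ => infDist (ψ (t * ζ)) K) ⁻¹'
    (Iio (τ m))) ∩ {t : ℝ | (m : ℝ) ≤ -Real.log (t - 1) ∧ -Real.log (t - 1) < m + 1} := ⟨_, rfl⟩
  have hnorm : ∀ t : ℝ, 1 < t → ‖(t : ℂ) * ζ‖ = t := by
    intro t ht
    rw [norm_mul, hζ, mul_one, Complex.norm_real, Real.norm_eq_abs, abs_of_pos]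
    linarith
  rw [← hg]
  have hcover : {t | 1 < t ∧ (N : ℝ) ≤ -Real.log (t - 1) ∧
      infDist (ψ (t * ζ)) K < τ ⌊-Real.log (t - 1)⌋₊} ⊆ ⋃ n, S (N + n) := by
    rintro t ⟨ht1, ht2, ht3⟩
    rw [mem_iUnion]
    have h0 : 0 ≤ -Real.log (t - 1) := (Nat.cast_nonneg N).trans ht2
    have hle : N ≤ ⌊-Real.log (t - 1)⌋₊ := Nat.le_floor ht2
    refine ⟨⌊-Real.log (t - 1)⌋₊ - N, ?_⟩
    rw [Nat.add_sub_cancel' hle, hS]
    exact ⟨⟨ht1, ht3⟩, Nat.floor_le h0, Nat.lt_floor_add_one _⟩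
  have hmeas : ∀ m, MeasurableSet (S m) := by
    intro m
    rw [hS]
    refine MeasurableSet.inter ?_ ?_
    · refine IsOpen.measurableSet ?_
      refine ContinuousOn.isOpen_inter_preimage ?_ isOpen_Ioi isOpen_Iio
      refine (continuous_infDist_pt K).comp_continuousOn ?_
      intro t ht
      exact (h.deriv_ray hζ ht).continuousAt.continuousWithinAt
    · have hm : Measurable fun t : ℝ => -Real.log (t - 1) := by fun_prop
      exact (measurableSet_le measurable_const hm).inter (measurableSet_lt hm measurable_const)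
  have hder : ∀ t : ℝ, 1 < t → ∃ d : ℝ, HasDerivAt g d t ∧ |d| ≤ ‖deriv ψ (t * ζ)‖ := by
    intro t ht
    obtain ⟨d, hd1, hd2⟩ := deriv_norm_le (p := p) (h.deriv_ray hζ ht) (by
      intro h1
      exact h.notMem (w := t * ζ) (by rw [hnorm t ht]; exact ht) (h1 ▸ hp))
    refine ⟨d, by rw [hg]; exact hd1, ?_⟩
    rwa [norm_mul, hζ, mul_one] at hd2
  choose! g' hg1 hg2 using hder
  have hvol : ∀ m : ℕ, volume (g '' S m) ≤ ENNReal.ofReal (11 * τ m) := by
    intro m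
    have h1 : volume (g '' S m) ≤ ENNReal.ofReal (4 * τ m * Real.exp (m + 1)) * volume (S m) := by
      refine vol_image_le (h' := g') (hmeas m) (fun t ht => ?_) (fun t ht => ?_)
      · rw [hS] at ht
        exact hg1 t ht.1.1
      · rw [hS] at ht
        obtain ⟨⟨ht1, ht2⟩, ht3, ht4⟩ := ht
        have ht1' : 1 < t := ht1
        refine (hg2 t ht1).trans ?_
        have h2 := hQ (t * ζ) (by rw [hnorm t ht1]; exact ht1)
        rw [hnorm t ht1] at h2
        have h3 : Real.exp (-(m + 1)) < t - 1 := by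
          rw [← Real.lt_log_iff_exp_lt (by linarith)]
          linarith
        have h4 : infDist (ψ (t * ζ)) K < τ m := ht2
        have h5 : Real.exp (-(m + 1 : ℝ)) * ‖deriv ψ (t * ζ)‖ ≤ 4 * τ m := by
          refine le_trans (mul_le_mul_of_nonneg_right h3.le (norm_nonneg _)) ?_
          linarith
        rw [Real.exp_neg] at h5
        rw [inv_mul_le_iff₀ (Real.exp_pos _)] at h5
        linarith
    have h2 : volume (S m) ≤ ENNReal.ofReal (Real.exp (-m)) := by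
      have h3 : S m ⊆ Icc 1 (1 + Real.exp (-m)) := by
        intro t ht
        rw [hS] at ht
        obtain ⟨⟨ht1, ht2⟩, ht3, ht4⟩ := ht
        have ht1' : 1 < t := ht1
        refine ⟨ht1'.le, ?_⟩
        have h4 : t - 1 ≤ Real.exp (-m) := by
          rw [← Real.log_le_iff_le_exp (by linarith)]
          linarith
        linarith
      refine (measure_mono h3).trans ?_
      rw [Real.volume_Icc, add_sub_cancel_left]
    refine h1.trans ((mul_le_mul_right h2 _).trans ?_)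
    have hτm := hτ m
    rw [← ENNReal.ofReal_mul (by positivity)]
    refine ENNReal.ofReal_le_ofReal ?_
    have h5 : Real.exp (m + 1 : ℝ) * Real.exp (-m) = Real.exp 1 := by
      rw [← Real.exp_add]
      congr 1
      ring
    rw [mul_assoc, h5]
    have := Real.exp_one_lt_d9
    nlinarith
  calc volume (g '' {t | 1 < t ∧ (N : ℝ) ≤ -Real.log (t - 1) ∧
        infDist (ψ (t * ζ)) K < τ ⌊-Real.log (t - 1)⌋₊})
      ≤ volume (⋃ n, g '' S (N + n)) := by
        refine measure_mono ?_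
        rw [← image_iUnion]
        exact image_mono hcover
    _ ≤ ∑' n, volume (g '' S (N + n)) := measure_iUnion_le _
    _ ≤ ∑' n, ENNReal.ofReal (11 * τ (N + n)) := ENNReal.tsum_le_tsum fun n => hvol _

end Pool.Agent.T6.H93.MLC
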