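import Mathlib
import Pool.Agent.T6.H93.MLC.UT
import Pool.Agent.T6.H93.MLC.Bad
import Pool.Agent.T6.H93.MLC.LL

set_option autoImplicit false

/-! # Sluggish points where the set is not connected im kleinen -/

namespace Pool.Agent.T6.H93.MLC

open Set Metric Filter Topology Complex Bornology MeasureTheory
open Pool.Agent.R240.Loc (CIK)

variable {K : Set ℂ} {ψ : ℂ → ℂ}

theorem tail_small {τ : ℕ → ℝ} (hτ0 : ∀ n, 0 ≤ τ n) (hτs : Summable τ) {ε : ℝ} (hε : 0 < ε) :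
    ∃ N : ℕ, ∑' n, ENNReal.ofReal (11 * τ (N + n)) ≤ ENNReal.ofReal ε := by
  have h1 := tendsto_sum_nat_add (fun n => 11 * τ n)
  obtain ⟨N, hN⟩ := (h1.eventually_lt_const hε).exists
  refine ⟨N, ?_⟩
  have h2 : Summable fun n => 11 * τ (N + n) := by
    have := (summable_nat_add_iff N).2 (hτs.mul_left 11)
    simpa only [add_comm] using this
  rw [← ENNReal.ofReal_tsum_of_nonneg (fun n => mul_nonneg (by norm_num) (hτ0 _)) h2]
  refine ENNReal.ofReal_le_ofReal ?_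
  simp only [add_comm N]
  exact hN.le

theorem main (h : Ext K ψ) (hK : IsCompact K) (hKn : K.Nonempty) {B : ℝ}
    (hB : ∀ w, 1 < ‖w‖ → ‖w‖ < 2 → ‖ψ w‖ ≤ B)
    (hQ : ∀ w, 1 < ‖w‖ → (‖w‖ - 1) * ‖deriv ψ w‖ ≤ 4 * infDist (ψ w) K)
    (hR : ∀ (ζ : ℂ) (x y : ℝ), ‖ζ‖ = 1 → 0 < x → x ≤ y →
      ‖ψ ((1 + y : ℝ) * ζ) - ψ ((1 + x : ℝ) * ζ)‖ ≤
        x * ‖deriv ψ ((1 + x : ℝ) * ζ)‖ * (y / x) ^ 5 / 5)
    {τ : ℕ → ℝ} (hτ0 : ∀ n, 0 ≤ τ n) (hτs : Summable τ) (hn : ¬ ∀ p ∈ K, CIK K p) :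
    ∃ p ∈ K, ∃ ε : ℝ, 0 < ε ∧ ∀ᵐ s : ℝ, 0 < s → s < ε → ∃ c ∈ frontier K, dist c p = s ∧
      ¬ CIK K c ∧ ∀ δ : ℝ, 0 < δ → ∃ w : ℂ, 1 < ‖w‖ ∧ ‖w‖ < 1 + δ ∧ dist (ψ w) c < δ ∧
        τ ⌊-Real.log (‖w‖ - 1)⌋₊ ≤ infDist (ψ w) K := by
  have hU : ¬ UT ψ := fun hU => hn fun p hp => cik_of_UT h hK hKn hB hU hp
  unfold UT at hU
  push Not at hU
  obtain ⟨ε, hε, hU⟩ := hU
  have htail : ∀ i : ℕ, ∃ N : ℕ, ∑' n, ENNReal.ofReal (11 * τ (N + n)) ≤
      ENNReal.ofReal ((1 / 2) ^ i) := fun i => tail_small hτ0 hτs (by positivity)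
  choose N hN using htail
  have hex : ∀ i : ℕ, ∃ ζ : ℂ, ‖ζ‖ = 1 ∧ ∃ r' r : ℝ, 1 < r' ∧ r' < r ∧
      r < 1 + Real.exp (-(N i : ℝ)) ∧ r < 1 + 1 / ((i : ℝ) + 1) ∧
      ε < dist (ψ (r * ζ)) (ψ (r' * ζ)) := by
    intro i
    obtain ⟨ζ, hζ, r', r, h1, h2, h3, h4⟩ := hU (min (Real.exp (-(N i : ℝ))) (1 / ((i : ℝ) + 1)))
      (lt_min (Real.exp_pos _) (by positivity))
    refine ⟨ζ, hζ, r', r, h1, h2, ?_, ?_, h4⟩
    · linarith [min_le_left (Real.exp (-(N i : ℝ))) (1 / ((i : ℝ) + 1))]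
    · linarith [min_le_right (Real.exp (-(N i : ℝ))) (1 / ((i : ℝ) + 1))]
  choose ζ hζ r' r hr' hr'r hrN hri hfar using hex
  have hnorm : ∀ (i : ℕ) (t : ℝ), 1 < t → ‖(t : ℂ) * ζ i‖ = t := by
    intro i t ht
    rw [norm_mul, hζ, mul_one, Complex.norm_real, Real.norm_eq_abs, abs_of_pos]
    linarith
  have hi1 : ∀ i : ℕ, 1 / ((i : ℝ) + 1) ≤ 1 := by
    intro i
    rw [div_le_one (by positivity)]
    have := i.cast_nonneg (α := ℝ)
    linarith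
  have hball : ∀ (i : ℕ) (t : ℝ), 1 < t → t ≤ r i → ψ (t * ζ i) ∈ closedBall (0 : ℂ) B := by
    intro i t h1 h2
    rw [mem_closedBall_zero_iff]
    refine hB _ (by rw [hnorm i t h1]; exact h1) ?_
    rw [hnorm i t h1]
    have := hi1 i
    linarith [hri i]
  -- points near K
  have hnear : ∀ (φ : ℕ → ℕ), Tendsto φ atTop atTop → ∀ t : ℕ → ℝ, (∀ i, 1 < t i) →
      (∀ i, t i ≤ r (φ i)) → ∀ x, Tendsto (fun i => ψ (t i * ζ (φ i))) atTop (𝓝 x) → x ∈ K := by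
    intro φ hφ t ht1 ht2 x hx
    rw [hK.isClosed.mem_iff_infDist_zero hKn]
    have h1 : Tendsto (fun i => infDist (ψ (t i * ζ (φ i))) K) atTop (𝓝 (infDist x K)) :=
      ((continuous_infDist_pt K).tendsto _).comp hx
    have h2 : Tendsto (fun i => infDist (ψ (t i * ζ (φ i))) K) atTop (𝓝 0) := by
      rw [Metric.tendsto_nhds]
      intro δ hδ
      obtain ⟨κ, hκ, hk⟩ := h.close hB hδ
      have h3 : Tendsto (fun i => 1 / ((φ i : ℝ) + 1)) atTop (𝓝 0) :=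
        tendsto_one_div_add_atTop_nhds_zero_nat.comp hφ
      filter_upwards [h3.eventually_lt_const hκ] with i hi
      rw [Real.dist_eq, sub_zero, abs_of_nonneg infDist_nonneg]
      refine hk _ (by rw [hnorm _ _ (ht1 i)]; exact ht1 i) ?_
      rw [hnorm _ _ (ht1 i)]
      linarith [hri (φ i), ht2 i]
    exact tendsto_nhds_unique h1 h2
  obtain ⟨p, -, φ1, hφ1, hp⟩ := (isCompact_closedBall (0 : ℂ) B).tendsto_subseq
    (fun i => hball i (r i) ((hr' i).trans (hr'r i)) le_rfl)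
  obtain ⟨p', -, φ2, hφ2, hp'⟩ := (isCompact_closedBall (0 : ℂ) B).tendsto_subseq
    (fun i => hball (φ1 i) (r' (φ1 i)) (hr' _) (hr'r _).le)
  obtain ⟨φ, hφ⟩ : ∃ φ : ℕ → ℕ, φ = fun i => φ1 (φ2 i) := ⟨_, rfl⟩
  have hφm : StrictMono φ := by rw [hφ]; exact hφ1.comp hφ2
  have hpl : Tendsto (fun i => ψ (r (φ i) * ζ (φ i))) atTop (𝓝 p) := by
    rw [hφ]
    exact hp.comp hφ2.tendsto_atTop
  have hpl' : Tendsto (fun i => ψ (r' (φ i) * ζ (φ i))) atTop (𝓝 p') := by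
    rw [hφ]
    exact hp'
  have hpp : ε ≤ dist p p' :=
    ge_of_tendsto (hpl.dist hpl') (Eventually.of_forall fun i => (hfar (φ i)).le)
  have hpK : p ∈ K := hnear φ hφm.tendsto_atTop (fun i => r (φ i))
    (fun i => (hr' _).trans (hr'r _)) (fun i => le_rfl) p hpl
  refine ⟨p, hpK, ε, hε, ?_⟩
  -- the exceptional radii
  obtain ⟨E, hE⟩ : ∃ E : ℕ → Set ℝ, E = fun i => (fun t : ℝ => ‖ψ (t * ζ (φ i)) - p‖) ''
    {t | 1 < t ∧ (N (φ i) : ℝ) ≤ -Real.log (t - 1) ∧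
      infDist (ψ (t * ζ (φ i))) K < τ ⌊-Real.log (t - 1)⌋₊} := ⟨_, rfl⟩
  have hEv : ∀ i, volume (E i) ≤ ENNReal.ofReal ((1 / 2) ^ i) := by
    intro i
    rw [hE]
    refine (vol_bad h hQ hτ0 (hζ _) hpK _).trans ((hN (φ i)).trans ?_)
    refine ENNReal.ofReal_le_ofReal ?_
    exact pow_le_pow_of_le_one (by norm_num) (by norm_num) (hφm.id_le i)
  have hEsum : ∑' i, volume (E i) ≠ ⊤ := by
    refine ne_top_of_le_ne_top ?_ (ENNReal.tsum_le_tsum hEv)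
    rw [← ENNReal.ofReal_tsum_of_nonneg (fun n => by positivity) summable_geometric_two]
    exact ENNReal.ofReal_ne_top
  filter_upwards [ae_eventually_notMem hEsum] with s hs hs0 hsε
  have hev : ∀ᶠ i in atTop, ∃ t : ℝ, r' (φ i) < t ∧ t < r (φ i) ∧ dist (ψ (t * ζ (φ i))) p = s ∧
      τ ⌊-Real.log (t - 1)⌋₊ ≤ infDist (ψ (t * ζ (φ i))) K := by
    have h1 : ∀ᶠ i in atTop, dist (ψ (r (φ i) * ζ (φ i))) p < s := by
      have := hpl.dist (tendsto_const_nhds (x := p))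
      rw [dist_self] at this
      exact this.eventually_lt_const hs0
    have h2 : ∀ᶠ i in atTop, s < dist (ψ (r' (φ i) * ζ (φ i))) p := by
      have := hpl'.dist (tendsto_const_nhds (x := p))
      refine this.eventually_const_lt ?_
      rw [dist_comm]
      linarith
    filter_upwards [h1, h2, hs] with i hi1 hi2 hi3
    have hc : ContinuousOn (fun t : ℝ => dist (ψ (t * ζ (φ i))) p) (Icc (r' (φ i)) (r (φ i))) := by
      intro t ht
      have h3 := (h.deriv_ray (hζ (φ i)) ((hr' _).trans_le ht.1)).continuousAt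
      exact ContinuousAt.continuousWithinAt (Filter.Tendsto.dist h3 tendsto_const_nhds)
    obtain ⟨t, ht, hts⟩ := intermediate_value_Icc' (hr'r (φ i)).le hc ⟨hi1.le, hi2.le⟩
    simp only at hts
    have ht1 : r' (φ i) < t := by
      refine lt_of_le_of_ne ht.1 fun h4 => ?_
      rw [h4] at hi2
      linarith
    have ht2 : t < r (φ i) := by
      refine lt_of_le_of_ne ht.2 fun h4 => ?_
      rw [← h4] at hi1
      linarith
    refine ⟨t, ht1, ht2, hts, ?_⟩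
    by_contra hcon
    push Not at hcon
    apply hi3
    rw [hE]
    refine ⟨t, ⟨(hr' _).trans ht1, ?_, hcon⟩, ?_⟩
    · have h5 : t - 1 < Real.exp (-(N (φ i) : ℝ)) := by linarith [hrN (φ i)]
      have h6 := Real.log_le_log (by linarith [hr' (φ i)]) h5.le
      rw [Real.log_exp] at h6
      linarith
    · simp only
      rw [← dist_eq_norm]
      exact hts
  obtain ⟨I0, hI0⟩ := eventually_atTop.1 hev
  have hI1 : ∀ j : ℕ, ∃ t : ℝ, r' (φ (I0 + j)) < t ∧ t < r (φ (I0 + j)) ∧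
      dist (ψ (t * ζ (φ (I0 + j)))) p = s ∧
      τ ⌊-Real.log (t - 1)⌋₊ ≤ infDist (ψ (t * ζ (φ (I0 + j)))) K :=
    fun j => hI0 (I0 + j) (Nat.le_add_right _ _)
  choose t ht1 ht2 ht3 ht4 using hI1
  have ht0 : ∀ j, 1 < t j := fun j => (hr' _).trans (ht1 j)
  obtain ⟨c, -, χ, hχ, hcl⟩ := (isCompact_closedBall (0 : ℂ) B).tendsto_subseq
    (fun j => hball (φ (I0 + j)) (t j) (ht0 j) (ht2 j).le)
  have hcl' : Tendsto (fun j => ψ (t (χ j) * ζ (φ (I0 + χ j)))) atTop (𝓝 c) := hcl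
  have hadd : Tendsto (fun j => I0 + χ j) atTop atTop :=
    (tendsto_atTop_mono (fun j => Nat.le_add_left _ _) hχ.tendsto_atTop)
  have hcK : c ∈ K := hnear (fun j => φ (I0 + χ j)) (hφm.tendsto_atTop.comp hadd)
    (fun j => t (χ j)) (fun j => ht0 _) (fun j => (ht2 _).le) c hcl'
  have hcp : dist c p = s := by
    have h1 := hcl'.dist (tendsto_const_nhds (x := p))
    refine tendsto_nhds_unique h1 ?_
    simp only [ht3]
    exact tendsto_const_nhds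
  have hcf : c ∈ frontier K := by
    rw [frontier_eq_closure_inter_closure]
    refine ⟨subset_closure hcK, ?_⟩
    refine mem_closure_of_tendsto hcl' (Eventually.of_forall fun j => ?_)
    exact h.notMem (by rw [hnorm _ _ (ht0 _)]; exact ht0 _)
  have htlim : ∀ δ : ℝ, 0 < δ → ∀ᶠ j in atTop, t (χ j) < 1 + δ := by
    intro δ hδ
    have h3 : Tendsto (fun j => 1 / ((φ (I0 + χ j) : ℝ) + 1)) atTop (𝓝 0) :=
      tendsto_one_div_add_atTop_nhds_zero_nat.comp (hφm.tendsto_atTop.comp hadd)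
    filter_upwards [h3.eventually_lt_const hδ] with j hj
    linarith [hri (φ (I0 + χ j)), ht2 (χ j)]
  refine ⟨c, hcf, hcp, ?_, ?_⟩
  · intro hcik
    obtain ⟨κ, hκ, δ, hδ, hL⟩ := lemmaL h hK hB hQ hR hcK hcik (η := (ε - s) / 2) (by linarith)
    have h1 : ∀ᶠ j in atTop, dist (ψ (t (χ j) * ζ (φ (I0 + χ j)))) c < δ :=
      hcl'.eventually (ball_mem_nhds c hδ)
    have h2 : ∀ᶠ j in atTop, dist (ψ (r' (φ (I0 + χ j)) * ζ (φ (I0 + χ j)))) c < (ε - s) / 2 := by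
      filter_upwards [h1, htlim κ hκ] with j hj1 hj2
      exact hL _ (hζ _) _ _ (hr' _) (ht1 _) hj2 hj1
    have h3 : Tendsto (fun j => dist (ψ (r' (φ (I0 + χ j)) * ζ (φ (I0 + χ j)))) c) atTop
        (𝓝 (dist p' c)) := (hpl'.comp hadd).dist tendsto_const_nhds
    have h4 : dist p' c ≤ (ε - s) / 2 := le_of_tendsto h3 (h2.mono fun j hj => hj.le)
    have h5 := dist_triangle p' c p
    rw [hcp, dist_comm p' p] at h5
    linarith
  · intro δ hδ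
    have h1 : ∀ᶠ j in atTop, dist (ψ (t (χ j) * ζ (φ (I0 + χ j)))) c < δ :=
      hcl'.eventually (ball_mem_nhds c hδ)
    obtain ⟨j, hj1, hj2⟩ := (h1.and (htlim δ hδ)).exists
    refine ⟨t (χ j) * ζ (φ (I0 + χ j)), ?_, ?_, hj1, ?_⟩
    · rw [hnorm _ _ (ht0 _)]; exact ht0 _
    · rw [hnorm _ _ (ht0 _)]; exact hj2
    · rw [hnorm _ _ (ht0 _)]; exact ht4 _

end Pool.Agent.T6.H93.MLC
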